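import Pool.Agent.W5h24.RE.C
import Pool.Agent.W469.CV.MH

set_option autoImplicit false

/-!
# The conjugates over an arbitrary field
-/

namespace Pool.Agent.W5h24.RE

open NumberField Height Module Polynomial Finset IntermediateField

/-- the field generated by the conjugates of `α` over `ℚ` -/
noncomputable abbrev NC (α : ℂ) : IntermediateField ℚ ℂ := adjoin ℚ ((minpoly ℚ α).rootSet ℂ)

/-- the conjugates of `α` over `F`, as elements of `NC α` -/
abbrev Conj (F : IntermediateField ℚ ℂ) (α : ℂ) : Type :=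
  {z : NC α // aeval (z : ℂ) (minpoly F α) = 0}

theorem nf {α : ℂ} (_hα : IsAlgebraic ℚ α) : NumberField (NC α) := by
  have hsplit : IsSplittingField ℚ (NC α) (minpoly ℚ α) :=
    adjoin_rootSet_isSplittingField (IsAlgClosed.splits _)
  have hfd : FiniteDimensional ℚ (NC α) := IsSplittingField.finiteDimensional _ (minpoly ℚ α)
  exact ⟨⟩

section
variable {F : IntermediateField ℚ ℂ} {α : ℂ}

lemma root_minpoly {z : ℂ} (hz : aeval z (minpoly F α) = 0) : aeval z (minpoly ℚ α) = 0 := by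
  obtain ⟨q, hq⟩ := minpoly.dvd_map_of_isScalarTower ℚ F α
  have h3 : aeval z ((minpoly ℚ α).map (algebraMap ℚ F)) = 0 := by
    rw [hq, map_mul, hz, zero_mul]
  rwa [aeval_map_algebraMap] at h3

lemma mem_NC (hα : IsAlgebraic ℚ α) {z : ℂ} (hz : aeval z (minpoly F α) = 0) : z ∈ NC α := by
  apply subset_adjoin
  rw [mem_rootSet']
  exact ⟨Polynomial.map_ne_zero (minpoly.ne_zero hα.isIntegral), root_minpoly hz⟩

/-- the conjugates as a root set -/
noncomputable def conjEquiv (hα : IsAlgebraic ℚ α) : Conj F α ≃ (minpoly F α).rootSet ℂ where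
  toFun z := ⟨((z.1 : NC α) : ℂ), mem_rootSet'.2
    ⟨Polynomial.map_ne_zero (minpoly.ne_zero hα.isIntegral.tower_top), z.2⟩⟩
  invFun z := ⟨⟨z.1, mem_NC hα (mem_rootSet'.1 z.2).2⟩, (mem_rootSet'.1 z.2).2⟩
  left_inv _ := rfl
  right_inv _ := rfl

theorem finite_conj (hα : IsAlgebraic ℚ α) : Finite (Conj F α) :=
  Finite.of_equiv _ (conjEquiv (F := F) hα).symm

theorem card_conj (hα : IsAlgebraic ℚ α) : Nat.card (Conj F α) = (minpoly F α).natDegree := by
  rw [Nat.card_congr (conjEquiv hα), Nat.card_eq_fintype_card]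
  exact card_rootSet_eq_natDegree (minpoly.irreducible hα.isIntegral.tower_top).separable
    (IsAlgClosed.splits _)

theorem conj_ne_zero (hα : IsAlgebraic ℚ α) (h0 : α ≠ 0) (z : Conj F α) : (z.1 : NC α) ≠ 0 := by
  intro h
  have h1 := z.2
  rw [h] at h1
  have h2 : (minpoly F α).coeff 0 = 0 := by
    have h3 : aeval (0 : ℂ) (minpoly F α) = 0 := h1
    rw [← Polynomial.coeff_zero_eq_aeval_zero'] at h3
    exact (algebraMap F ℂ).injective (by rw [h3, map_zero])
  exact h0 ((minpoly.coeff_zero_eq_zero hα.isIntegral.tower_top).1 h2)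

theorem conj_height (hα : IsAlgebraic ℚ α) [NumberField (NC α)] (z : Conj F α)
    (f : ℤ[X]) (hf : Irreducible f) (hfα : aeval α f = 0) :
    Real.log (mulHeight₁ (z.1 : NC α)) ≤ finrank ℚ (NC α) *
      (Real.log ((f.map (Int.castRingHom ℂ)).mahlerMeasure) / f.natDegree) := by
  have hαi := hα.isIntegral
  have hfd0 : 0 < f.natDegree := by
    rw [Nat.pos_iff_ne_zero]
    intro h
    rw [Polynomial.eq_C_of_natDegree_eq_zero h, aeval_C] at hfα
    have h1 : f.coeff 0 = 0 := by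
      have : ((f.coeff 0 : ℤ) : ℂ) = 0 := by simpa using hfα
      exact_mod_cast this
    apply hf.ne_zero
    rw [Polynomial.eq_C_of_natDegree_eq_zero h, h1, C_0]
  have hr := root_minpoly z.2
  have h2 : minpoly ℚ α ∣ f.map (Int.castRingHom ℚ) := by
    apply minpoly.dvd
    have : aeval α (f.map (algebraMap ℤ ℚ)) = 0 := by rw [aeval_map_algebraMap, hfα]
    exact this
  have h3 : aeval ((z.1 : NC α) : ℂ) (f.map (Int.castRingHom ℚ)) = 0 := by
    obtain ⟨q, hq⟩ := h2
    rw [hq, map_mul, hr, zero_mul]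
  have h4 : aeval ((z.1 : NC α) : ℂ) f = 0 := by
    have : aeval ((z.1 : NC α) : ℂ) (f.map (algebraMap ℤ ℚ)) = 0 := h3
    rwa [aeval_map_algebraMap] at this
  have h5 : (algebraMap (NC α) ℂ) (aeval (z.1 : NC α) f) = aeval ((z.1 : NC α) : ℂ) f := by
    rw [← aeval_algebraMap_apply]
    rfl
  have h6 : aeval (z.1 : NC α) f = 0 := by
    apply (algebraMap (NC α) ℂ).injective
    rw [h5, h4, map_zero]
  exact Pool.Agent.W469.CV.MH.t (NC α) z.1 f hf hfd0 h6

/-- the arithmetic mean of a function on a finite type -/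
noncomputable def mean {ι E : Type} [AddCommGroup E] [Module ℝ E] (f : ι → E) : E :=
  (Nat.card ι : ℝ)⁻¹ • ∑ᶠ i, f i

lemma mean_eq {ι E : Type} [Fintype ι] [AddCommGroup E] [Module ℝ E] (f : ι → E) :
    mean f = (Fintype.card ι : ℝ)⁻¹ • ∑ i, f i := by
  unfold mean
  rw [Nat.card_eq_fintype_card, finsum_eq_sum_of_fintype]

/-- `h` is the height of `α` -/
def IsHeight (α : ℂ) (h : ℝ) : Prop :=
  ∃ f : ℤ[X], Irreducible f ∧ aeval α f = 0 ∧
    h = Real.log ((f.map (Int.castRingHom ℂ)).mahlerMeasure) / f.natDegree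

/-- the error term -/
noncomputable def err (D : ℕ) : ℝ := (Real.log D + 1 / 2) / D

theorem mean_power (F : IntermediateField ℚ ℂ) (α : ℂ) (h0 : α ≠ 0) (hα : IsAlgebraic ℚ α)
    (h : ℝ) (hh : IsHeight α h) (hD : 2 ≤ (minpoly F α).natDegree) (k : ℕ) (hk1 : 1 ≤ k)
    (hk : k ≤ (minpoly F α).natDegree) :
    mean (fun σ : NC α →+* ℂ => ‖mean (fun z : Conj F α => (σ z.1 / ‖σ z.1‖) ^ k)‖ ^ 2) ≤
      4 * k * (3 * h + err (minpoly F α).natDegree) := by
  classical
  have := nf hα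
  have := finite_conj (F := F) hα
  have : Fintype (Conj F α) := Fintype.ofFinite _
  obtain ⟨f, hf, hfα, rfl⟩ := hh
  have hc : Fintype.card (Conj F α) = (minpoly F α).natDegree := by
    rw [← Nat.card_eq_fintype_card, card_conj hα]
  have h1 := sum_us (fun z : Conj F α => (z.1 : NC α)) (conj_ne_zero hα h0)
    Subtype.val_injective (fun z => conj_height hα z f hf hfα) (by rw [hc]; exact hD) hk1
    (by rw [hc]; exact hk)
  rw [mean_eq, smul_eq_mul]
  have hE : (Fintype.card (NC α →+* ℂ) : ℝ) = finrank ℚ (NC α) := by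
    rw [← NumberField.Embeddings.card (NC α) ℂ]
  have hn : (0 : ℝ) < finrank ℚ (NC α) := by
    exact_mod_cast Module.finrank_pos (R := ℚ) (M := NC α)
  rw [hE, inv_mul_le_iff₀ hn]
  rw [hc] at h1
  have hD0 : (0 : ℝ) < (minpoly F α).natDegree := by
    exact_mod_cast (by omega : 0 < (minpoly F α).natDegree)
  have h2 : ∀ σ : NC α →+* ℂ, ‖mean (fun z : Conj F α => (σ z.1 / ‖σ z.1‖) ^ k)‖ ^ 2 =
      ‖us (fun z : Conj F α => σ z.1) k‖ ^ 2 / ((minpoly F α).natDegree : ℝ) ^ 2 := by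
    intro σ
    rw [mean_eq, norm_smul, hc, mul_pow, norm_inv, Real.norm_natCast]
    unfold us dir
    rw [div_eq_mul_inv, mul_comm, inv_pow]
  simp only [h2]
  rw [← Finset.sum_div, div_le_iff₀ (by positivity)]
  refine h1.trans (le_of_eq ?_)
  unfold err
  ring

theorem mean_log (F : IntermediateField ℚ ℂ) (α : ℂ) (h0 : α ≠ 0) (hα : IsAlgebraic ℚ α)
    (h : ℝ) (hh : IsHeight α h) :
    mean (fun σ : NC α →+* ℂ => mean (fun z : Conj F α => |Real.log ‖σ z.1‖|)) ≤ 2 * h := by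
  classical
  have := nf hα
  have := finite_conj (F := F) hα
  have : Fintype (Conj F α) := Fintype.ofFinite _
  obtain ⟨f, hf, hfα, rfl⟩ := hh
  have hc : Fintype.card (Conj F α) = (minpoly F α).natDegree := by
    rw [← Nat.card_eq_fintype_card, card_conj hα]
  rw [mean_eq, smul_eq_mul]
  have hE : (Fintype.card (NC α →+* ℂ) : ℝ) = finrank ℚ (NC α) := by
    rw [← NumberField.Embeddings.card (NC α) ℂ]
  have hn : (0 : ℝ) < finrank ℚ (NC α) := by
    exact_mod_cast Module.finrank_pos (R := ℚ) (M := NC α)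
  rw [hE, inv_mul_le_iff₀ hn]
  have hD0 : (0 : ℝ) < (minpoly F α).natDegree := by
    exact_mod_cast minpoly.natDegree_pos hα.isIntegral.tower_top
  have h2 : ∀ σ : NC α →+* ℂ, mean (fun z : Conj F α => |Real.log ‖σ z.1‖|) =
      (∑ z : Conj F α, |Real.log ‖σ z.1‖|) / ((minpoly F α).natDegree : ℝ) := by
    intro σ
    rw [mean_eq, smul_eq_mul, hc, div_eq_inv_mul]
  simp only [h2]
  rw [← Finset.sum_div, div_le_iff₀ hD0, Finset.sum_comm]
  have h1 : ∀ z ∈ (univ : Finset (Conj F α)), ∑ σ : NC α →+* ℂ, |Real.log ‖σ z.1‖| ≤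
      2 * (finrank ℚ (NC α) *
        (Real.log ((f.map (Int.castRingHom ℂ)).mahlerMeasure) / f.natDegree)) := fun z _ =>
    (nf_ll (z.1 : NC α) (conj_ne_zero hα h0 z)).trans
      (by linarith [conj_height hα z f hf hfα])
  refine (Finset.sum_le_sum h1).trans (le_of_eq ?_)
  rw [Finset.sum_const, Finset.card_univ, hc, nsmul_eq_mul]
  ring

/-- all but at most `(η / 24) D` of the conjugates lie outside the sector with the axis `v` -/
def SparseSector (F : IntermediateField ℚ ℂ) (α : ℂ) (η : ℝ) (σ : NC α →+* ℂ) : Prop :=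
  ∃ v : ℂ, ‖v‖ = 1 ∧
    (({z : Conj F α | (1 - η) * ‖σ z.1‖ < (σ z.1 * (starRingEnd ℂ) v).re}.ncard : ℕ) : ℝ) ≤
      η / 24 * (minpoly F α).natDegree

theorem sparse_sector (F : IntermediateField ℚ ℂ) (α : ℂ) (h0 : α ≠ 0) (hα : IsAlgebraic ℚ α)
    (h : ℝ) (hh : IsHeight α h) (hD : 2 ≤ (minpoly F α).natDegree) (η δ : ℝ) (hη : 0 < η)
    (hη2 : η ≤ 2) (hδ : δ ≤ 1)
    (hs : δ * Nat.card (NC α →+* ℂ) ≤ ({σ | SparseSector F α η σ}.ncard : ℕ)) :
    δ * η ^ 2 / 1728 - 4 / 9 * err (minpoly F α).natDegree ≤ h := by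
  classical
  have := nf hα
  have := finite_conj (F := F) hα
  have : Fintype (Conj F α) := Fintype.ofFinite _
  obtain ⟨f, hf, hfα, rfl⟩ := hh
  have hc : Fintype.card (Conj F α) = (minpoly F α).natDegree := by
    rw [← Nat.card_eq_fintype_card, card_conj hα]
  have hE : (Nat.card (NC α →+* ℂ) : ℝ) = finrank ℚ (NC α) := by
    rw [← NumberField.Embeddings.card (NC α) ℂ, Nat.card_eq_fintype_card]
  have h1 := sector (fun z : Conj F α => (z.1 : NC α)) (conj_ne_zero hα h0)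
    Subtype.val_injective (fun z => conj_height hα z f hf hfα) (by rw [hc]; exact hD) hη hη2 hδ
    {σ | SparseSector F α η σ}.toFinite.toFinset
    (by rw [← hE, ← Set.ncard_eq_toFinset_card]; exact hs) (by
      intro σ hσ
      rw [Set.Finite.mem_toFinset] at hσ
      obtain ⟨v, hv, hB⟩ := hσ
      refine ⟨v, hv,
        {z : Conj F α | (1 - η) * ‖σ z.1‖ < (σ z.1 * (starRingEnd ℂ) v).re}.toFinite.toFinset,
        ?_, fun z hz => ?_⟩
      · rw [hc, ← Set.ncard_eq_toFinset_card]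
        exact hB
      · rw [Set.Finite.mem_toFinset] at hz
        exact not_lt.1 hz)
  rw [hc] at h1
  exact h1

theorem height_nonneg (α : ℂ) (hα : IsAlgebraic ℚ α) (h : ℝ) (hh : IsHeight α h) : 0 ≤ h := by
  have := nf hα
  obtain ⟨f, hf, hfα, rfl⟩ := hh
  have hmem : α ∈ NC α := mem_NC (F := ⊥) hα (minpoly.aeval _ _)
  have h1 := (Real.log_nonneg (one_le_mulHeight₁ (⟨α, hmem⟩ : NC α))).trans
    (conj_height (F := ⊥) hα ⟨⟨α, hmem⟩, minpoly.aeval _ _⟩ f hf hfα)
  have hn : (0 : ℝ) < finrank ℚ (NC α) := by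
    exact_mod_cast Module.finrank_pos (R := ℚ) (M := NC α)
  exact nonneg_of_mul_nonneg_right h1 hn

end

end Pool.Agent.W5h24.RE
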