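import Pool.Agent.W5h24.RE.D

set_option autoImplicit false

/-!
# Affine images of totally real numbers
-/

namespace Pool.Agent.W5h24.RE

open NumberField Height Module Polynomial Finset IntermediateField

/-- all the conjugates of `β` over `ℚ` are real -/
def TotallyReal (β : ℂ) : Prop :=
  IsAlgebraic ℚ β ∧ ∀ z : ℂ, aeval z (minpoly ℚ β) = 0 → z.im = 0

lemma real_emb {β : ℂ} (hβ : TotallyReal β) (τ : NC β →+* ℂ) (x : NC β) :
    (starRingEnd ℂ) (τ x) = τ x := by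
  let φ : NC β →ₐ[ℚ] ℂ := τ.toRatAlgHom
  let ψ : NC β →ₐ[ℚ] ℂ := ((starRingEnd ℂ).comp τ).toRatAlgHom
  have h : ψ = φ := by
    refine adjoin_algHom_ext ℚ (s := (minpoly ℚ β).rootSet ℂ) ?_
    intro s hs
    have h1 : aeval s (minpoly ℚ β) = 0 := (mem_rootSet'.1 hs).2
    have h2 : aeval (τ ⟨s, subset_adjoin _ _ hs⟩) (minpoly ℚ β) = 0 := by
      have h3 : aeval (⟨s, subset_adjoin _ _ hs⟩ : NC β) (minpoly ℚ β) = 0 := by
        apply (algebraMap (NC β) ℂ).injective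
        rw [← aeval_algebraMap_apply, map_zero]
        exact h1
      have h4 := aeval_algHom_apply φ (⟨s, subset_adjoin _ _ hs⟩ : NC β) (minpoly ℚ β)
      rw [h3, map_zero] at h4
      exact h4
    have h5 := hβ.2 _ h2
    exact Complex.conj_eq_iff_im.2 h5
  exact DFunLike.congr_fun h x

lemma real_ratio {α β : ℂ} (hα : IsAlgebraic ℚ α) (hβ : TotallyReal β) (r : ℂ) (hr : r ∈ NC α)
    (hr' : r ∈ NC β) (σ : NC α →+* ℂ) :
    (starRingEnd ℂ) (σ ⟨r, hr⟩) = σ ⟨r, hr⟩ := by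
  have := nf hα
  have := nf hβ.1
  have h1 : σ ⟨r, hr⟩ ∈ (minpoly ℚ (⟨r, hr⟩ : NC α)).rootSet ℂ := by
    rw [← NumberField.Embeddings.range_eval_eq_rootSet_minpoly]
    exact ⟨σ, rfl⟩
  have h2 : minpoly ℚ (⟨r, hr⟩ : NC α) = minpoly ℚ (⟨r, hr'⟩ : NC β) := by
    have e1 : minpoly ℚ (⟨r, hr⟩ : NC α) = minpoly ℚ r :=
      (minpoly.algebraMap_eq (algebraMap (NC α) ℂ).injective _).symm
    have e2 : minpoly ℚ (⟨r, hr'⟩ : NC β) = minpoly ℚ r :=
      (minpoly.algebraMap_eq (algebraMap (NC β) ℂ).injective _).symm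
    rw [e1, e2]
  rw [h2, ← NumberField.Embeddings.range_eval_eq_rootSet_minpoly] at h1
  obtain ⟨τ, hτ⟩ := h1
  have h3 : τ ⟨r, hr'⟩ = σ ⟨r, hr⟩ := hτ
  rw [← h3]
  exact real_emb hβ τ _

lemma conj_affine {F : IntermediateField ℚ ℂ} {a b β : ℂ} (ha : a ∈ F) (hb : b ∈ F) (ha0 : a ≠ 0)
    {z : ℂ} (hz : aeval z (minpoly F (a * β + b)) = 0) :
    aeval ((z - b) / a) (minpoly F β) = 0 := by
  set q : F[X] := (minpoly F β).comp (C (⟨a, ha⟩ : F)⁻¹ * (X - C (⟨b, hb⟩ : F))) with hq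
  have h1 : ∀ w : ℂ, aeval w q = aeval ((w - b) / a) (minpoly F β) := by
    intro w
    rw [hq, aeval_comp]
    congr 1
    rw [map_mul, map_sub, aeval_C, aeval_X, aeval_C]
    have e1 : algebraMap F ℂ (⟨a, ha⟩ : F)⁻¹ = a⁻¹ := by
      rw [map_inv₀]
      rfl
    have e2 : algebraMap F ℂ (⟨b, hb⟩ : F) = b := rfl
    rw [e1, e2, div_eq_inv_mul]
  have h2 : aeval (a * β + b) q = 0 := by
    rw [h1, add_sub_cancel_right, mul_div_cancel_left₀ _ ha0]
    exact minpoly.aeval _ _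
  obtain ⟨p, hp⟩ := minpoly.dvd F (a * β + b) h2
  rw [← h1, hp, map_mul, hz, zero_mul]

/-- a line lies in a closed half-plane -/
lemma half_plane {J : Type} (z : J → ℂ) (j₀ j₁ : J) (h01 : z j₁ ≠ z j₀)
    (hline : ∀ j, ∃ t : ℝ, z j = z j₀ + t * (z j₁ - z j₀)) :
    ∃ v : ℂ, ‖v‖ = 1 ∧ ∀ j, (z j * (starRingEnd ℂ) v).re ≤ 0 := by
  set q : ℂ := z j₁ - z j₀ with hq
  have hq0 : q ≠ 0 := sub_ne_zero.2 h01
  have hqn : (0 : ℝ) < ‖q‖ := norm_pos_iff.2 hq0
  set u : ℂ := Complex.I * q / ‖q‖ with hu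
  have hu1 : ‖u‖ = 1 := by
    rw [hu, norm_div, norm_mul, Complex.norm_I, one_mul, Complex.norm_real, norm_norm]
    exact div_self hqn.ne'
  have horth : (q * (starRingEnd ℂ) u).re = 0 := by
    rw [hu, map_div₀, map_mul, Complex.conj_I, Complex.conj_ofReal]
    have h1 : q * (-Complex.I * (starRingEnd ℂ) q / (‖q‖ : ℂ)) =
        ((‖q‖ : ℝ) : ℂ) * (-Complex.I) := by
      have h2 : q * (starRingEnd ℂ) q = ((‖q‖ : ℝ) : ℂ) ^ 2 := by
        rw [Complex.mul_conj, Complex.normSq_eq_norm_sq]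
        push_cast
        rfl
      have h3 : ((‖q‖ : ℝ) : ℂ) ≠ 0 := by exact_mod_cast hqn.ne'
      calc q * (-Complex.I * (starRingEnd ℂ) q / (‖q‖ : ℂ)) =
          (q * (starRingEnd ℂ) q) * (-Complex.I) / (‖q‖ : ℂ) := by ring
        _ = _ := by
          rw [h2]
          field_simp
    rw [h1]
    simp
  have hre : ∀ w : ℂ, ∀ j, ∃ t : ℝ, (z j * (starRingEnd ℂ) w).re =
      (z j₀ * (starRingEnd ℂ) w).re + t * (q * (starRingEnd ℂ) w).re := by
    intro w j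
    obtain ⟨t, ht⟩ := hline j
    refine ⟨t, ?_⟩
    rw [ht, add_mul, Complex.add_re, mul_assoc, Complex.re_ofReal_mul]
  rcases le_total ((z j₀ * (starRingEnd ℂ) u).re) 0 with h | h
  · refine ⟨u, hu1, fun j => ?_⟩
    obtain ⟨t, ht⟩ := hre u j
    rw [ht, horth, mul_zero, add_zero]
    exact h
  · refine ⟨-u, by rw [norm_neg, hu1], fun j => ?_⟩
    obtain ⟨t, ht⟩ := hre (-u) j
    rw [ht]
    simp only [map_neg, mul_neg, Complex.neg_re, horth, neg_zero, mul_zero, add_zero]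
    linarith

theorem affine (F : IntermediateField ℚ ℂ) (a b β : ℂ) (ha : a ∈ F) (hb : b ∈ F) (ha0 : a ≠ 0)
    (hβ : TotallyReal β) (hα : IsAlgebraic ℚ (a * β + b)) (h : ℝ) (hh : IsHeight (a * β + b) h)
    (hD : 2 ≤ (minpoly F (a * β + b)).natDegree) :
    1 / 1728 - 4 / 9 * err (minpoly F (a * β + b)).natDegree ≤ h := by
  classical
  set α : ℂ := a * β + b with hαdef
  have := nf hα
  have hfin := finite_conj (F := F) hα
  have : Fintype (Conj F α) := Fintype.ofFinite _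
  have hc : Fintype.card (Conj F α) = (minpoly F α).natDegree := by
    rw [← Nat.card_eq_fintype_card, card_conj hα]
  -- `α` is not zero
  have h0 : α ≠ 0 := by
    intro h0
    rw [h0] at hD
    have h1 : minpoly F (0 : ℂ) = X := minpoly.zero F ℂ
    rw [h1, natDegree_X] at hD
    omega
  -- two distinct conjugates
  obtain ⟨z₀, z₁, h01⟩ := Fintype.exists_pair_of_one_lt_card
    (show 1 < Fintype.card (Conj F α) by rw [hc]; omega)
  have hall : ∀ σ : NC α →+* ℂ, SparseSector F α 1 σ := by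
    intro σ
    have hne : σ z₁.1 ≠ σ z₀.1 := fun h => h01 (Subtype.ext (σ.injective h)).symm
    obtain ⟨v, hv, hhalf⟩ := half_plane (fun z : Conj F α => σ z.1) z₀ z₁ hne (by
      intro z
      -- the ratio
      set r : NC α := (z.1 - z₀.1) / (z₁.1 - z₀.1) with hr
      have hd : z₁.1 - z₀.1 ≠ 0 := sub_ne_zero.2 fun h => h01 (Subtype.ext h).symm
      have hrβ : ((r : NC α) : ℂ) ∈ NC β := by
        have hm : ∀ w : Conj F α, (((w.1 : NC α) : ℂ) - b) / a ∈ NC β := fun w =>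
          mem_NC hβ.1 (conj_affine ha hb ha0 w.2)
        have e1 : ((r : NC α) : ℂ) = ((((z.1 : NC α) : ℂ) - b) / a - (((z₀.1 : NC α) : ℂ) - b) / a) /
            ((((z₁.1 : NC α) : ℂ) - b) / a - (((z₀.1 : NC α) : ℂ) - b) / a) := by
          have e2 : ((r : NC α) : ℂ) = (((z.1 : NC α) : ℂ) - ((z₀.1 : NC α) : ℂ)) /
              (((z₁.1 : NC α) : ℂ) - ((z₀.1 : NC α) : ℂ)) := rfl
          rw [e2, ← sub_div, ← sub_div, div_div_div_cancel_right₀ ha0]
          congr 1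
          · ring
          · ring
        rw [e1]
        exact div_mem (sub_mem (hm z) (hm z₀)) (sub_mem (hm z₁) (hm z₀))
      have hreal := real_ratio hα hβ ((r : NC α) : ℂ) r.2 hrβ σ
      refine ⟨(σ r).re, ?_⟩
      have hre : (((σ r).re : ℝ) : ℂ) = σ r := Complex.conj_eq_iff_re.1 hreal
      show σ z.1 = σ z₀.1 + (((σ r).re : ℝ) : ℂ) * (σ z₁.1 - σ z₀.1)
      rw [hre, ← map_sub, ← map_mul, ← map_add]
      congr 1
      rw [hr, div_mul_cancel₀ _ hd]
      ring)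
    refine ⟨v, hv, ?_⟩
    have hempty : {z : Conj F α | (1 - (1 : ℝ)) * ‖σ z.1‖ < (σ z.1 * (starRingEnd ℂ) v).re} = ∅ := by
      ext z
      simp only [Set.mem_ofPred_eq, Set.mem_empty_iff_false, iff_false, sub_self, zero_mul, not_lt]
      exact hhalf z
    rw [hempty, Set.ncard_empty, Nat.cast_zero]
    have : (0 : ℝ) ≤ (minpoly F α).natDegree := Nat.cast_nonneg _
    linarith
  have h1 := sparse_sector F α h0 hα h hh hD 1 1 one_pos (by norm_num) le_rfl (by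
    have h2 : {σ | SparseSector F α 1 σ} = Set.univ := Set.eq_univ_of_forall hall
    rw [h2, Set.ncard_univ, one_mul])
  linarith

end Pool.Agent.W5h24.RE
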