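import Pool.Agent.W5h24.RE.C2
import Pool.Agent.W5h24.RE.D
import Pool.Agent.W5h24.RE.E

set_option autoImplicit false

/-!
# Affine images of numbers with many real conjugates
-/

namespace Pool.Agent.W5h24.RE

open NumberField Height Module Polynomial Finset IntermediateField

theorem root_height {F : IntermediateField ℚ ℂ} {α : ℂ} (E : IntermediateField ℚ ℂ)
    [NumberField E] (x : E) (hx : aeval (x : ℂ) (minpoly F α) = 0)
    (f : ℤ[X]) (hf : Irreducible f) (hfα : aeval α f = 0) :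
    Real.log (mulHeight₁ x) ≤ finrank ℚ E *
      (Real.log ((f.map (Int.castRingHom ℂ)).mahlerMeasure) / f.natDegree) := by
  have hfd0 : 0 < f.natDegree := by
    rw [Nat.pos_iff_ne_zero]
    intro h
    rw [Polynomial.eq_C_of_natDegree_eq_zero h, aeval_C] at hfα
    have h1 : f.coeff 0 = 0 := by
      have : ((f.coeff 0 : ℤ) : ℂ) = 0 := by simpa using hfα
      exact_mod_cast this
    apply hf.ne_zero
    rw [Polynomial.eq_C_of_natDegree_eq_zero h, h1, C_0]
  have hr := root_minpoly hx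
  have h2 : minpoly ℚ α ∣ f.map (Int.castRingHom ℚ) := by
    apply minpoly.dvd
    have : aeval α (f.map (algebraMap ℤ ℚ)) = 0 := by rw [aeval_map_algebraMap, hfα]
    exact this
  have h3 : aeval (x : ℂ) (f.map (Int.castRingHom ℚ)) = 0 := by
    obtain ⟨q, hq⟩ := h2
    rw [hq, map_mul, hr, zero_mul]
  have h4 : aeval (x : ℂ) f = 0 := by
    have : aeval (x : ℂ) (f.map (algebraMap ℤ ℚ)) = 0 := h3
    rwa [aeval_map_algebraMap] at this
  have h5 : (algebraMap E ℂ) (aeval x f) = aeval (x : ℂ) f := by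
    rw [← aeval_algebraMap_apply]
    rfl
  have h6 : aeval x f = 0 := by
    apply (algebraMap E ℂ).injective
    rw [h5, h4, map_zero]
  exact Pool.Agent.W469.CV.MH.t E x f hf hfd0 h6

/-- the fibres of the evaluation of the embeddings at an element have the same size -/
theorem fiber_sum (E : Type) [Field E] [NumberField E] (w : E) (g : ℂ → ℝ)
    [Fintype {r : ℂ // aeval r (minpoly ℚ w) = 0}] :
    ((minpoly ℚ w).natDegree : ℝ) * ∑ σ : E →+* ℂ, g (σ w) =
      finrank ℚ E * ∑ r : {r : ℂ // aeval r (minpoly ℚ w) = 0}, g r := by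
  classical
  have hw : IsIntegral ℚ w := Algebra.IsIntegral.isIntegral w
  let L : IntermediateField ℚ E := ℚ⟮w⟯
  let pb : PowerBasis ℚ L := adjoin.powerBasis hw
  have hgen : (algebraMap L E) pb.gen = w := by
    show (algebraMap L E) (adjoin.powerBasis hw).gen = w
    rw [adjoin.powerBasis_gen]
    rfl
  let : Fintype (L →ₐ[ℚ] ℂ) := PowerBasis.AlgHom.fintype pb
  have h1 : ∑ σ : E →+* ℂ, g (σ w) = ∑ σ : E →ₐ[ℚ] ℂ, g (σ w) :=
    Fintype.sum_equiv (RingHom.equivRatAlgHom (R := E) (S := ℂ)) _ _ fun σ => rfl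
  have h2 : ∑ σ : E →ₐ[ℚ] ℂ, g (σ w) = finrank L E * ∑ τ : L →ₐ[ℚ] ℂ, g (τ pb.gen) := by
    rw [Fintype.sum_equiv algHomEquivSigma (fun σ : E →ₐ[ℚ] ℂ => g (σ w))
      (fun σ => g (σ.1 pb.gen)), ← Finset.univ_sigma_univ, Finset.sum_sigma, Finset.mul_sum]
    · refine Finset.sum_congr rfl fun σ _ => ?_
      let : Algebra L ℂ := σ.toRingHom.toAlgebra
      simp_rw [Finset.sum_const, Finset.card_univ, ← AlgHom.card L E ℂ, nsmul_eq_mul]
    · intro σ
      simp only [algHomEquivSigma, Equiv.coe_fn_mk, AlgHom.domRestrict, AlgHom.comp_apply,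
        IsScalarTower.coe_toAlgHom', hgen]
  have hmin : minpoly ℚ pb.gen = minpoly ℚ w := by
    rw [← hgen]
    exact (minpoly.algebraMap_eq (algebraMap L E).injective _).symm
  have h3 : ∑ τ : L →ₐ[ℚ] ℂ, g (τ pb.gen) =
      ∑ r : {r : ℂ // aeval r (minpoly ℚ w) = 0}, g r := by
    refine Fintype.sum_equiv (pb.liftEquiv.trans (Equiv.subtypeEquivRight fun r => by rw [hmin]))
      _ _ fun τ => rfl
  have h4 : (minpoly ℚ w).natDegree = finrank ℚ L := (adjoin.finrank hw).symm
  have h5 : (finrank ℚ L : ℝ) * finrank L E = finrank ℚ E := by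
    exact_mod_cast Module.finrank_mul_finrank ℚ L E
  rw [h1, h2, h3, h4, ← mul_assoc, h5]

/-- at least `ρ [ℚ(β) : ℚ]` of the conjugates of `β` over `ℚ` are real -/
def ManyReal (β : ℂ) (ρ : ℝ) : Prop :=
  IsAlgebraic ℚ β ∧ ρ * (minpoly ℚ β).natDegree ≤
    ({z : ℂ | aeval z (minpoly ℚ β) = 0 ∧ z.im = 0}.ncard : ℕ)

/-- a positive proportion of the embeddings is real at every conjugate -/
lemma real_count {E : Type} [Field E] [NumberField E] (w : E) {β : ℂ} {ρ : ℝ}
    (hβ : ManyReal β ρ) (hw : minpoly ℚ w = minpoly ℚ β) :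
    ρ * finrank ℚ E ≤ ∑ σ : E →+* ℂ, if (σ w).im = 0 then (1 : ℝ) else 0 := by
  classical
  have hwi : IsIntegral ℚ w := Algebra.IsIntegral.isIntegral w
  have hne : minpoly ℚ w ≠ 0 := minpoly.ne_zero hwi
  have hset : {r : ℂ | aeval r (minpoly ℚ w) = 0} = (minpoly ℚ w).rootSet ℂ := by
    ext r
    rw [mem_rootSet]
    exact ⟨fun h => ⟨hne, h⟩, fun h => h.2⟩
  have hfin : {r : ℂ | aeval r (minpoly ℚ w) = 0}.Finite := by
    rw [hset]
    exact Set.toFinite _
  have : Finite {r : ℂ // aeval r (minpoly ℚ w) = 0} := hfin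
  have : Fintype {r : ℂ // aeval r (minpoly ℚ w) = 0} := Fintype.ofFinite _
  have h1 := fiber_sum E w fun r => if r.im = 0 then (1 : ℝ) else 0
  have h2 : ∑ r : {r : ℂ // aeval r (minpoly ℚ w) = 0}, (if (r : ℂ).im = 0 then (1 : ℝ) else 0) =
      ({z : ℂ | aeval z (minpoly ℚ β) = 0 ∧ z.im = 0}.ncard : ℕ) := by
    rw [← Finset.sum_filter, Finset.sum_const, nsmul_eq_mul, mul_one]
    have h3 : {z : ℂ | aeval z (minpoly ℚ β) = 0 ∧ z.im = 0} =
        ((Finset.map (Function.Embedding.subtype _) (Finset.filter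
          (fun r : {r : ℂ // aeval r (minpoly ℚ w) = 0} => (r : ℂ).im = 0) Finset.univ) :
          Finset ℂ) : Set ℂ) := by
      ext z
      simp only [Set.mem_ofPred_eq, coe_map, Function.Embedding.subtype_apply, Set.mem_image,
        coe_filter, mem_univ, true_and, hw, Subtype.exists, exists_and_left, exists_prop,
        exists_eq_right_right]
      exact and_comm
    rw [h3, Set.ncard_coe_finset, card_map]
  rw [h2] at h1
  have hd : (0 : ℝ) < (minpoly ℚ w).natDegree := by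
    exact_mod_cast minpoly.natDegree_pos hwi
  have h4 := hβ.2
  rw [← hw] at h4
  have h5 : ((minpoly ℚ w).natDegree : ℝ) * (ρ * finrank ℚ E) ≤
      (minpoly ℚ w).natDegree * ∑ σ : E →+* ℂ, if (σ w).im = 0 then (1 : ℝ) else 0 := by
    rw [h1]
    calc ((minpoly ℚ w).natDegree : ℝ) * (ρ * finrank ℚ E) =
        finrank ℚ E * (ρ * (minpoly ℚ w).natDegree) := by ring
      _ ≤ _ := by
        rw [hw] at h4 ⊢
        gcongr
  exact le_of_mul_le_mul_left h5 hd

theorem affine_real (F : IntermediateField ℚ ℂ) (a b β : ℂ) (ha : a ∈ F) (hb : b ∈ F)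
    (ha0 : a ≠ 0) {ρ : ℝ} (hρ : 0 < ρ) (hρ1 : ρ ≤ 1) (hβ : ManyReal β ρ)
    (hα : IsAlgebraic ℚ (a * β + b)) (h : ℝ) (hh : IsHeight (a * β + b) h)
    (hD : 2 ≤ (minpoly F (a * β + b)).natDegree) :
    ρ ^ 3 / 130000 - 1 / 3 * err (minpoly F (a * β + b)).natDegree ≤ h := by
  classical
  set α : ℂ := a * β + b with hαdef
  have hnfα := nf hα
  have hnfβ := nf hβ.1
  let E : IntermediateField ℚ ℂ := NC α ⊔ NC β
  have hfdE : FiniteDimensional ℚ E := IntermediateField.finiteDimensional_sup _ _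
  have hnfE : NumberField E := ⟨⟩
  have hfin := finite_conj (F := F) hα
  have : Fintype (Conj F α) := Fintype.ofFinite _
  have hc : Fintype.card (Conj F α) = (minpoly F α).natDegree := by
    rw [← Nat.card_eq_fintype_card, card_conj hα]
  -- `α` is not zero
  have h0 : α ≠ 0 := by
    intro h0
    rw [h0] at hD
    have h1 : minpoly F (0 : ℂ) = X := minpoly.zero F ℂ
    rw [h1, natDegree_X] at hD
    omega
  have hαE : ∀ z : Conj F α, ((z.1 : NC α) : ℂ) ∈ E := fun z =>
    (le_sup_left : NC α ≤ E) z.1.2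
  have hβroot : ∀ z : Conj F α, aeval ((((z.1 : NC α) : ℂ) - b) / a) (minpoly F β) = 0 := fun z =>
    conj_affine ha hb ha0 z.2
  have hβE : ∀ z : Conj F α, (((z.1 : NC α) : ℂ) - b) / a ∈ E := fun z =>
    (le_sup_right : NC β ≤ E) (mem_NC hβ.1 (hβroot z))
  let y : Conj F α → E := fun z => ⟨((z.1 : NC α) : ℂ), hαE z⟩
  let w : Conj F α → E := fun z => ⟨(((z.1 : NC α) : ℂ) - b) / a, hβE z⟩
  -- two distinct conjugates
  obtain ⟨z₀, z₁, h01⟩ := Fintype.exists_pair_of_one_lt_card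
    (show 1 < Fintype.card (Conj F α) by rw [hc]; omega)
  have hz01 : ((z₀.1 : NC α) : ℂ) ≠ ((z₁.1 : NC α) : ℂ) := fun h =>
    h01 (Subtype.ext (Subtype.ext h))
  have haE : a ∈ E := by
    have h1 : a = (((z₁.1 : NC α) : ℂ) - ((z₀.1 : NC α) : ℂ)) /
        ((((z₁.1 : NC α) : ℂ) - b) / a - (((z₀.1 : NC α) : ℂ) - b) / a) := by
      have h2 : ((z₁.1 : NC α) : ℂ) - ((z₀.1 : NC α) : ℂ) ≠ 0 := sub_ne_zero.2 hz01.symm
      rw [← sub_div, sub_sub_sub_cancel_right, div_div_cancel₀ h2]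
    rw [h1]
    exact div_mem (sub_mem (hαE z₁) (hαE z₀)) (sub_mem (hβE z₁) (hβE z₀))
  have hbE : b ∈ E := by
    have h1 : b = ((z₀.1 : NC α) : ℂ) - a * ((((z₀.1 : NC α) : ℂ) - b) / a) := by
      rw [mul_div_cancel₀ _ ha0]
      ring
    rw [h1]
    exact sub_mem (hαE z₀) (mul_mem haE (hβE z₀))
  let a' : E := ⟨a, haE⟩
  let b' : E := ⟨b, hbE⟩
  have ha' : a' ≠ 0 := fun h => ha0 (congrArg Subtype.val h)
  have hyw : ∀ z, y z = a' * w z + b' := by
    intro z
    apply Subtype.ext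
    show ((z.1 : NC α) : ℂ) = a * ((((z.1 : NC α) : ℂ) - b) / a) + b
    rw [mul_div_cancel₀ _ ha0]
    ring
  have hwmin : ∀ z, minpoly ℚ (w z) = minpoly ℚ β := by
    intro z
    have e1 : minpoly ℚ (w z) = minpoly ℚ ((((z.1 : NC α) : ℂ) - b) / a) :=
      (minpoly.algebraMap_eq (algebraMap E ℂ).injective (w z)).symm
    rw [e1]
    exact (minpoly.eq_of_irreducible_of_monic (minpoly.irreducible hβ.1.isIntegral)
      (root_minpoly (hβroot z)) (minpoly.monic hβ.1.isIntegral)).symm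
  obtain ⟨f, hf, hfα, rfl⟩ := hh
  have hy0 : ∀ z, y z ≠ 0 := by
    intro z h
    have h1 : ((y z : E) : ℂ) = 0 := by
      rw [h]
      rfl
    exact conj_ne_zero hα h0 z (Subtype.ext h1)
  have hyi : Function.Injective y := by
    intro z z' h
    have h1 : ((y z : E) : ℂ) = ((y z' : E) : ℂ) := by rw [h]
    exact Subtype.ext (Subtype.ext h1)
  have hmain := lines y hy0 hyi
    (fun z => root_height (F := F) E (y z) z.2 f hf hfα) (by rw [hc]; exact hD) hρ hρ1
    (fun σ => univ.filter fun z => (σ (w z)).im = 0)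
    (by
      intro σ
      have hσa : σ a' ≠ 0 := (map_ne_zero_iff σ σ.injective).2 ha'
      have hn : (0 : ℝ) < ‖σ a'‖ := norm_pos_iff.2 hσa
      have hn' : ((‖σ a'‖ : ℝ) : ℂ) ≠ 0 := by exact_mod_cast hn.ne'
      refine ⟨Complex.I * σ a' / ‖σ a'‖, ?_, (σ b' * (starRingEnd ℂ)
        (Complex.I * σ a' / ‖σ a'‖)).re, fun z hz => ?_⟩
      · rw [norm_div, norm_mul, Complex.norm_I, one_mul, Complex.norm_real, norm_norm]
        exact div_self hn.ne'
      · rw [mem_filter] at hz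
        have hre : (((σ (w z)).re : ℝ) : ℂ) = σ (w z) :=
          Complex.conj_eq_iff_re.1 (Complex.conj_eq_iff_im.2 hz.2)
        have horth : (σ a' * (starRingEnd ℂ) (Complex.I * σ a' / ‖σ a'‖)).re = 0 := by
          have h1 : σ a' * (starRingEnd ℂ) (Complex.I * σ a' / ‖σ a'‖) =
              ((‖σ a'‖ : ℝ) : ℂ) * (-Complex.I) := by
            rw [map_div₀, map_mul, Complex.conj_I, Complex.conj_ofReal]
            have h2 : σ a' * (starRingEnd ℂ) (σ a') = ((‖σ a'‖ : ℝ) : ℂ) ^ 2 := by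
              rw [Complex.mul_conj, Complex.normSq_eq_norm_sq]
              push_cast
              rfl
            calc σ a' * (-Complex.I * (starRingEnd ℂ) (σ a') / (‖σ a'‖ : ℂ)) =
                (σ a' * (starRingEnd ℂ) (σ a')) * (-Complex.I) / (‖σ a'‖ : ℂ) := by ring
              _ = _ := by
                rw [h2]
                field_simp
          rw [h1]
          simp
        rw [hyw, map_add, map_mul, add_mul, Complex.add_re]
        have h3 : σ a' * σ (w z) * (starRingEnd ℂ) (Complex.I * σ a' / ‖σ a'‖) =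
            (((σ (w z)).re : ℝ) : ℂ) * (σ a' * (starRingEnd ℂ) (Complex.I * σ a' / ‖σ a'‖)) := by
          rw [hre]
          ring
        rw [h3, Complex.re_ofReal_mul, horth, mul_zero, zero_add])
    (by
      have h1 : ∀ σ : E →+* ℂ, (((univ : Finset (Conj F α)).filter
          fun z => (σ (w z)).im = 0).card : ℝ) =
          ∑ z : Conj F α, if (σ (w z)).im = 0 then (1 : ℝ) else 0 := by
        intro σ
        rw [← Finset.sum_filter, Finset.sum_const, nsmul_eq_mul, mul_one]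
      rw [Finset.sum_congr rfl fun σ _ => h1 σ, Finset.sum_comm]
      have h2 := Finset.sum_le_sum fun z (_ : z ∈ (univ : Finset (Conj F α))) =>
        real_count (w z) hβ (hwmin z)
      rw [Finset.sum_const, Finset.card_univ, nsmul_eq_mul] at h2
      refine le_trans (le_of_eq ?_) h2
      ring)
  rw [hc] at hmain
  exact hmain

end Pool.Agent.W5h24.RE
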