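import Pool.Agent.W5h24.RE.T

set_option autoImplicit false

/-!
# Equidistribution with test functions, continued
-/

namespace Pool.Agent.W5h24.RE

open Polynomial IntermediateField Filter Topology Real

/-- the period -/
local instance : Fact (0 < 2 * π) := ⟨Real.two_pi_pos⟩

/-- the function on the plane of a function on the circle -/
noncomputable def ev (f : C(AddCircle (2 * π), ℂ)) (z : ℂ) : ℂ :=
  f ((Complex.arg z : ℝ) : AddCircle (2 * π))

/-- the mean value over the circle -/
noncomputable def mv (f : C(AddCircle (2 * π), ℂ)) : ℂ :=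
  (2 * π)⁻¹ • ∫ θ in (0 : ℝ)..2 * π, f (θ : AddCircle (2 * π))

lemma cont (f : C(AddCircle (2 * π), ℂ)) : Continuous fun θ : ℝ => f (θ : AddCircle (2 * π)) :=
  f.continuous.comp (AddCircle.continuous_mk' _)

lemma mv_add (f g : C(AddCircle (2 * π), ℂ)) : mv (f + g) = mv f + mv g := by
  unfold mv
  rw [← smul_add, ← intervalIntegral.integral_add ((cont f).intervalIntegrable _ _)
    ((cont g).intervalIntegrable _ _)]
  rfl

lemma mv_smul (c : ℂ) (f : C(AddCircle (2 * π), ℂ)) : mv (c • f) = c * mv f := by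
  unfold mv
  have h1 : ∀ θ : ℝ, (c • f) (θ : AddCircle (2 * π)) = c * f (θ : AddCircle (2 * π)) :=
    fun θ => rfl
  simp only [h1]
  rw [intervalIntegral.integral_const_mul, mul_smul_comm]

lemma mv_sub_le (f g : C(AddCircle (2 * π), ℂ)) : ‖mv f - mv g‖ ≤ ‖f - g‖ := by
  unfold mv
  rw [← smul_sub, ← intervalIntegral.integral_sub ((cont f).intervalIntegrable _ _)
    ((cont g).intervalIntegrable _ _), norm_smul]
  have h1 : ‖∫ θ in (0 : ℝ)..2 * π, (f (θ : AddCircle (2 * π)) - g (θ : AddCircle (2 * π)))‖ ≤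
      ‖f - g‖ * |2 * π - 0| := by
    apply intervalIntegral.norm_integral_le_of_norm_le_const
    intro θ _
    exact (f - g).norm_coe_le_norm (θ : AddCircle (2 * π))
  rw [sub_zero, abs_of_pos Real.two_pi_pos] at h1
  rw [norm_inv, Real.norm_of_nonneg Real.two_pi_pos.le, inv_mul_le_iff₀ Real.two_pi_pos]
  linarith

lemma mv_fourier (n : ℤ) (hn : n ≠ 0) : mv (fourier n) = 0 := by
  unfold mv
  have h1 : ∀ θ : ℝ, (fourier n) (θ : AddCircle (2 * π)) =
      Complex.exp ((n * Complex.I) * θ) := by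
    intro θ
    rw [fourier_coe_apply]
    congr 1
    have : (((2 * π : ℝ)) : ℂ) ≠ 0 := by exact_mod_cast Real.two_pi_pos.ne'
    have h2 : (π : ℂ) ≠ 0 := by exact_mod_cast Real.pi_ne_zero
    push_cast
    field_simp
  simp only [h1]
  have hc : (n : ℂ) * Complex.I ≠ 0 := mul_ne_zero (by exact_mod_cast hn) Complex.I_ne_zero
  rw [integral_exp_mul_complex hc]
  have h2 : Complex.exp ((n * Complex.I) * ((2 * π : ℝ) : ℂ)) = 1 := by
    rw [← Complex.exp_int_mul_two_pi_mul_I n]
    congr 1
    push_cast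
    ring
  rw [h2]
  simp

lemma mv_one : mv (fourier 0) = 1 := by
  unfold mv
  have h1 : ∀ θ : ℝ, (fourier 0) (θ : AddCircle (2 * π)) = 1 := fun θ => fourier_zero
  simp only [h1]
  rw [intervalIntegral.integral_const, sub_zero, smul_smul, inv_mul_cancel₀ Real.two_pi_pos.ne',
    one_smul]

lemma exp_arg {z : ℂ} (hz : z ≠ 0) : Complex.exp (Complex.arg z * Complex.I) = z / ‖z‖ := by
  have h1 := Complex.norm_mul_exp_arg_mul_I z
  have h2 : (‖z‖ : ℂ) ≠ 0 := by exact_mod_cast norm_ne_zero_iff.2 hz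
  rw [eq_div_iff h2, mul_comm]
  exact h1

lemma ev_fourier (n : ℕ) {z : ℂ} (hz : z ≠ 0) : ev (fourier n) z = (z / ‖z‖) ^ n := by
  unfold ev
  rw [fourier_coe_apply, ← exp_arg hz, ← Complex.exp_nat_mul]
  congr 1
  have h2 : (π : ℂ) ≠ 0 := by exact_mod_cast Real.pi_ne_zero
  push_cast
  field_simp

lemma ev_fourier_neg (n : ℤ) (z : ℂ) : ev (fourier (-n)) z = (starRingEnd ℂ) (ev (fourier n) z) := by
  unfold ev
  exact fourier_neg

/-- the test functions for which the theorem holds -/
noncomputable def good : Submodule ℂ C(AddCircle (2 * π), ℂ) where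
  carrier := {f | Tendsto (Phi (ev f) (mv f)) LF (𝓝 0)}
  zero_mem' := by
    have h1 : ∀ d : Dat, Phi (ev 0) (mv 0) d = 0 := by
      intro d
      have h2 := Phi_mul 0 (ev 0) (mv 0) d
      have h3 : (fun z => (0 : ℂ) * ev 0 z) = ev 0 := by
        funext z
        rw [zero_mul]
        rfl
      have h4 : (0 : ℂ) * mv 0 = mv 0 := by
        have := mv_smul 0 0
        rw [smul_zero] at this
        exact this.symm
      rw [h3, h4, norm_zero, zero_mul] at h2
      exact h2
    show Tendsto _ LF (𝓝 0)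
    simp only [funext h1]
    exact tendsto_const_nhds
  add_mem' := by
    intro f g hf hg
    have h1 := Tendsto.add hf hg
    rw [add_zero] at h1
    refine squeeze_zero (fun d => Phi_nonneg _ _ _) (fun d => ?_) h1
    rw [mv_add]
    exact Phi_add (ev f) (ev g) (mv f) (mv g) d
  smul_mem' := by
    intro c f hf
    have h1 : Tendsto (fun d => ‖c‖ * Phi (ev f) (mv f) d) LF (𝓝 (‖c‖ * 0)) :=
      Tendsto.const_mul _ hf
    rw [mul_zero] at h1
    refine h1.congr fun d => ?_
    rw [mv_smul]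
    exact (Phi_mul c (ev f) (mv f) d).symm

lemma fourier_good (n : ℤ) : fourier n ∈ good := by
  have hpos : ∀ k : ℕ, 1 ≤ k → (fourier (k : ℤ) : C(AddCircle (2 * π), ℂ)) ∈ good := by
    intro k hk
    show Tendsto _ LF (𝓝 0)
    rw [mv_fourier _ (by exact_mod_cast (by omega : k ≠ 0))]
    refine (tendsto_pow k hk).congr fun d => ?_
    exact (Phi_congr (fun z hz => ev_fourier k hz) 0 d).symm
  rcases lt_trichotomy n 0 with h | h | h
  · obtain ⟨k, hk⟩ : ∃ k : ℕ, n = -(k : ℤ) := ⟨n.natAbs, by omega⟩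
    have h1 := hpos k (by omega)
    have h2 : Tendsto (Phi (ev (fourier (k : ℤ))) (mv (fourier (k : ℤ)))) LF (𝓝 0) := h1
    rw [mv_fourier _ (by omega)] at h2
    show Tendsto _ LF (𝓝 0)
    rw [mv_fourier _ h.ne]
    refine h2.congr fun d => ?_
    rw [hk]
    have h3 := Phi_conj (ev (fourier (k : ℤ))) 0 d
    rw [map_zero] at h3
    rw [← h3]
    congr 1
    funext z
    exact (ev_fourier_neg k z).symm
  · rw [h]
    show Tendsto _ LF (𝓝 0)
    rw [mv_one]
    have h1 : ∀ d, Phi (ev (fourier 0)) 1 d = 0 := by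
      intro d
      rw [← Phi_zero_one d]
      congr 1
      funext z
      exact fourier_zero
    simp only [funext h1]
    exact tendsto_const_nhds
  · have h1 := hpos n.toNat (by omega)
    rwa [Int.toNat_of_nonneg h.le] at h1

lemma all_good (f : C(AddCircle (2 * π), ℂ)) : Tendsto (Phi (ev f) (mv f)) LF (𝓝 0) := by
  have h1 : Submodule.span ℂ (Set.range (fourier (T := 2 * π))) ≤ good := by
    rw [Submodule.span_le]
    rintro _ ⟨n, rfl⟩
    exact fourier_good n
  have h2 : f ∈ (Submodule.span ℂ (Set.range (fourier (T := 2 * π)))).topologicalClosure := by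
    rw [span_fourier_closure_eq_top]
    exact Submodule.mem_top
  have h3 : f ∈ closure ((Submodule.span ℂ (Set.range (fourier (T := 2 * π)))) :
      Set C(AddCircle (2 * π), ℂ)) := h2
  rw [Metric.tendsto_nhds]
  intro ε hε
  obtain ⟨g, hg, hfg⟩ := Metric.mem_closure_iff.1 h3 (ε / 4) (by positivity)
  have hg' : Tendsto (Phi (ev g) (mv g)) LF (𝓝 0) := h1 hg
  have h4 : ‖f - g‖ < ε / 4 := by rwa [← dist_eq_norm]
  filter_upwards [Metric.tendsto_nhds.1 hg' (ε / 4) (by positivity)] with d hd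
  rw [dist_zero_right, Real.norm_of_nonneg (Phi_nonneg _ _ _)] at hd ⊢
  have h5 := Phi_close (g := ev f) (g' := ev g) (w := fun _ => ‖f - g‖)
    (fun z _ => (f - g).norm_coe_le_norm _) (mv f) (mv g) d
  simp only [mean_const] at h5
  have h6 := mv_sub_le f g
  linarith

/-- **Equidistribution.** -/
theorem equi (g : ℂ → ℂ) (hg : Continuous g) (M : ℝ) (hM : ∀ z, ‖g z‖ ≤ M) :
    Tendsto (Phi g (Real.circleAverage g 0 1)) LF (𝓝 0) := by
  let f : C(AddCircle (2 * π), ℂ) := ⟨fun x => g (AddCircle.toCircle x : ℂ),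
    hg.comp (continuous_subtype_val.comp AddCircle.continuous_toCircle)⟩
  have hto : ∀ θ : ℝ, ((AddCircle.toCircle (θ : AddCircle (2 * π)) : Circle) : ℂ) =
      Complex.exp (θ * Complex.I) := by
    intro θ
    rw [AddCircle.toCircle_apply_mk, Circle.coe_exp]
    congr 2
    rw [div_self Real.two_pi_pos.ne', one_mul]
  have hev : ∀ z : ℂ, z ≠ 0 → ev f z = g (z / ‖z‖) := by
    intro z hz
    show g _ = g _
    rw [hto, exp_arg hz]
  have hmv : mv f = Real.circleAverage g 0 1 := by
    unfold mv Real.circleAverage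
    congr 2
    funext θ
    show g _ = g _
    rw [hto, circleMap]
    simp
  have hM0 : 0 ≤ M := (norm_nonneg _).trans (hM 0)
  rw [← hmv, Metric.tendsto_nhds]
  intro ε hε
  -- uniform continuity near the circle
  have hunif : ∀ᶠ s : ℝ in 𝓝 0, ∀ w ∈ Metric.sphere (0 : ℂ) 1,
      ‖g (Real.exp s * w) - g w‖ < ε / 4 := by
    refine (isCompact_sphere (0 : ℂ) 1).eventually_forall_of_forall_eventually fun w _ => ?_
    have hc : Continuous fun p : ℝ × ℂ => ‖g (Real.exp p.1 * p.2) - g p.2‖ := by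
      refine ((hg.comp ?_).sub (hg.comp continuous_snd)).norm
      exact (Complex.continuous_ofReal.comp (Real.continuous_exp.comp continuous_fst)).mul
        continuous_snd
    have h1 := hc.tendsto ((0 : ℝ), w)
    simp only [Real.exp_zero, Complex.ofReal_one, one_mul, sub_self, norm_zero] at h1
    exact h1.eventually (gt_mem_nhds (by positivity))
  obtain ⟨δ, hδ, hδ'⟩ := Metric.eventually_nhds_iff.1 hunif
  set C : ℝ := 2 * M / δ with hC
  have hC0 : 0 ≤ C := by positivity
  have hw : ∀ z : ℂ, z ≠ 0 → ‖g z - ev f z‖ ≤ ε / 4 + C * |Real.log ‖z‖| := by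
    intro z hz
    rw [hev z hz]
    have hzn : 0 < ‖z‖ := norm_pos_iff.2 hz
    by_cases hs : |Real.log ‖z‖| < δ
    · have h1 := hδ' (y := Real.log ‖z‖) (by rwa [dist_zero_right, Real.norm_eq_abs]) (z / ‖z‖)
        (by rw [mem_sphere_zero_iff_norm, norm_div, Complex.norm_real, norm_norm,
          div_self hzn.ne'])
      rw [Real.exp_log hzn, mul_div_cancel₀] at h1
      · have : 0 ≤ C * |Real.log ‖z‖| := by positivity
        linarith
      · exact_mod_cast hzn.ne'
    · have h1 : ‖g z - g (z / ‖z‖)‖ ≤ 2 * M := by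
        refine (norm_sub_le _ _).trans ?_
        linarith [hM z, hM (z / ‖z‖)]
      have h2 : 2 * M ≤ C * |Real.log ‖z‖| := by
        rw [hC, div_mul_eq_mul_div, le_div_iff₀ hδ]
        exact mul_le_mul_of_nonneg_left (not_lt.1 hs) (by positivity)
      linarith
  have h1 : Tendsto (fun d : Dat => C * (2 * d.h)) LF (𝓝 (C * (2 * 0))) :=
    (tendsto_h.const_mul 2).const_mul C
  rw [mul_zero, mul_zero] at h1
  filter_upwards [Metric.tendsto_nhds.1 (all_good f) (ε / 4) (by positivity),
    Metric.tendsto_nhds.1 h1 (ε / 4) (by positivity)] with d hd hd2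
  rw [dist_zero_right, Real.norm_of_nonneg (Phi_nonneg _ _ _)] at hd ⊢
  rw [dist_zero_right, Real.norm_eq_abs] at hd2
  have h5 := Phi_close (g := g) (g' := ev f) hw (mv f) (mv f) d
  rw [sub_self, norm_zero, add_zero] at h5
  have h6 : mean (fun σ : NC d.α →+* ℂ => mean (fun z : Conj d.F d.α =>
      ε / 4 + C * |Real.log ‖σ z.1‖|)) ≤ ε / 4 + C * (2 * d.h) := by
    have e1 : ∀ σ : NC d.α →+* ℂ, mean (fun z : Conj d.F d.α =>
        ε / 4 + C * |Real.log ‖σ z.1‖|) =
        ε / 4 + C * mean (fun z : Conj d.F d.α => |Real.log ‖σ z.1‖|) := by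
      intro σ
      rw [mean_add, mean_const, mean_mul]
    simp only [e1]
    rw [mean_add, mean_const, mean_mul]
    have := mean_log d.F d.α d.h0 d.alg d.h d.hh
    gcongr
  have h7 := le_abs_self (C * (2 * d.h))
  linarith

end Pool.Agent.W5h24.RE
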