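import Pool.Agent.W5h24.RE.U3
import Pool.Agent.W5h24.RE.E2

set_option autoImplicit false

/-!
# Quotients of linear combinations of numbers of bounded local types
-/

namespace Pool.Agent.W5h24.RE

open NumberField Height Module Polynomial Finset IntermediateField

lemma isIntegral_of_mem {L : IntermediateField ℚ ℂ} [FiniteDimensional ℚ L] {x : ℂ} (hx : x ∈ L) :
    IsIntegral ℚ x :=
  (Algebra.IsIntegral.isIntegral (R := ℚ) (⟨x, hx⟩ : L)).map L.val

lemma exists_conj_vector {F L : IntermediateField ℚ ℂ} [FiniteDimensional ℚ L] [Normal ℚ L]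
    {n : ℕ} {a b γ : Fin n → ℂ} (ha : ∀ k, a k ∈ F) (hb : ∀ k, b k ∈ F) (hγ : ∀ k, γ k ∈ L)
    (hden : ∑ k, b k * γ k ≠ 0) {α : ℂ} (hα : α * ∑ k, b k * γ k = ∑ k, a k * γ k) {z : ℂ}
    (hz : aeval z (minpoly F α) = 0) :
    ∃ γ' : Fin n → ℂ, (∀ k, γ' k ∈ L) ∧ ∑ k, b k * γ' k ≠ 0 ∧
      z * ∑ k, b k * γ' k = ∑ k, a k * γ' k := by
  set S : Set ℂ := Set.range γ with hS
  let N : IntermediateField F ℂ := adjoin F S
  have hgN : ∀ k, γ k ∈ N := fun k => subset_adjoin F S ⟨k, rfl⟩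
  have hFN : ∀ x ∈ F, x ∈ N := fun x hx => N.algebraMap_mem ⟨x, hx⟩
  have hαN : α ∈ N := by
    have h1 : α = (∑ k, a k * γ k) / ∑ k, b k * γ k := by
      rw [eq_div_iff hden]
      exact hα
    rw [h1]
    exact div_mem (sum_mem fun k _ => mul_mem (hFN _ (ha k)) (hgN k))
      (sum_mem fun k _ => mul_mem (hFN _ (hb k)) (hgN k))
  obtain ⟨φ, hφ⟩ := exists_algHom_adjoin_of_splits_of_aeval (F := F) (K := ℂ) (S := S)
    (by
      rintro s ⟨k, rfl⟩
      exact ⟨(isIntegral_of_mem (hγ k)).tower_top, IsAlgClosed.splits _⟩) hαN hz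
  let g : Fin n → N := fun k => ⟨γ k, hgN k⟩
  have hcomb : ∀ c : Fin n → ℂ, ∀ hc : ∀ k, c k ∈ F,
      φ (∑ k, algebraMap F N ⟨c k, hc k⟩ * g k) = ∑ k, c k * φ (g k) := by
    intro c hc
    rw [map_sum]
    refine Finset.sum_congr rfl fun k _ => ?_
    rw [map_mul, φ.commutes]
    rfl
  have hcoe : ∀ c : Fin n → ℂ, ∀ hc : ∀ k, c k ∈ F,
      ((∑ k, algebraMap F N ⟨c k, hc k⟩ * g k : N) : ℂ) = ∑ k, c k * γ k := by
    intro c hc
    have h1 : ((∑ k, algebraMap F N ⟨c k, hc k⟩ * g k : N) : ℂ) =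
        N.val (∑ k, algebraMap F N ⟨c k, hc k⟩ * g k) := rfl
    rw [h1, map_sum]
    refine Finset.sum_congr rfl fun k _ => ?_
    rw [map_mul]
    rfl
  refine ⟨fun k => φ (g k), fun k => ?_, ?_, ?_⟩
  · -- membership in `L`
    have h1 : aeval (φ (g k)) (minpoly ℚ (γ k)) = 0 := by
      have h2 := aeval_algHom_apply (φ.restrictScalars ℚ) (g k) (minpoly ℚ (γ k))
      have h3 : aeval (g k) (minpoly ℚ (γ k)) = 0 := by
        apply (algebraMap N ℂ).injective
        rw [← aeval_algebraMap_apply, map_zero]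
        exact minpoly.aeval ℚ (γ k)
      rw [h3, map_zero] at h2
      exact h2
    have h2 : minpoly ℚ (γ k) = minpoly ℚ (⟨γ k, hγ k⟩ : L) :=
      minpoly.algebraMap_eq (algebraMap L ℂ).injective (⟨γ k, hγ k⟩ : L)
    have h3 : ((minpoly ℚ (γ k)).map (algebraMap ℚ L)).Splits := by
      rw [h2]
      exact Normal.splits inferInstance _
    have h4 := (IntermediateField.splits_iff_mem (IsAlgClosed.splits _)).1 h3
    exact h4 _ ((mem_rootSet_of_ne (minpoly.ne_zero (isIntegral_of_mem (hγ k)))).2 h1)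
  · rw [← hcomb b hb]
    refine (map_ne_zero_iff φ φ.injective).2 fun h => hden ?_
    rw [← hcoe b hb, h]
    rfl
  · rw [← hcomb b hb, ← hcomb a ha, ← hφ, ← map_mul]
    congr 1
    apply Subtype.ext
    have h1 : (((⟨α, hαN⟩ : N) * ∑ k, algebraMap F N ⟨b k, hb k⟩ * g k : N) : ℂ) =
        α * ((∑ k, algebraMap F N ⟨b k, hb k⟩ * g k : N) : ℂ) := rfl
    rw [h1, hcoe b hb, hcoe a ha]
    exact hα

theorem general (F L : IntermediateField ℚ ℂ) [FiniteDimensional ℚ L] [Normal ℚ L]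
    {n : ℕ} (a b γ : Fin n → ℂ) (ha : ∀ k, a k ∈ F) (hb : ∀ k, b k ∈ F) (hγ : ∀ k, γ k ∈ L)
    (hden : ∑ k, b k * γ k ≠ 0) (α : ℂ) (hαeq : α = (∑ k, a k * γ k) / ∑ k, b k * γ k)
    (S : Finset ℕ) (q e : ℕ → ℕ)
    (hS : ∀ p ∈ S, p.Prime ∧ 1 ≤ e p ∧
      ∀ P : Ideal (𝓞 L), P.IsMaximal → (p : 𝓞 L) ∈ P →
        Nat.card (𝓞 L ⧸ P) ≤ q p ∧ (p : 𝓞 L) ∉ P ^ (e p + 1))
    (hα : IsAlgebraic ℚ α) (h : ℝ) (hh : IsHeight α h) {D : ℕ}
    (hDdef : D = (minpoly F α).natDegree) :
    ∑ p ∈ S, Real.log p / (2 * e p) * ((D : ℝ) / (2 * q p ^ n) - 1) - Real.log D - 1 / 2 ≤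
      2 * (D - 1) * h ∧
    (n = 2 → ∑ p ∈ S, Real.log p / e p * ((D : ℝ) / (q p + 1) - 1) - Real.log D - 1 / 2 ≤
      2 * (D - 1) * h) := by
  classical
  have hh0 := height_nonneg α hα h hh
  have hD1 : 1 ≤ D := by
    rw [hDdef]
    exact minpoly.natDegree_pos hα.isIntegral.tower_top
  have hD1' : (1 : ℝ) ≤ D := by exact_mod_cast hD1
  rcases Nat.lt_or_ge D 2 with hD2 | hD2
  · have hDone : (D : ℝ) = 1 := by exact_mod_cast (by omega : D = 1)
    rw [hDone]
    have hlp : ∀ p : ℕ, ∀ e' : ℝ, 0 ≤ e' → 0 ≤ Real.log p / e' := fun p e' he' =>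
      div_nonneg (Real.log_natCast_nonneg _) he'
    constructor
    · have h1 : ∑ p ∈ S, Real.log p / (2 * e p) * ((1 : ℝ) / (2 * q p ^ n) - 1) ≤ 0 := by
        refine Finset.sum_nonpos fun p _ => ?_
        refine mul_nonpos_of_nonneg_of_nonpos (hlp p _ (by positivity)) ?_
        have h2 : (1 : ℝ) / (2 * q p ^ n) ≤ 1 := by
          rcases Nat.eq_zero_or_pos (q p ^ n) with h0 | h0
          · have h3 : ((q p : ℝ)) ^ n = 0 := by exact_mod_cast h0
            rw [h3]
            simp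
          · have h3 : (1 : ℝ) ≤ (q p : ℝ) ^ n := by exact_mod_cast h0
            rw [div_le_one (by positivity)]
            linarith
        linarith
      simp only [Real.log_one]
      linarith
    · intro _
      have h1 : ∑ p ∈ S, Real.log p / (e p) * ((1 : ℝ) / (q p + 1) - 1) ≤ 0 := by
        refine Finset.sum_nonpos fun p _ => ?_
        refine mul_nonpos_of_nonneg_of_nonpos (hlp p _ (by positivity)) ?_
        have h2 : (1 : ℝ) / (q p + 1) ≤ 1 := by
          rw [div_le_one (by positivity)]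
          have : (0 : ℝ) ≤ q p := Nat.cast_nonneg _
          linarith
        linarith
      simp only [Real.log_one]
      linarith
  have hnfα := nf hα
  have hnfL : NumberField L := ⟨⟩
  let E : IntermediateField ℚ ℂ := NC α ⊔ L
  have hfdE : FiniteDimensional ℚ E := IntermediateField.finiteDimensional_sup _ _
  have hnfE : NumberField E := ⟨⟩
  have hfin := finite_conj (F := F) hα
  have : Fintype (Conj F α) := Fintype.ofFinite _
  have hcard : Fintype.card (Conj F α) = D := by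
    rw [← Nat.card_eq_fintype_card, card_conj hα, hDdef]
  -- `α` is not zero
  have h0 : α ≠ 0 := by
    intro h0
    rw [h0] at hDdef
    have h1 : minpoly F (0 : ℂ) = X := minpoly.zero F ℂ
    rw [h1, natDegree_X] at hDdef
    omega
  let : Algebra L E := (inclusion (le_sup_right : L ≤ E)).toRingHom.toAlgebra
  have hmap : ∀ t : L, ((algebraMap L E t : E) : ℂ) = (t : ℂ) := fun t => rfl
  have hαE : ∀ z : Conj F α, ((z.1 : NC α) : ℂ) ∈ E := fun z =>
    (le_sup_left : NC α ≤ E) z.1.2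
  have hαeq' : α * ∑ k, b k * γ k = ∑ k, a k * γ k := by
    rw [hαeq, div_mul_cancel₀ _ hden]
  have hvec : ∀ z : Conj F α, ∃ γ' : Fin n → ℂ, (∀ k, γ' k ∈ L) ∧ ∑ k, b k * γ' k ≠ 0 ∧
      ((z.1 : NC α) : ℂ) * ∑ k, b k * γ' k = ∑ k, a k * γ' k := fun z =>
    exists_conj_vector ha hb hγ hden hαeq' z.2
  choose γ' hγL hγ0 hγrel using hvec
  let y : Conj F α → E := fun z => ⟨((z.1 : NC α) : ℂ), hαE z⟩
  let v : Conj F α → Fin n → L := fun z k => ⟨γ' z k, hγL z k⟩
  have hy0 : ∀ z, y z ≠ 0 := by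
    intro z h
    have h1 : ((y z : E) : ℂ) = 0 := by
      rw [h]
      rfl
    exact conj_ne_zero hα h0 z (Subtype.ext h1)
  have hyi : Function.Injective y := by
    intro z z' h
    have h1 : ((y z : E) : ℂ) = ((y z' : E) : ℂ) := by rw [h]
    exact Subtype.ext (Subtype.ext h1)
  -- a linear functional
  obtain ⟨Λ, hΛ⟩ := Module.exists_dual_forall_apply_ne_zero (K := E)
    (fun z : Conj F α => ∑ k, b k * γ' z k) hγ0
  have hΛE : ∀ (c : ℂ) (t : L), Λ (c * (t : ℂ)) = Λ c * algebraMap L E t := by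
    intro c t
    have h1 : c * (t : ℂ) = (algebraMap L E t : E) • c := by
      rw [mul_comm]
      rfl
    rw [h1, map_smul, smul_eq_mul, mul_comm]
  have hΛsum : ∀ (c : Fin n → ℂ) (z : Conj F α), Λ (∑ k, c k * γ' z k) =
      ∑ k, Λ (c k) * algebraMap L E (v z k) := by
    intro c z
    rw [map_sum]
    exact Finset.sum_congr rfl fun k _ => hΛE (c k) (v z k)
  set m : Conj F α → E := fun z => Λ (∑ k, b k * γ' z k) with hm
  have hm0 : ∀ z, m z ≠ 0 := hΛ
  have hrelA : ∀ z, ∑ k, Λ (a k) * algebraMap L E (v z k) = y z * m z := by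
    intro z
    rw [← hΛsum, ← hγrel]
    have h1 : ((z.1 : NC α) : ℂ) * ∑ k, b k * γ' z k = (y z : E) • ∑ k, b k * γ' z k := rfl
    rw [h1, map_smul, smul_eq_mul]
  have hrelB : ∀ z, ∑ k, Λ (b k) * algebraMap L E (v z k) = m z := fun z => (hΛsum b z).symm
  have hwd := wd_ne y hyi m hm0
  have hcard2 : 2 ≤ Fintype.card (Conj F α) := by rw [hcard]; exact hD2
  obtain ⟨f, hf, hfα, rfl⟩ := hh
  have hDr : (2 : ℝ) ≤ D := by exact_mod_cast hD2
  have hD0 : (D : ℝ) ≠ 0 := by positivity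
  constructor
  · have hmain := global_sum (E := E) y hy0 hyi hcard2 S
      (fun p => ((Fintype.card (Conj F α) : ℝ) ^ 2 / (2 * q p ^ n) -
        Fintype.card (Conj F α)) / (2 * e p)) (fun p hp => (hS p hp).1) (by
        intro w p hp hlt
        obtain ⟨hpp, he, hloc⟩ := hS p hp
        have he' : (0 : ℝ) < 2 * e p := by
          have : (1 : ℝ) ≤ e p := by exact_mod_cast he
          linarith
        have h1 := local_gen (M := L) (E := E) hloc hpp.ne_zero w hlt v (fun k => Λ (a k))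
          (fun k => Λ (b k)) (fun z => (y z * m z, m z)) (fun z => by rw [hrelA, hrelB])
          (fun z h => hm0 z (congrArg Prod.snd h)) hwd
        rw [En_eq w y hyi m hm0] at h1
        rw [← mul_div_assoc, div_le_iff₀ he']
        linarith) (fun z => root_height (F := F) E (y z) z.2 f hf hfα)
    rw [hcard] at hmain
    have h2 : ∀ p ∈ S, Real.log p * (((D : ℝ) ^ 2 / (2 * q p ^ n) - D) / (2 * e p) / D) =
        Real.log p / (2 * e p) * ((D : ℝ) / (2 * q p ^ n) - 1) := by
      intro p hp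
      have he' : (e p : ℝ) ≠ 0 := by
        have : (1 : ℝ) ≤ e p := by exact_mod_cast (hS p hp).2.1
        positivity
      have h3 : ((D : ℝ) ^ 2 / (2 * q p ^ n) - D) = D * ((D : ℝ) / (2 * q p ^ n) - 1) := by ring
      rw [h3]
      field_simp
    rw [Finset.sum_congr rfl h2] at hmain
    exact hmain
  · rintro rfl
    have hmain := global_sum (E := E) y hy0 hyi hcard2 S
      (fun p => ((Fintype.card (Conj F α) : ℝ) ^ 2 / (q p + 1) -
        Fintype.card (Conj F α)) / (e p)) (fun p hp => (hS p hp).1) (by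
        intro w p hp hlt
        obtain ⟨hpp, he, hloc⟩ := hS p hp
        have he' : (0 : ℝ) < e p := by exact_mod_cast he
        have hact : (fun z => act (Λ (a 0)) (Λ (a 1)) (Λ (b 0)) (Λ (b 1))
            (algebraMap L E (v z 0), algebraMap L E (v z 1))) = fun z => (y z * m z, m z) := by
          funext z
          simp only [act]
          rw [← hrelA z, ← hrelB z, Fin.sum_univ_two, Fin.sum_univ_two]
        have hwd' : ∀ i j, i ≠ j → (Λ (a 0) * Λ (b 1) - Λ (a 1) * Λ (b 0)) *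
            wd (algebraMap L E (v i 0), algebraMap L E (v i 1))
              (algebraMap L E (v j 0), algebraMap L E (v j 1)) ≠ 0 := by
          intro i j hij
          rw [← wd_act]
          have h1 := congrFun hact i
          have h2 := congrFun hact j
          rw [h1, h2]
          exact hwd i j hij
        obtain ⟨z₀, z₁, h01⟩ := Fintype.exists_pair_of_one_lt_card
          (show 1 < Fintype.card (Conj F α) by omega)
        have h1 := local_two (M := L) (E := E) hloc hpp.ne_zero he w hlt hcard2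
          (fun z => v z 0) (fun z => v z 1)
          (fun i j hij => right_ne_zero_of_mul (hwd' i j hij))
          (Λ (a 0)) (Λ (a 1)) (Λ (b 0)) (Λ (b 1)) (left_ne_zero_of_mul (hwd' z₀ z₁ h01))
        rw [hact, En_eq w y hyi m hm0] at h1
        rw [← mul_div_assoc, div_le_iff₀ he']
        linarith) (fun z => root_height (F := F) E (y z) z.2 f hf hfα)
    rw [hcard] at hmain
    have h2 : ∀ p ∈ S, Real.log p * (((D : ℝ) ^ 2 / (q p + 1) - D) / (e p) / D) =
        Real.log p / (e p) * ((D : ℝ) / (q p + 1) - 1) := by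
      intro p hp
      have he' : (e p : ℝ) ≠ 0 := by
        have : (1 : ℝ) ≤ e p := by exact_mod_cast (hS p hp).2.1
        positivity
      have h3 : ((D : ℝ) ^ 2 / (q p + 1) - D) = D * ((D : ℝ) / (q p + 1) - 1) := by ring
      rw [h3]
      field_simp
    rw [Finset.sum_congr rfl h2] at hmain
    exact hmain

end Pool.Agent.W5h24.RE
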