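import Pool.Agent.W5h24.RE.D
import Pool.Agent.Results.MP_f61260_nt.SmoothRootsPoly

set_option autoImplicit false

/-!
# The polynomial lower bound over the field of smooth roots, for complex numbers
-/

namespace Pool.Agent.W5h24.RE

open Polynomial IntermediateField
open Pool.Agent.H58P (Qb ht)
open Pool.Agent.Results.MP_f61260_nt.SmoothRootsPoly (InDivisionGroup smoothRootField)

/-- a positive power of `α` lies in `Γ` -/
def InDiv (Γ : Subgroup ℂˣ) (α : ℂ) : Prop :=
  ∃ n : ℕ, 0 < n ∧ ∃ g ∈ Γ, α ^ n = (g : ℂ)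

/-- the field generated over `K` by the roots of unity and the smooth roots of elements of `Γ` -/
noncomputable def smoothField (K : IntermediateField ℚ ℂ) (Γ : Subgroup ℂˣ) (P : Finset ℕ) :
    IntermediateField ℚ ℂ :=
  K ⊔ adjoin ℚ ({y : ℂ | ∃ n : ℕ, 0 < n ∧ y ^ n = 1} ∪
    {y : ℂ | ∃ n : ℕ, (0 < n ∧ ∀ q : ℕ, q.Prime → q ∣ n → q ∈ P) ∧ ∃ g ∈ Γ, y ^ n = (g : ℂ)})

lemma lift_surj (ι : Qb →ₐ[ℚ] ℂ) {x : ℂ} (hx : IsAlgebraic ℚ x) : ∃ y : Qb, ι y = x := by
  have h1 : x ∈ (minpoly ℚ x).rootSet ℂ :=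
    (mem_rootSet_of_ne (minpoly.ne_zero hx.isIntegral)).2 (minpoly.aeval _ _)
  rw [← Splits.image_rootSet (A := Qb) (IsAlgClosed.splits _) ι] at h1
  obtain ⟨y, _, hy⟩ := h1
  exact ⟨y, hy⟩

theorem smooth_lower (K : IntermediateField ℚ ℂ) [FiniteDimensional ℚ K] (Γ : Subgroup ℂˣ)
    (hFG : Γ.FG) (halg : ∀ g ∈ Γ, IsAlgebraic ℚ (g : ℂ)) (P : Finset ℕ)
    (hP : ∀ p ∈ P, p.Prime) :
    ∃ A : ℕ, 0 < A ∧ ∀ α : ℂ, α ≠ 0 → IsAlgebraic ℚ α → ¬ InDiv Γ α → ∀ h : ℝ, IsHeight α h →
      1 / ((A : ℝ) * ((minpoly (smoothField K Γ P) α).natDegree : ℝ) ^ A) ≤ h := by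
  classical
  let ι : Qb →ₐ[ℚ] ℂ := IsAlgClosed.lift
  have hιinj : Function.Injective ι := ι.injective
  -- the number field
  let K' : IntermediateField ℚ Qb := K.comap ι
  have hK' : FiniteDimensional ℚ K' := by
    let f : K' →ₗ[ℚ] K := LinearMap.codRestrict (Subalgebra.toSubmodule K.toSubalgebra)
      (ι.toLinearMap ∘ₗ K'.val.toLinearMap) fun x => x.2
    refine FiniteDimensional.of_injective f ?_
    intro x y hxy
    have h1 : ((f x : K) : ℂ) = ((f y : K) : ℂ) := by rw [hxy]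
    exact Subtype.ext (hιinj h1)
  -- the group
  let u : Qbˣ →* ℂˣ := Units.map (ι : Qb →* ℂ)
  have huinj : Function.Injective u := Units.map_injective hιinj
  let Γ' : Subgroup Qbˣ := Γ.comap u
  have hpre : ∀ g ∈ Γ, ∃ g' : Qbˣ, u g' = g := by
    intro g hg
    obtain ⟨y, hy⟩ := lift_surj ι (halg g hg)
    have hy0 : y ≠ 0 := by
      rintro rfl
      rw [map_zero] at hy
      exact g.ne_zero hy.symm
    exact ⟨Units.mk0 y hy0, Units.ext hy⟩
  have hrange : Γ ≤ u.range := fun g hg => by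
    obtain ⟨g', hg'⟩ := hpre g hg
    exact ⟨g', hg'⟩
  have hΓ' : Γ'.FG := by
    obtain ⟨S, hS⟩ := hFG
    have hSΓ : ∀ s ∈ S, s ∈ Γ := fun s hs => by
      rw [← hS]
      exact Subgroup.subset_closure hs
    refine ⟨S.preimage u huinj.injOn, ?_⟩
    apply Subgroup.map_injective huinj
    rw [MonoidHom.map_closure, Finset.coe_preimage, Set.image_preimage_eq_inter_range]
    have h1 : (S : Set ℂˣ) ∩ Set.range u = S := by
      refine Set.inter_eq_left.2 fun s hs => ?_
      obtain ⟨g', hg'⟩ := hpre s (hSΓ s hs)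
      exact ⟨g', hg'⟩
    rw [h1, hS]
    have h2 : Subgroup.map u Γ' = Γ := by
      rw [Subgroup.map_comap_eq, inf_eq_right.2 hrange]
    exact h2.symm
  obtain ⟨A, hA, hmain⟩ :=
    Pool.Agent.Results.MP_f61260_nt.SmoothRootsPoly.result K' hK' Γ' hΓ' P hP
  refine ⟨A, hA, fun α hα0 hα hnd h hh => ?_⟩
  obtain ⟨α', hα'⟩ := lift_surj ι hα
  have hα'0 : α' ≠ 0 := by
    rintro rfl
    rw [map_zero] at hα'
    exact hα0 hα'.symm
  have hnd' : ¬ InDivisionGroup Γ' α' := by
    rintro ⟨n, hn, g, hg, hgn⟩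
    refine hnd ⟨n, hn, u g, hg, ?_⟩
    rw [← hα', ← map_pow, hgn]
    rfl
  have h1 := hmain α' hα'0 hnd' 1 ⟨1, one_pos, 1, one_mem _, by simp⟩
  rw [div_one, Pool.Agent.H58P.absLogHeight₁_eq] at h1
  -- the height
  obtain ⟨f, hf, hfα, rfl⟩ := hh
  have hfd0 : 0 < f.natDegree := by
    rw [Nat.pos_iff_ne_zero]
    intro h
    rw [Polynomial.eq_C_of_natDegree_eq_zero h, aeval_C] at hfα
    have h1 : f.coeff 0 = 0 := by
      have : ((f.coeff 0 : ℤ) : ℂ) = 0 := by simpa using hfα
      exact_mod_cast this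
    apply hf.ne_zero
    rw [Polynomial.eq_C_of_natDegree_eq_zero h, h1, C_0]
  have hfα' : aeval α' f = 0 := by
    apply hιinj
    have h3 := aeval_algHom_apply (ι.restrictScalars ℤ) α' f
    rw [map_zero]
    rw [show (ι.restrictScalars ℤ) α' = α from hα', hfα] at h3
    exact h3.symm
  have h2 : ht α' ≤ Real.log ((f.map (Int.castRingHom ℂ)).mahlerMeasure) / f.natDegree :=
    (Pool.Agent.W70.LD.ht_le_hM α').trans (Pool.Agent.W469.CV.MH.hM_le α' f hf hfd0 hfα')
  -- the degree
  set F := smoothField K Γ P with hF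
  set F' := smoothRootField K' Γ' P with hF'
  have hle : F ≤ F'.map ι := by
    refine sup_le ?_ (adjoin_le_iff.2 ?_)
    · intro x hx
      have hxa : IsAlgebraic ℚ x := by
        have h3 : IsIntegral ℚ (⟨x, hx⟩ : K) := Algebra.IsIntegral.isIntegral _
        exact (h3.map K.val).isAlgebraic
      obtain ⟨y, hy⟩ := lift_surj ι hxa
      refine ⟨y, (le_sup_left : K' ≤ F') ?_, hy⟩
      show ι y ∈ K
      rw [hy]
      exact hx
    · rintro x (⟨n, hn, hx⟩ | ⟨n, hn, g, hg, hx⟩)
      · have hxa : IsAlgebraic ℚ x := by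
          refine ⟨X ^ n - 1, ?_, by simp [hx]⟩
          exact (monic_X_pow_sub_C (1 : ℚ) hn.ne').ne_zero
        obtain ⟨y, hy⟩ := lift_surj ι hxa
        refine ⟨y, (le_sup_right : _ ≤ F') (subset_adjoin _ _ (Or.inl ⟨n, hn, ?_⟩)), hy⟩
        apply hιinj
        rw [map_pow, map_one]
        exact hy ▸ hx
      · have hga := halg g hg
        have hxa : IsAlgebraic ℚ x := by
          have h3 : IsAlgebraic ℚ (x ^ n) := by rw [hx]; exact hga
          exact h3.of_pow hn.1
        obtain ⟨y, hy⟩ := lift_surj ι hxa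
        obtain ⟨g', hg'⟩ := hpre g hg
        refine ⟨y, (le_sup_right : _ ≤ F') (subset_adjoin _ _ (Or.inr ⟨n, hn, g', ?_, ?_⟩)), hy⟩
        · show u g' ∈ Γ
          rw [hg']
          exact hg
        · apply hιinj
          rw [map_pow]
          have h3 : ι y = x := hy
          rw [h3, hx, ← hg']
          rfl
  let e : F →+* F' := ((equivMap F' ι).symm : F'.map ι →+* F').comp (inclusion hle : F →+* F'.map ι)
  have he : ∀ x : F, ι ((e x : F') : Qb) = (x : ℂ) := by
    intro x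
    have h3 : equivMap F' ι (e x) = inclusion hle x := by
      show equivMap F' ι ((equivMap F' ι).symm (inclusion hle x)) = inclusion hle x
      exact AlgEquiv.apply_symm_apply _ _
    have h4 := congrArg (fun z : F'.map ι => (z : ℂ)) h3
    exact h4
  have hint : IsIntegral F α := hα.isIntegral.tower_top
  have hD : (minpoly F' α').natDegree ≤ (minpoly F α).natDegree := by
    have h3 : ((minpoly F α).map e).Monic := (minpoly.monic hint).map e
    have h4 : aeval α' ((minpoly F α).map e) = 0 := by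
      apply hιinj
      rw [map_zero]
      have h5 : ι (aeval α' ((minpoly F α).map e)) = aeval α (minpoly F α) := by
        rw [aeval_def, aeval_def, eval₂_map]
        have h6 : ((ι : Qb →+* ℂ).comp ((algebraMap F' Qb).comp e)) = algebraMap F ℂ := by
          ext x
          exact he x
        have h7 := hom_eval₂ (minpoly F α) ((algebraMap F' Qb).comp e) (ι : Qb →+* ℂ) α'
        rw [h6, show (↑ι : Qb →+* ℂ) α' = α from hα'] at h7
        exact h7
      rw [h5]
      exact minpoly.aeval _ _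
    have h5 := minpoly.min F' α' h3 h4
    have h6 := natDegree_le_natDegree h5
    rwa [(minpoly.monic hint).natDegree_map e] at h6
  have hD0 : 0 < (minpoly F' α').natDegree :=
    minpoly.natDegree_pos (Pool.Agent.H58P.qb_isIntegral α').tower_top
  refine le_trans ?_ (h1.trans h2)
  have hAr : (0 : ℝ) < A := by exact_mod_cast hA
  have hD0r : (0 : ℝ) < (minpoly F' α').natDegree := by exact_mod_cast hD0
  have hDr : ((minpoly F' α').natDegree : ℝ) ≤ (minpoly F α).natDegree := by exact_mod_cast hD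
  gcongr

end Pool.Agent.W5h24.RE
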