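import Mathlib

set_option autoImplicit false

/-!
# An energy inequality for finitely many complex numbers
-/

namespace Pool.Agent.W5h24.RE

open Finset Complex

/-- the reflection in the unit circle of the points outside -/
noncomputable def hat (w : ℂ) : ℂ := if ‖w‖ ≤ 1 then w else ((starRingEnd ℂ) w)⁻¹

/-- the normalised distance -/
noncomputable def nd (z w : ℂ) : ℝ := ‖z - w‖ / (max 1 ‖z‖ * max 1 ‖w‖)

lemma norm_hat_le (w : ℂ) : ‖hat w‖ ≤ 1 := by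
  unfold hat
  split_ifs with h
  · exact h
  · rw [norm_inv, Complex.norm_conj]
    exact inv_le_one_of_one_le₀ (not_le.1 h).le

lemma nsq (r : ℝ) (a b : ℂ) : ‖1 - (r : ℂ) * (a * (starRingEnd ℂ) b)‖ ^ 2 - r * ‖a - b‖ ^ 2 =
    (1 - r * ‖a‖ ^ 2) * (1 - r * ‖b‖ ^ 2) := by
  simp only [← Complex.normSq_eq_norm_sq, Complex.normSq_apply]
  simp
  ring

lemma nsq1 (r : ℝ) (x : ℂ) : ‖1 - (r : ℂ) * x‖ ^ 2 - r * ‖1 - x‖ ^ 2 =
    (1 - r) * (1 - r * ‖x‖ ^ 2) := by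
  simp only [← Complex.normSq_eq_norm_sq, Complex.normSq_apply]
  simp
  ring

lemma nd_le {r : ℝ} (hr0 : 0 ≤ r) (hr1 : r ≤ 1) (z w : ℂ) :
    r * nd z w ^ 2 ≤ ‖1 - (r : ℂ) * (hat z * (starRingEnd ℂ) (hat w))‖ ^ 2 := by
  have hle : ∀ x : ℂ, ‖x‖ ≤ 1 → 0 ≤ 1 - r * ‖x‖ ^ 2 := by
    intro x hx
    have h1 : ‖x‖ ^ 2 ≤ 1 := pow_le_one₀ (norm_nonneg x) hx
    nlinarith
  rcases le_or_gt ‖z‖ 1 with hz | hz <;> rcases le_or_gt ‖w‖ 1 with hw | hw
  · have h1 : hat z = z := if_pos hz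
    have h2 : hat w = w := if_pos hw
    rw [h1, h2, nd, max_eq_left hz, max_eq_left hw, mul_one, div_one]
    have h3 := nsq r z w
    nlinarith [mul_nonneg (hle z hz) (hle w hw)]
  · have h1 : hat z = z := if_pos hz
    have h2 : hat w = ((starRingEnd ℂ) w)⁻¹ := if_neg (not_le.2 hw)
    have hw0 : w ≠ 0 := by
      intro h
      rw [h, norm_zero] at hw
      linarith
    have h3 : (starRingEnd ℂ) (hat w) = w⁻¹ := by
      rw [h2, map_inv₀, Complex.conj_conj]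
    rw [h1, h3, nd, max_eq_left hz, max_eq_right hw.le, one_mul]
    have h4 : ‖z - w‖ / ‖w‖ = ‖1 - z * w⁻¹‖ := by
      rw [← norm_div, ← norm_neg]
      congr 1
      field_simp
      ring
    rw [h4]
    have h5 := nsq1 r (z * w⁻¹)
    have h6 : ‖z * w⁻¹‖ ≤ 1 := by
      rw [norm_mul, norm_inv]
      have h7 : ‖w‖⁻¹ ≤ 1 := inv_le_one_of_one_le₀ hw.le
      calc ‖z‖ * ‖w‖⁻¹ ≤ 1 * 1 := mul_le_mul hz h7 (inv_nonneg.2 (norm_nonneg _)) zero_le_one
        _ = 1 := one_mul 1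
    nlinarith [mul_nonneg (sub_nonneg.2 hr1) (hle _ h6)]
  · have h1 : hat w = w := if_pos hw
    have h2 : hat z = ((starRingEnd ℂ) z)⁻¹ := if_neg (not_le.2 hz)
    have hz0 : z ≠ 0 := by
      intro h
      rw [h, norm_zero] at hz
      linarith
    rw [h1, h2, nd, max_eq_left hw, max_eq_right hz.le, mul_one]
    have h3 : ((starRingEnd ℂ) z)⁻¹ * (starRingEnd ℂ) w = (starRingEnd ℂ) (w * z⁻¹) := by
      rw [map_mul, map_inv₀, mul_comm]
    have h4 : ‖z - w‖ / ‖z‖ = ‖1 - (starRingEnd ℂ) (w * z⁻¹)‖ := by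
      rw [← norm_div]
      have : 1 - (starRingEnd ℂ) (w * z⁻¹) = (starRingEnd ℂ) (1 - w * z⁻¹) := by
        rw [map_sub, map_one]
      rw [this, Complex.norm_conj]
      congr 1
      field_simp
    rw [h3, h4]
    have h5 := nsq1 r ((starRingEnd ℂ) (w * z⁻¹))
    have h6 : ‖(starRingEnd ℂ) (w * z⁻¹)‖ ≤ 1 := by
      rw [Complex.norm_conj, norm_mul, norm_inv]
      have h7 : ‖z‖⁻¹ ≤ 1 := inv_le_one_of_one_le₀ hz.le
      calc ‖w‖ * ‖z‖⁻¹ ≤ 1 * 1 := mul_le_mul hw h7 (inv_nonneg.2 (norm_nonneg _)) zero_le_one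
        _ = 1 := one_mul 1
    nlinarith [mul_nonneg (sub_nonneg.2 hr1) (hle _ h6)]
  · have h1 : hat w = ((starRingEnd ℂ) w)⁻¹ := if_neg (not_le.2 hw)
    have h2 : hat z = ((starRingEnd ℂ) z)⁻¹ := if_neg (not_le.2 hz)
    have hz0 : z ≠ 0 := by
      intro h
      rw [h, norm_zero] at hz
      linarith
    have hw0 : w ≠ 0 := by
      intro h
      rw [h, norm_zero] at hw
      linarith
    have h3 : nd z w = ‖hat z - hat w‖ := by
      rw [nd, max_eq_right hz.le, max_eq_right hw.le, h1, h2, ← norm_mul, ← norm_div]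
      have h4 : ((starRingEnd ℂ) z)⁻¹ - ((starRingEnd ℂ) w)⁻¹ = (starRingEnd ℂ) (z⁻¹ - w⁻¹) := by
        rw [map_sub, map_inv₀, map_inv₀]
      rw [h4, Complex.norm_conj, ← norm_neg]
      congr 1
      field_simp
      ring
    rw [h3]
    have h5 := nsq r (hat z) (hat w)
    nlinarith [mul_nonneg (hle _ (norm_hat_le z)) (hle _ (norm_hat_le w))]

lemma hat_mul_lt {r : ℝ} (hr0 : 0 ≤ r) (hr1 : r < 1) (z w : ℂ) :
    ‖(r : ℂ) * (hat z * (starRingEnd ℂ) (hat w))‖ < 1 := by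
  rw [norm_mul, norm_mul, Complex.norm_conj, Complex.norm_real, Real.norm_of_nonneg hr0]
  have h1 := norm_hat_le z
  have h2 := norm_hat_le w
  calc r * (‖hat z‖ * ‖hat w‖) ≤ r * (1 * 1) := by gcongr
    _ < 1 := by linarith

lemma log_nd_le {r : ℝ} (hr0 : 0 < r) (hr1 : r < 1) {z w : ℂ} (hzw : z ≠ w) :
    Real.log (nd z w) ≤ Real.log ‖1 - (r : ℂ) * (hat z * (starRingEnd ℂ) (hat w))‖ +
      Real.log (1 / r) / 2 := by
  have h1 := nd_le hr0.le hr1.le z w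
  have h2 : 0 < nd z w := by
    unfold nd
    have : 0 < ‖z - w‖ := norm_pos_iff.2 (sub_ne_zero.2 hzw)
    positivity
  have h3 : 0 < ‖1 - (r : ℂ) * (hat z * (starRingEnd ℂ) (hat w))‖ := by
    rw [norm_pos_iff]
    intro h
    have h4 := hat_mul_lt hr0.le hr1 z w
    rw [← sub_eq_zero.1 h, norm_one] at h4
    exact lt_irrefl _ h4
  have h4 := Real.log_le_log (by positivity) h1
  rw [Real.log_mul hr0.ne' (by positivity), Real.log_pow, Real.log_pow] at h4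
  rw [one_div, Real.log_inv]
  push_cast at h4
  linarith

lemma log_series {x : ℂ} (hx : ‖x‖ < 1) :
    HasSum (fun k : ℕ => (x ^ k / k).re) (-Real.log ‖1 - x‖) := by
  have h1 := Complex.hasSum_taylorSeries_neg_log hx
  have h2 := Complex.hasSum_re h1
  rw [Complex.neg_re, Complex.log_re] at h2
  exact h2

variable {J : Type} [Fintype J]

/-- the power sums of the reflected numbers -/
noncomputable def ps (z : J → ℂ) (k : ℕ) : ℂ := ∑ j, hat (z j) ^ k

lemma energy_series {r : ℝ} (hr0 : 0 ≤ r) (hr1 : r < 1) (z : J → ℂ) :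
    HasSum (fun k : ℕ => r ^ k / k * ‖ps z k‖ ^ 2)
      (-∑ i, ∑ j, Real.log ‖1 - (r : ℂ) * (hat (z i) * (starRingEnd ℂ) (hat (z j)))‖) := by
  have h1 : HasSum (fun k : ℕ => ∑ i, ∑ j,
      (((r : ℂ) * (hat (z i) * (starRingEnd ℂ) (hat (z j)))) ^ k / k).re)
      (∑ i, ∑ j, -Real.log ‖1 - (r : ℂ) * (hat (z i) * (starRingEnd ℂ) (hat (z j)))‖) :=
    hasSum_sum fun i _ => hasSum_sum fun j _ => log_series (hat_mul_lt hr0 hr1 _ _)
  have h2 : (∑ i, ∑ j, -Real.log ‖1 - (r : ℂ) * (hat (z i) * (starRingEnd ℂ) (hat (z j)))‖) =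
      -∑ i, ∑ j, Real.log ‖1 - (r : ℂ) * (hat (z i) * (starRingEnd ℂ) (hat (z j)))‖ := by
    simp only [Finset.sum_neg_distrib]
  rw [h2] at h1
  refine h1.congr_fun fun k => ?_
  have h3 : (((r : ℂ) ^ k / k) * (ps z k * (starRingEnd ℂ) (ps z k))).re =
      r ^ k / k * ‖ps z k‖ ^ 2 := by
    rw [Complex.mul_conj, Complex.normSq_eq_norm_sq]
    rw [show ((r : ℂ) ^ k / k) * ((‖ps z k‖ ^ 2 : ℝ) : ℂ) = ((r ^ k / k * ‖ps z k‖ ^ 2 : ℝ) : ℂ) by
      push_cast; ring]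
    exact Complex.ofReal_re _
  rw [← h3, ps, map_sum, Finset.sum_mul_sum, Finset.mul_sum, Complex.re_sum]
  refine Finset.sum_congr rfl fun i _ => ?_
  rw [Finset.mul_sum, Complex.re_sum]
  refine Finset.sum_congr rfl fun j _ => ?_
  congr 1
  rw [map_pow]
  ring

/-- the energy inequality -/
theorem energy {r : ℝ} (hr0 : 0 < r) (hr1 : r < 1) (z : J → ℂ) (hz : Function.Injective z)
    (K : Finset ℕ) [DecidableEq J] :
    ∑ k ∈ K, r ^ k / k * ‖ps z k‖ ^ 2 ≤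
      -(∑ i, ∑ j ∈ univ.erase i, Real.log (nd (z i) (z j))) +
      Fintype.card J * Real.log (1 / (1 - r)) +
      Fintype.card J * (Fintype.card J - 1) * (Real.log (1 / r) / 2) := by
  have h1 := sum_le_hasSum K (fun k _ => by positivity) (energy_series hr0.le hr1 z)
  refine h1.trans ?_
  have h2 : ∀ i, -(∑ j ∈ univ.erase i, Real.log (nd (z i) (z j))) + Real.log (1 / (1 - r)) +
      (Fintype.card J - 1) * (Real.log (1 / r) / 2) ≥
      -∑ j, Real.log ‖1 - (r : ℂ) * (hat (z i) * (starRingEnd ℂ) (hat (z j)))‖ := by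
    intro i
    rw [← Finset.sum_erase_add _ _ (mem_univ i)]
    have h3 : ∑ j ∈ univ.erase i, Real.log (nd (z i) (z j)) ≤ ∑ j ∈ univ.erase i,
        (Real.log ‖1 - (r : ℂ) * (hat (z i) * (starRingEnd ℂ) (hat (z j)))‖ +
          Real.log (1 / r) / 2) :=
      Finset.sum_le_sum fun j hj => log_nd_le hr0 hr1 fun h => (Finset.ne_of_mem_erase hj)
        (hz h.symm)
    rw [Finset.sum_add_distrib, Finset.sum_const, Finset.card_erase_of_mem (mem_univ i),
      Finset.card_univ, nsmul_eq_mul] at h3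
    have hc : 1 ≤ Fintype.card J := Fintype.card_pos_iff.2 ⟨i⟩
    rw [Nat.cast_sub hc, Nat.cast_one] at h3
    have h4 : Real.log (1 - r) ≤
        Real.log ‖1 - (r : ℂ) * (hat (z i) * (starRingEnd ℂ) (hat (z i)))‖ := by
      apply Real.log_le_log (by linarith)
      have h5 : ‖(r : ℂ) * (hat (z i) * (starRingEnd ℂ) (hat (z i)))‖ ≤ r := by
        rw [norm_mul, norm_mul, Complex.norm_conj, Complex.norm_real, Real.norm_of_nonneg hr0.le]
        have h6 := norm_hat_le (z i)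
        calc r * (‖hat (z i)‖ * ‖hat (z i)‖) ≤ r * (1 * 1) := by gcongr
          _ = r := by ring
      have h6 := norm_sub_norm_le (1 : ℂ) ((r : ℂ) * (hat (z i) * (starRingEnd ℂ) (hat (z i))))
      rw [norm_one] at h6
      linarith
    have h5 : Real.log (1 / (1 - r)) = -Real.log (1 - r) := by
      rw [one_div, Real.log_inv]
    rw [h5]
    linarith
  have h3 := Finset.sum_le_sum fun i (_ : i ∈ (univ : Finset J)) => h2 i
  rw [Finset.sum_add_distrib, Finset.sum_add_distrib, Finset.sum_neg_distrib,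
    Finset.sum_neg_distrib, Finset.sum_const, Finset.sum_const, Finset.card_univ, nsmul_eq_mul,
    nsmul_eq_mul] at h3
  linarith

lemma quarter {D : ℕ} (hD : 2 ≤ D) {k : ℕ} (hk : k ≤ D) : (1 / 4 : ℝ) ≤ (1 - 1 / (D : ℝ)) ^ k := by
  have hD' : (2 : ℝ) ≤ D := by exact_mod_cast hD
  have h0 : 0 ≤ 1 - 1 / (D : ℝ) := by
    rw [sub_nonneg, div_le_one (by linarith)]
    linarith
  have h1 : 1 - 1 / (D : ℝ) ≤ 1 := by
    have : 0 ≤ 1 / (D : ℝ) := by positivity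
    linarith
  have h2 : (1 - 1 / (D : ℝ)) ^ D ≤ (1 - 1 / (D : ℝ)) ^ k := pow_le_pow_of_le_one h0 h1 hk
  refine le_trans ?_ h2
  have h3 := one_add_mul_self_le_rpow_one_add (s := -(1 / (D : ℝ))) (by
    have : 1 / (D : ℝ) ≤ 1 := by
      rw [div_le_one (by linarith)]
      linarith
    linarith) (p := (D : ℝ) / 2) (by linarith)
  have h4 : 1 + (D : ℝ) / 2 * -(1 / (D : ℝ)) = 1 / 2 := by
    field_simp
    ring
  rw [h4, ← sub_eq_add_neg] at h3
  have h5 : (1 - 1 / (D : ℝ)) ^ D = ((1 - 1 / (D : ℝ)) ^ ((D : ℝ) / 2)) ^ 2 := by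
    rw [← Real.rpow_natCast, ← Real.rpow_natCast ((1 - 1 / (D : ℝ)) ^ ((D : ℝ) / 2)) 2,
      ← Real.rpow_mul h0]
    congr 1
    push_cast
    ring
  rw [h5]
  nlinarith

/-- the energy inequality, with `r = 1 - 1 / D` -/
theorem energy_card (z : J → ℂ) (hz : Function.Injective z) [DecidableEq J]
    (hD : 2 ≤ Fintype.card J) {K : ℕ} (hK : K ≤ Fintype.card J) :
    ∑ k ∈ Icc 1 K, ‖ps z k‖ ^ 2 / k ≤
      4 * (-(∑ i, ∑ j ∈ univ.erase i, Real.log (nd (z i) (z j))) +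
      Fintype.card J * Real.log (Fintype.card J) + Fintype.card J / 2) := by
  set D := Fintype.card J with hDdef
  have hD' : (2 : ℝ) ≤ D := by exact_mod_cast hD
  have hinv : 1 / (D : ℝ) ≤ 1 / 2 := one_div_le_one_div_of_le (by norm_num) hD'
  have hinv0 : 0 < 1 / (D : ℝ) := by positivity
  have h1 := energy (r := 1 - 1 / (D : ℝ)) (by linarith) (by linarith) z hz (Icc 1 K)
  rw [← hDdef] at h1
  have h2 : Real.log (1 / (1 - (1 - 1 / (D : ℝ)))) = Real.log D := by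
    congr 1
    field_simp
    ring
  rw [h2] at h1
  have h3 : Real.log (1 / (1 - 1 / (D : ℝ))) ≤ 1 / ((D : ℝ) - 1) := by
    have h4 := Real.log_le_sub_one_of_pos (x := 1 / (1 - 1 / (D : ℝ)))
      (by have : 0 < 1 - 1 / (D : ℝ) := by linarith
          positivity)
    refine h4.trans (le_of_eq ?_)
    have h5 : (D : ℝ) - 1 ≠ 0 := by linarith
    have h6 : (1 : ℝ) - 1 / D ≠ 0 := by linarith
    field_simp
    ring
  have h4 : (D : ℝ) * (D - 1) * (Real.log (1 / (1 - 1 / (D : ℝ))) / 2) ≤ D / 2 := by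
    have h5 : (0 : ℝ) < (D : ℝ) - 1 := by linarith
    calc (D : ℝ) * (D - 1) * (Real.log (1 / (1 - 1 / (D : ℝ))) / 2) ≤
        (D : ℝ) * (D - 1) * (1 / ((D : ℝ) - 1) / 2) := by gcongr
      _ = D / 2 := by field_simp
  have h5 : ∑ k ∈ Icc 1 K, ‖ps z k‖ ^ 2 / k ≤
      4 * ∑ k ∈ Icc 1 K, (1 - 1 / (D : ℝ)) ^ k / k * ‖ps z k‖ ^ 2 := by
    rw [Finset.mul_sum]
    refine Finset.sum_le_sum fun k hk => ?_
    rw [mem_Icc] at hk
    have h6 := quarter hD (hk.2.trans hK)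
    have h7 : (0 : ℝ) < k := by exact_mod_cast hk.1
    have h8 : 0 ≤ ‖ps z k‖ ^ 2 / k := by positivity
    calc ‖ps z k‖ ^ 2 / k ≤ (4 * (1 - 1 / (D : ℝ)) ^ k) * (‖ps z k‖ ^ 2 / k) := by
          nlinarith
      _ = _ := by ring
  linarith

end Pool.Agent.W5h24.RE
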