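import Pool.Agent.W5h24.RE.A

set_option autoImplicit false

/-!
# Directions of the points, and points outside a sector
-/

namespace Pool.Agent.W5h24.RE

open Finset Complex

/-- the direction -/
noncomputable def dir (w : ℂ) : ℂ := w / ‖w‖

lemma norm_dir {w : ℂ} (hw : w ≠ 0) : ‖dir w‖ = 1 := by
  unfold dir
  rw [norm_div, Complex.norm_real, norm_norm, div_self (norm_ne_zero_iff.2 hw)]

lemma hat_eq {w : ℂ} (hw : w ≠ 0) :
    hat w = ((Real.exp (-|Real.log ‖w‖|) : ℝ) : ℂ) * dir w := by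
  have hn : 0 < ‖w‖ := norm_pos_iff.2 hw
  have hn' : (‖w‖ : ℂ) ≠ 0 := by exact_mod_cast hn.ne'
  unfold hat dir
  split_ifs with h
  · rw [abs_of_nonpos (Real.log_nonpos hn.le h), neg_neg, Real.exp_log hn]
    field_simp
  · have h1 : 1 < ‖w‖ := not_le.1 h
    rw [abs_of_pos (Real.log_pos h1), Real.exp_neg, Real.exp_log hn]
    have h2 : (starRingEnd ℂ) w ≠ 0 := by
      rw [ne_eq, map_eq_zero]
      exact hw
    have h3 : w * (starRingEnd ℂ) w = (‖w‖ : ℂ) ^ 2 := by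
      rw [Complex.mul_conj, Complex.normSq_eq_norm_sq]
      push_cast
      rfl
    push_cast
    field_simp
    rw [mul_comm, h3]

lemma pow_diff {w : ℂ} (hw : w ≠ 0) (k : ℕ) :
    ‖hat w ^ k - dir w ^ k‖ ≤ k * |Real.log ‖w‖| := by
  rw [hat_eq hw, mul_pow]
  set t : ℝ := |Real.log ‖w‖| with ht
  have ht0 : 0 ≤ t := abs_nonneg _
  have h1 : ((Real.exp (-t) : ℝ) : ℂ) ^ k * dir w ^ k - dir w ^ k =
      (((Real.exp (-(k * t)) - 1 : ℝ)) : ℂ) * dir w ^ k := by
    have h2 : ((Real.exp (-t) : ℝ) : ℂ) ^ k = ((Real.exp (-(k * t)) : ℝ) : ℂ) := by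
      rw [← Complex.ofReal_pow, ← Real.exp_nat_mul]
      congr 2
      ring
    rw [h2]
    push_cast
    ring
  rw [h1, norm_mul, norm_pow, norm_dir hw, one_pow, mul_one, Complex.norm_real]
  have h3 := Real.add_one_le_exp (-(k * t))
  have h4 : Real.exp (-(k * t)) ≤ 1 := Real.exp_le_one_iff.2 (by
    have : 0 ≤ (k : ℝ) * t := by positivity
    linarith)
  rw [Real.norm_of_nonpos (by linarith)]
  linarith

variable {J : Type} [Fintype J]

/-- the power sums of the directions -/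
noncomputable def us (z : J → ℂ) (k : ℕ) : ℂ := ∑ j, dir (z j) ^ k

/-- the sum of the logarithmic distances from the unit circle -/
noncomputable def ll (z : J → ℂ) : ℝ := ∑ j, |Real.log ‖z j‖|

lemma ll_nonneg (z : J → ℂ) : 0 ≤ ll z := Finset.sum_nonneg fun _ _ => abs_nonneg _

lemma us_sub (z : J → ℂ) (hz : ∀ j, z j ≠ 0) (k : ℕ) : ‖us z k‖ ≤ ‖ps z k‖ + k * ll z := by
  have h1 : ‖ps z k - us z k‖ ≤ k * ll z := by
    unfold ps us ll
    rw [← Finset.sum_sub_distrib, Finset.mul_sum]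
    exact (norm_sum_le _ _).trans (Finset.sum_le_sum fun j _ => pow_diff (hz j) k)
  have h2 := norm_sub_norm_le (us z k) (ps z k)
  rw [norm_sub_rev] at h2
  linarith

lemma us_le (z : J → ℂ) (hz : ∀ j, z j ≠ 0) (k : ℕ) : ‖us z k‖ ≤ Fintype.card J := by
  unfold us
  refine (norm_sum_le _ _).trans ?_
  have h1 : ∀ j ∈ (univ : Finset J), ‖dir (z j) ^ k‖ ≤ 1 := by
    intro j _
    rw [norm_pow, norm_dir (hz j), one_pow]
  refine (Finset.sum_le_sum h1).trans ?_
  simp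

lemma ps_le (z : J → ℂ) (k : ℕ) : ‖ps z k‖ ≤ Fintype.card J := by
  unfold ps
  refine (norm_sum_le _ _).trans ?_
  have h1 : ∀ j ∈ (univ : Finset J), ‖hat (z j) ^ k‖ ≤ 1 := by
    intro j _
    rw [norm_pow]
    exact pow_le_one₀ (norm_nonneg _) (norm_hat_le _)
  refine (Finset.sum_le_sum h1).trans ?_
  simp

/-- squares of the power sums of the directions -/
lemma us_sq (z : J → ℂ) (hz : ∀ j, z j ≠ 0) (k : ℕ) :
    ‖us z k‖ ^ 2 ≤ ‖ps z k‖ ^ 2 + 2 * Fintype.card J * (k * ll z) := by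
  have h1 := us_sub z hz k
  have h2 := us_le z hz k
  have h3 := ps_le z k
  have h4 := ll_nonneg z
  have h5 : 0 ≤ (k : ℝ) * ll z := by positivity
  rcases le_total ‖us z k‖ ‖ps z k‖ with h | h
  · have h6 : ‖us z k‖ ^ 2 ≤ ‖ps z k‖ ^ 2 := pow_le_pow_left₀ (norm_nonneg _) h 2
    have h7 : (0 : ℝ) ≤ 2 * Fintype.card J * (k * ll z) := by positivity
    linarith
  · have h6 : (‖us z k‖ - ‖ps z k‖) * (‖us z k‖ + ‖ps z k‖) ≤
        (k * ll z) * (2 * Fintype.card J) := by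
      apply mul_le_mul (by linarith) (by linarith) (by positivity) h5
    nlinarith

/-- the Fejér kernel -/
lemma fejer {x : ℂ} (hx : ‖x‖ = 1) (K : ℕ) :
    ‖∑ m ∈ range K, x ^ m‖ ^ 2 = 2 * ∑ k ∈ range K, ((K : ℝ) - k) * (x ^ k).re - K := by
  induction K with
  | zero => simp
  | succ K ih =>
    have h0 : x * (starRingEnd ℂ) x = 1 := by
      rw [Complex.mul_conj, Complex.normSq_eq_norm_sq, hx]
      simp
    have h1 : ∀ m ∈ range K, ((starRingEnd ℂ) (x ^ m) * x ^ K) = x ^ (K - m) := by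
      intro m hm
      rw [mem_range] at hm
      have h2 : x ^ K = x ^ m * x ^ (K - m) := by
        rw [← pow_add]
        congr 1
        omega
      rw [h2, ← mul_assoc, map_pow, ← mul_pow, mul_comm ((starRingEnd ℂ) x) x, h0, one_pow, one_mul]
    have h3 : ((starRingEnd ℂ) (∑ m ∈ range K, x ^ m) * x ^ K).re =
        ∑ k ∈ range K, (x ^ (k + 1)).re := by
      rw [map_sum, Finset.sum_mul, Finset.sum_congr rfl h1, Complex.re_sum,
        ← Finset.sum_range_reflect]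
      refine Finset.sum_congr rfl fun m hm => ?_
      rw [mem_range] at hm
      congr 2
      omega
    rw [Finset.sum_range_succ]
    have h4 : ‖∑ m ∈ range K, x ^ m + x ^ K‖ ^ 2 = ‖∑ m ∈ range K, x ^ m‖ ^ 2 + 1 +
        2 * ((starRingEnd ℂ) (∑ m ∈ range K, x ^ m) * x ^ K).re := by
      have h5 : ‖x ^ K‖ ^ 2 = 1 := by rw [norm_pow, hx, one_pow, one_pow]
      rw [← h5]
      simp only [← Complex.normSq_eq_norm_sq]
      rw [Complex.normSq_add]
      have h6 : (∑ m ∈ range K, x ^ m) * (starRingEnd ℂ) (x ^ K) =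
          (starRingEnd ℂ) ((starRingEnd ℂ) (∑ m ∈ range K, x ^ m) * x ^ K) := by
        rw [map_mul, Complex.conj_conj]
      rw [h6, Complex.conj_re]
    rw [h4, ih, h3]
    have h7 : ∑ k ∈ range (K + 1), (((K + 1 : ℕ) : ℝ) - k) * (x ^ k).re =
        ∑ k ∈ range K, ((K : ℝ) - k) * (x ^ k).re + ∑ k ∈ range (K + 1), (x ^ k).re := by
      have h8 : ∑ k ∈ range K, ((K : ℝ) - k) * (x ^ k).re =
          ∑ k ∈ range (K + 1), ((K : ℝ) - k) * (x ^ k).re := by
        rw [Finset.sum_range_succ, sub_self, zero_mul, add_zero]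
      rw [h8, ← Finset.sum_add_distrib]
      refine Finset.sum_congr rfl fun k _ => ?_
      push_cast
      ring
    rw [h7, Finset.sum_range_succ' (fun k => (x ^ k).re) K]
    push_cast
    simp only [pow_zero, Complex.one_re]
    ring

lemma fejer_le {x : ℂ} (hx : ‖x‖ = 1) {η : ℝ} (hη : 0 < η) (h : x.re ≤ 1 - η) (K : ℕ) :
    ‖∑ m ∈ range K, x ^ m‖ ^ 2 ≤ 2 / η := by
  have h1 : ‖1 - x‖ ^ 2 = 2 - 2 * x.re := by
    have h2 : ‖x‖ ^ 2 = 1 := by rw [hx, one_pow]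
    rw [← Complex.normSq_eq_norm_sq, Complex.normSq_apply] at h2
    rw [← Complex.normSq_eq_norm_sq, Complex.normSq_apply]
    simp
    nlinarith
  have h3 : (∑ m ∈ range K, x ^ m) * (1 - x) = 1 - x ^ K := by
    rw [← mul_neg_geom_sum, mul_comm]
  have h4 : ‖∑ m ∈ range K, x ^ m‖ * ‖1 - x‖ ≤ 2 := by
    rw [← norm_mul, h3]
    refine (norm_sub_le _ _).trans ?_
    rw [norm_one, norm_pow, hx, one_pow]
    norm_num
  have h5 : ‖∑ m ∈ range K, x ^ m‖ ^ 2 * ‖1 - x‖ ^ 2 ≤ 4 := by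
    rw [← mul_pow]
    calc (‖∑ m ∈ range K, x ^ m‖ * ‖1 - x‖) ^ 2 ≤ 2 ^ 2 :=
          pow_le_pow_left₀ (by positivity) h4 2
      _ = 4 := by norm_num
  rw [le_div_iff₀ hη]
  have h6 : 2 * η ≤ ‖1 - x‖ ^ 2 := by rw [h1]; linarith
  have h7 : 0 ≤ ‖∑ m ∈ range K, x ^ m‖ ^ 2 := by positivity
  nlinarith

lemma fejer_triv {x : ℂ} (hx : ‖x‖ = 1) (K : ℕ) : ‖∑ m ∈ range K, x ^ m‖ ^ 2 ≤ (K : ℝ) ^ 2 := by
  apply pow_le_pow_left₀ (norm_nonneg _)
  refine (norm_sum_le _ _).trans ?_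
  have h1 : ∀ m ∈ range K, ‖x ^ m‖ ≤ 1 := by
    intro m _
    rw [norm_pow, hx, one_pow]
  refine (Finset.sum_le_sum h1).trans ?_
  simp

/-- few points in a sector: large power sums -/
lemma sector_us (z : J → ℂ) (hz : ∀ j, z j ≠ 0) {v : ℂ} (hv : ‖v‖ = 1) {η : ℝ} (hη : 0 < η)
    (K : ℕ) (B : Finset J)
    (h : ∀ j, j ∉ B → (z j * (starRingEnd ℂ) v).re ≤ (1 - η) * ‖z j‖) :
    (K : ℝ) * Fintype.card J ≤ 2 * ∑ k ∈ Ico 1 K, ((K : ℝ) - k) * ‖us z k‖ +
      Fintype.card J * (2 / η) + B.card * (K : ℝ) ^ 2 := by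
  classical
  set x : J → ℂ := fun j => dir (z j) * (starRingEnd ℂ) v with hx
  have hx1 : ∀ j, ‖x j‖ = 1 := by
    intro j
    rw [hx]
    simp only
    rw [norm_mul, norm_dir (hz j), Complex.norm_conj, hv, one_mul]
  have hsum : ∑ j, ‖∑ m ∈ range K, x j ^ m‖ ^ 2 ≤
      Fintype.card J * (2 / η) + B.card * (K : ℝ) ^ 2 := by
    have h1 : ∀ j, ‖∑ m ∈ range K, x j ^ m‖ ^ 2 ≤ 2 / η + if j ∈ B then (K : ℝ) ^ 2 else 0 := by
      intro j
      have hη2 : 0 ≤ 2 / η := by positivity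
      split_ifs with hj
      · exact (fejer_triv (hx1 j) K).trans (by linarith)
      · rw [add_zero]
        apply fejer_le (hx1 j) hη
        have h2 := h j hj
        have hn : 0 < ‖z j‖ := norm_pos_iff.2 (hz j)
        have h3 : x j = ((‖z j‖⁻¹ : ℝ) : ℂ) * (z j * (starRingEnd ℂ) v) := by
          rw [hx]
          simp only [dir]
          push_cast
          ring
        rw [h3, Complex.re_ofReal_mul]
        calc ‖z j‖⁻¹ * (z j * (starRingEnd ℂ) v).re ≤ ‖z j‖⁻¹ * ((1 - η) * ‖z j‖) := by gcongr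
          _ = 1 - η := by field_simp
    refine (Finset.sum_le_sum fun j _ => h1 j).trans (le_of_eq ?_)
    rw [Finset.sum_add_distrib, Finset.sum_const, Finset.card_univ, nsmul_eq_mul,
      Finset.sum_ite_mem, Finset.univ_inter, Finset.sum_const, nsmul_eq_mul]
  have hlow : (K : ℝ) * Fintype.card J - 2 * ∑ k ∈ Ico 1 K, ((K : ℝ) - k) * ‖us z k‖ ≤
      ∑ j, ‖∑ m ∈ range K, x j ^ m‖ ^ 2 := by
    have h1 : ∑ j, ‖∑ m ∈ range K, x j ^ m‖ ^ 2 =
        2 * ∑ k ∈ range K, ((K : ℝ) - k) * (∑ j, x j ^ k).re - Fintype.card J * K := by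
      rw [Finset.sum_congr rfl fun j _ => fejer (hx1 j) K, Finset.sum_sub_distrib,
        ← Finset.mul_sum, Finset.sum_comm, Finset.sum_const, Finset.card_univ, nsmul_eq_mul]
      congr 2
      refine Finset.sum_congr rfl fun k _ => ?_
      rw [← Finset.mul_sum, Complex.re_sum]
    rw [h1]
    rcases Nat.eq_zero_or_pos K with hK | hK
    · subst hK
      simp
    · have h2 : ∑ k ∈ range K, ((K : ℝ) - k) * (∑ j, x j ^ k).re =
          K * Fintype.card J + ∑ k ∈ Ico 1 K, ((K : ℝ) - k) * (∑ j, x j ^ k).re := by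
        rw [Finset.range_eq_Ico, Finset.sum_eq_sum_Ico_succ_bot hK]
        simp
      have h3 : ∀ k ∈ Ico 1 K, -(((K : ℝ) - k) * ‖us z k‖) ≤ ((K : ℝ) - k) * (∑ j, x j ^ k).re := by
        intro k hk
        rw [mem_Ico] at hk
        have h4 : (0 : ℝ) ≤ (K : ℝ) - k := by
          rw [sub_nonneg]
          exact_mod_cast hk.2.le
        have h5 : ∑ j, x j ^ k = us z k * (starRingEnd ℂ) v ^ k := by
          rw [us, Finset.sum_mul]
          refine Finset.sum_congr rfl fun j _ => ?_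
          rw [hx]
          simp only
          rw [mul_pow]
        have h6 : ‖∑ j, x j ^ k‖ = ‖us z k‖ := by
          rw [h5, norm_mul, norm_pow, Complex.norm_conj, hv, one_pow, mul_one]
        have h7 := Complex.abs_re_le_norm (∑ j, x j ^ k)
        rw [h6, abs_le] at h7
        nlinarith [h7.1]
      have h8 := Finset.sum_le_sum h3
      rw [Finset.sum_neg_distrib] at h8
      rw [h2]
      linarith
  linarith

lemma sum_k (K : ℕ) : ∑ k ∈ range K, ((K : ℝ) - k) * k ≤ (K : ℝ) ^ 3 / 6 := by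
  have h : ∀ n : ℕ, 6 * ∑ k ∈ range n, ((n : ℝ) - k) * k = (n : ℝ) ^ 3 - n := by
    intro n
    induction n with
    | zero => simp
    | succ n ih =>
      have h1 : ∑ k ∈ range (n + 1), (((n + 1 : ℕ) : ℝ) - k) * k =
          ∑ k ∈ range n, ((n : ℝ) - k) * k + ∑ k ∈ range (n + 1), (k : ℝ) := by
        have h2 : ∑ k ∈ range n, ((n : ℝ) - k) * k = ∑ k ∈ range (n + 1), ((n : ℝ) - k) * k := by
          rw [Finset.sum_range_succ, sub_self, zero_mul, add_zero]
        rw [h2, ← Finset.sum_add_distrib]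
        refine Finset.sum_congr rfl fun k _ => ?_
        push_cast
        ring
      have h3 : ∀ m : ℕ, 2 * ∑ k ∈ range (m + 1), (k : ℝ) = m * (m + 1) := by
        intro m
        induction m with
        | zero => simp
        | succ m ihm =>
          rw [Finset.sum_range_succ, mul_add, ihm]
          push_cast
          ring
      have h4 := h3 n
      rw [h1, mul_add, ih]
      push_cast
      linarith
  have h1 := h K
  have h2 : (0 : ℝ) ≤ K := by positivity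
  linarith

lemma sum_k2 (K : ℕ) : ∑ k ∈ range K, ((K : ℝ) - k) ^ 2 * k ≤ (K : ℝ) ^ 4 / 12 := by
  have h : ∀ n : ℕ, 12 * ∑ k ∈ range n, ((n : ℝ) - k) ^ 2 * k = (n : ℝ) ^ 4 - (n : ℝ) ^ 2 := by
    intro n
    induction n with
    | zero => simp
    | succ n ih =>
      have h1 : ∑ k ∈ range (n + 1), (((n + 1 : ℕ) : ℝ) - k) ^ 2 * k =
          ∑ k ∈ range n, ((n : ℝ) - k) ^ 2 * k + 2 * ∑ k ∈ range n, ((n : ℝ) - k) * k +
            ∑ k ∈ range (n + 1), (k : ℝ) := by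
        have h2 : ∑ k ∈ range n, ((n : ℝ) - k) * k = ∑ k ∈ range (n + 1), ((n : ℝ) - k) * k := by
          rw [Finset.sum_range_succ, sub_self, zero_mul, add_zero]
        have h3 : ∑ k ∈ range n, ((n : ℝ) - k) ^ 2 * k =
            ∑ k ∈ range (n + 1), ((n : ℝ) - k) ^ 2 * k := by
          rw [Finset.sum_range_succ, sub_self]
          ring
        rw [h2, h3, Finset.mul_sum, ← Finset.sum_add_distrib, ← Finset.sum_add_distrib]
        refine Finset.sum_congr rfl fun k _ => ?_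
        push_cast
        ring
      have h3 : ∀ m : ℕ, 2 * ∑ k ∈ range (m + 1), (k : ℝ) = m * (m + 1) := by
        intro m
        induction m with
        | zero => simp
        | succ m ihm =>
          rw [Finset.sum_range_succ, mul_add, ihm]
          push_cast
          ring
      have h5 : ∀ n : ℕ, 6 * ∑ k ∈ range n, ((n : ℝ) - k) * k = (n : ℝ) ^ 3 - n := by
        intro n
        induction n with
        | zero => simp
        | succ n ih =>
          have h1 : ∑ k ∈ range (n + 1), (((n + 1 : ℕ) : ℝ) - k) * k =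
              ∑ k ∈ range n, ((n : ℝ) - k) * k + ∑ k ∈ range (n + 1), (k : ℝ) := by
            have h2 : ∑ k ∈ range n, ((n : ℝ) - k) * k =
                ∑ k ∈ range (n + 1), ((n : ℝ) - k) * k := by
              rw [Finset.sum_range_succ, sub_self, zero_mul, add_zero]
            rw [h2, ← Finset.sum_add_distrib]
            refine Finset.sum_congr rfl fun k _ => ?_
            push_cast
            ring
          have h4 := h3 n
          rw [h1, mul_add, ih]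
          push_cast
          linarith
      have h6 := h3 n
      have h7 := h5 n
      rw [h1, mul_add, mul_add, ih]
      push_cast
      linarith
  have h1 := h K
  have h2 : (0 : ℝ) ≤ (K : ℝ) ^ 2 := by positivity
  linarith

/-- few points in a sector: the energy is large -/
theorem sector_energy (z : J → ℂ) (hz : ∀ j, z j ≠ 0) (hJ : 0 < Fintype.card J) {v : ℂ}
    (hv : ‖v‖ = 1) {η : ℝ}
    (hη : 0 < η) (K : ℕ) (hK : 4 / η ≤ K) (hK2 : (K : ℝ) ≤ 6 / η) (B : Finset J)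
    (hB : (B.card : ℝ) ≤ η / 24 * Fintype.card J)
    (h : ∀ j, j ∉ B → (z j * (starRingEnd ℂ) v).re ≤ (1 - η) * ‖z j‖) :
    (Fintype.card J : ℝ) / 16 ≤ (K : ℝ) ^ 2 / (3 * Fintype.card J) *
      (∑ k ∈ Ico 1 K, ‖ps z k‖ ^ 2 / k) + (K : ℝ) ^ 2 / 6 * ll z := by
  have h1 := sector_us z hz hv hη K B h
  set D : ℝ := (Fintype.card J : ℝ) with hD
  have hD0 : 0 < D := by rw [hD]; exact_mod_cast hJ
  have hK0 : 0 < (K : ℝ) := lt_of_lt_of_le (by positivity) hK
  have h2 : D * (2 / η) ≤ D * (K / 2) := by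
    apply mul_le_mul_of_nonneg_left _ hD0.le
    have : 4 / η = 2 * (2 / η) := by ring
    linarith
  have h3 : (B.card : ℝ) * (K : ℝ) ^ 2 ≤ D * K / 4 := by
    have h4 : η * K ≤ 6 := by
      rw [le_div_iff₀ hη] at hK2
      linarith
    calc (B.card : ℝ) * (K : ℝ) ^ 2 ≤ (η / 24 * D) * (K : ℝ) ^ 2 := by gcongr
      _ = (η * K) * (D * K / 24) := by ring
      _ ≤ 6 * (D * K / 24) := by gcongr
      _ = D * K / 4 := by ring
  -- linearised Cauchy-Schwarz
  have h4 : ∀ k ∈ Ico 1 K, ((K : ℝ) - k) * ‖us z k‖ ≤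
      (3 * D / (4 * (K : ℝ) ^ 3)) * (((K : ℝ) - k) ^ 2 * k) +
      (K : ℝ) ^ 3 / (3 * D) * (‖ps z k‖ ^ 2 / k) + ll z * (((K : ℝ) - k) * k) := by
    intro k hk
    rw [mem_Ico] at hk
    have hk0 : (0 : ℝ) < k := by exact_mod_cast hk.1
    have hk1 : (0 : ℝ) ≤ (K : ℝ) - k := by
      rw [sub_nonneg]
      exact_mod_cast hk.2.le
    have h5 := us_sub z hz k
    have h6 : ((K : ℝ) - k) * ‖ps z k‖ ≤ (3 * D / (4 * (K : ℝ) ^ 3)) * (((K : ℝ) - k) ^ 2 * k) +
        (K : ℝ) ^ 3 / (3 * D) * (‖ps z k‖ ^ 2 / k) := by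
      have h7 : 0 ≤ (3 * D * (((K : ℝ) - k) * k) - 2 * (K : ℝ) ^ 3 * ‖ps z k‖) ^ 2 /
          (12 * D * (K : ℝ) ^ 3 * k) := by positivity
      have h8 : (3 * D * (((K : ℝ) - k) * k) - 2 * (K : ℝ) ^ 3 * ‖ps z k‖) ^ 2 /
          (12 * D * (K : ℝ) ^ 3 * k) = (3 * D / (4 * (K : ℝ) ^ 3)) * (((K : ℝ) - k) ^ 2 * k) +
        (K : ℝ) ^ 3 / (3 * D) * (‖ps z k‖ ^ 2 / k) - ((K : ℝ) - k) * ‖ps z k‖ := by
        field_simp
        ring
      linarith
    calc ((K : ℝ) - k) * ‖us z k‖ ≤ ((K : ℝ) - k) * (‖ps z k‖ + k * ll z) := by gcongr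
      _ = ((K : ℝ) - k) * ‖ps z k‖ + ll z * (((K : ℝ) - k) * k) := by ring
      _ ≤ _ := by linarith
  have h5 := Finset.sum_le_sum h4
  rw [Finset.sum_add_distrib, Finset.sum_add_distrib, ← Finset.mul_sum, ← Finset.mul_sum,
    ← Finset.mul_sum] at h5
  have hico : ∀ f : ℕ → ℝ, f 0 = 0 → ∑ k ∈ Ico 1 K, f k = ∑ k ∈ range K, f k := by
    intro f hf
    rcases Nat.eq_zero_or_pos K with hKz | hKz
    · rw [hKz]
      simp
    · rw [Finset.range_eq_Ico, Finset.sum_eq_sum_Ico_succ_bot hKz, hf, zero_add]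
  have h6 := sum_k2 K
  have h7 := sum_k K
  rw [← hico (fun k => ((K : ℝ) - k) ^ 2 * k) (by simp)] at h6
  rw [← hico (fun k => ((K : ℝ) - k) * k) (by simp)] at h7
  have hll := ll_nonneg z
  have h8 : (3 * D / (4 * (K : ℝ) ^ 3)) * ∑ k ∈ Ico 1 K, ((K : ℝ) - k) ^ 2 * k ≤ D * K / 16 := by
    calc (3 * D / (4 * (K : ℝ) ^ 3)) * ∑ k ∈ Ico 1 K, ((K : ℝ) - k) ^ 2 * k ≤
        (3 * D / (4 * (K : ℝ) ^ 3)) * ((K : ℝ) ^ 4 / 12) := by gcongr
      _ = D * K / 16 := by
        field_simp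
        ring
  have h9 : ll z * ∑ k ∈ Ico 1 K, ((K : ℝ) - k) * k ≤ ll z * ((K : ℝ) ^ 3 / 6) := by gcongr
  set Q := ∑ k ∈ Ico 1 K, ‖ps z k‖ ^ 2 / k with hQ
  -- K D / 4 ≤ 2 (D K / 16 + K^3 / (3 D) Q + ll K^3 / 6)
  have h10 : K * D / 4 ≤ 2 * (D * K / 16 + (K : ℝ) ^ 3 / (3 * D) * Q + ll z * ((K : ℝ) ^ 3 / 6)) := by
    linarith
  have h11 : K * (D / 16) ≤ K * ((K : ℝ) ^ 2 / (3 * D) * Q + (K : ℝ) ^ 2 / 6 * ll z) := by
    have e : (K : ℝ) ^ 3 / (3 * D) * Q = K * ((K : ℝ) ^ 2 / (3 * D) * Q) := by ring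
    rw [e] at h10
    nlinarith
  exact le_of_mul_le_mul_left h11 hK0

end Pool.Agent.W5h24.RE
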