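import Pool.Agent.W5h24.RE.B
import Pool.Agent.W5h36.RS.Places

set_option autoImplicit false

/-!
# The energy inequality in a number field
-/

namespace Pool.Agent.W5h24.RE

open NumberField Height Module Finset
open Pool.Agent.W5h36.RS (product_formula height_split one_le_fin hfs_prod)

variable {N : Type} [Field N] [NumberField N]
variable {J : Type} [Fintype J] [DecidableEq J]

lemma prod_pairs {R : Type*} [CommMonoid R] (a : J → R) :
    ∏ i, ∏ j ∈ univ.erase i, (a i * a j) = (∏ j, a j) ^ (2 * (Fintype.card J - 1)) := by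
  have h1 : ∏ i, ∏ j ∈ univ.erase i, a i = (∏ j, a j) ^ (Fintype.card J - 1) := by
    rw [← Finset.prod_pow]
    refine Finset.prod_congr rfl fun i _ => ?_
    rw [Finset.prod_const, Finset.card_erase_of_mem (mem_univ i), Finset.card_univ]
  have h2 : ∏ i, ∏ j ∈ univ.erase i, a j = (∏ j, a j) ^ (Fintype.card J - 1) := by
    rw [← h1]
    have e1 : ∀ f : J → J → R, ∏ i, ∏ j ∈ univ.erase i, f i j =
        ∏ i, ∏ j, if j ≠ i then f i j else 1 := by
      intro f
      refine Finset.prod_congr rfl fun i _ => ?_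
      rw [← Finset.prod_filter]
      refine Finset.prod_congr ?_ fun _ _ => rfl
      ext j
      simp
    rw [e1, e1, Finset.prod_comm]
    refine Finset.prod_congr rfl fun i _ => Finset.prod_congr rfl fun j _ => ?_
    by_cases h : i = j
    · rw [h]
    · rw [if_pos h, if_pos (Ne.symm h)]
  simp only [Finset.prod_mul_distrib]
  rw [h1, h2, ← pow_add]
  congr 1
  omega

theorem nf_energy (y : J → N) (hy : ∀ j, y j ≠ 0) (hinj : Function.Injective y) :
    -(∑ σ : N →+* ℂ, ∑ i, ∑ j ∈ univ.erase i, Real.log (nd (σ (y i)) (σ (y j)))) ≤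
      2 * ((Fintype.card J - 1 : ℕ) : ℝ) * ∑ j, Real.log (mulHeight₁ (y j)) := by
  classical
  set M : ℕ := 2 * (Fintype.card J - 1) with hM
  set e : N := ∏ i, ∏ j ∈ univ.erase i, (y i - y j) with he
  have hne : ∀ i, ∀ j ∈ univ.erase i, y i - y j ≠ 0 := fun i j hj =>
    sub_ne_zero.2 fun h => (Finset.ne_of_mem_erase hj) (hinj h.symm)
  have he0 : e ≠ 0 := Finset.prod_ne_zero_iff.2 fun i _ => Finset.prod_ne_zero_iff.2 (hne i)
  set A : ℝ := ∏ᶠ w : FinitePlace N, ∏ j, max (w (y j)) 1 with hA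
  have hA1 : 1 ≤ A := one_le_fin y hy
  have hfin : ∏ᶠ w : FinitePlace N, w e ≤ A ^ M := by
    have h1 : ∏ᶠ w : FinitePlace N, (∏ j, max (w (y j)) 1) ^ M = A ^ M := by
      rw [hA, ← finprod_pow (hfs_prod y hy)]
    rw [← h1]
    refine finprod_le_finprod (FinitePlace.hasFiniteMulSupport he0) (fun w => apply_nonneg w e)
      ((hfs_prod y hy).pow M) fun w => ?_
    rw [hM, ← prod_pairs fun j => max (w (y j)) 1, he, map_prod]
    refine Finset.prod_le_prod (fun i _ => apply_nonneg w _) fun i _ => ?_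
    rw [map_prod]
    refine Finset.prod_le_prod (fun j _ => apply_nonneg w _) fun j _ => ?_
    rw [sub_eq_add_neg]
    refine (FinitePlace.add_le w _ _).trans (max_le ?_ ?_)
    · calc w (y i) ≤ max (w (y i)) 1 * 1 := by
            rw [mul_one]
            exact le_max_left _ _
        _ ≤ _ := mul_le_mul_of_nonneg_left (le_max_right _ _)
            (le_trans zero_le_one (le_max_right _ _))
    · rw [map_neg_eq_map]
      calc w (y j) ≤ 1 * max (w (y j)) 1 := by
            rw [one_mul]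
            exact le_max_left _ _
        _ ≤ _ := mul_le_mul_of_nonneg_right (le_max_right _ _)
            (le_trans zero_le_one (le_max_right _ _))
  have hσe : ∀ σ : N →+* ℂ, 0 < ‖σ e‖ := fun σ =>
    norm_pos_iff.2 ((map_ne_zero_iff σ σ.injective).2 he0)
  have hPpos : 0 < ∏ σ : N →+* ℂ, ‖σ e‖ := Finset.prod_pos fun σ _ => hσe σ
  have hE1 : 1 ≤ (∏ σ : N →+* ℂ, ‖σ e‖) * A ^ M := by
    rw [← product_formula he0]
    exact mul_le_mul_of_nonneg_left hfin hPpos.le
  have hE2 : 0 ≤ ∑ σ : N →+* ℂ, Real.log ‖σ e‖ + M * Real.log A := by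
    have h1 := Real.log_nonneg hE1
    rw [Real.log_mul hPpos.ne' (by positivity), Real.log_pow,
      Real.log_prod (fun σ _ => (hσe σ).ne')] at h1
    exact h1
  -- the normalised distances
  have hloc : ∀ σ : N →+* ℂ, ∑ i, ∑ j ∈ univ.erase i, Real.log (nd (σ (y i)) (σ (y j))) =
      Real.log ‖σ e‖ - M * ∑ j, Real.log (max 1 ‖σ (y j)‖) := by
    intro σ
    have hmax : ∀ j, (0 : ℝ) < max 1 ‖σ (y j)‖ := fun j =>
      lt_of_lt_of_le one_pos (le_max_left _ _)
    have h1 : ∀ i, ∀ j ∈ univ.erase i, Real.log (nd (σ (y i)) (σ (y j))) =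
        Real.log ‖σ (y i - y j)‖ - Real.log (max 1 ‖σ (y i)‖ * max 1 ‖σ (y j)‖) := by
      intro i j hj
      have h2 : ‖σ (y i - y j)‖ ≠ 0 :=
        norm_ne_zero_iff.2 ((map_ne_zero_iff σ σ.injective).2 (hne i j hj))
      rw [nd, ← map_sub, Real.log_div h2 (mul_pos (hmax i) (hmax j)).ne']
    rw [Finset.sum_congr rfl fun i _ => Finset.sum_congr rfl (h1 i)]
    simp only [Finset.sum_sub_distrib]
    congr 1
    · rw [he, map_prod, norm_prod, Real.log_prod]
      · refine Finset.sum_congr rfl fun i _ => ?_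
        rw [map_prod, norm_prod, Real.log_prod]
        intro j hj
        exact norm_ne_zero_iff.2 ((map_ne_zero_iff σ σ.injective).2 (hne i j hj))
      · intro i _
        exact norm_ne_zero_iff.2 ((map_ne_zero_iff σ σ.injective).2
          (Finset.prod_ne_zero_iff.2 (hne i)))
    · have h3 := congrArg Real.log (prod_pairs fun j => max 1 ‖σ (y j)‖)
      rw [Real.log_pow, Real.log_prod (fun i _ => (Finset.prod_pos fun j _ =>
        mul_pos (hmax i) (hmax j)).ne'), Real.log_prod (fun j _ => (hmax j).ne')] at h3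
      rw [hM, ← h3]
      refine Finset.sum_congr rfl fun i _ => ?_
      rw [Real.log_prod (fun j _ => (mul_pos (hmax i) (hmax j)).ne')]
  have hH : ∑ j, Real.log (mulHeight₁ (y j)) =
      ∑ σ : N →+* ℂ, ∑ j, Real.log (max 1 ‖σ (y j)‖) + Real.log A := by
    have h1 := congrArg Real.log (height_split y)
    rw [Real.log_prod (fun j _ => (mulHeight₁_pos _).ne')] at h1
    rw [h1, Real.log_mul]
    · rw [Real.log_prod]
      · congr 1
        refine Finset.sum_congr rfl fun σ _ => ?_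
        rw [Real.log_prod fun j _ => (lt_of_lt_of_le one_pos (le_max_left _ _)).ne']
      · intro σ _
        exact (Finset.prod_pos fun j _ => lt_of_lt_of_le one_pos (le_max_left _ _)).ne'
    · exact (Finset.prod_pos fun σ _ => Finset.prod_pos fun j _ =>
        lt_of_lt_of_le one_pos (le_max_left _ _)).ne'
    · exact (lt_of_lt_of_le one_pos hA1).ne'
  rw [hH, Finset.sum_congr rfl fun σ _ => hloc σ, Finset.sum_sub_distrib, ← Finset.mul_sum]
  have hMr : (M : ℝ) = 2 * ((Fintype.card J - 1 : ℕ) : ℝ) := by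
    rw [hM]
    push_cast
    ring
  rw [← hMr]
  linarith

theorem nf_ll (x : N) (hx : x ≠ 0) :
    ∑ σ : N →+* ℂ, |Real.log ‖σ x‖| ≤ 2 * Real.log (mulHeight₁ x) := by
  classical
  set A : ℝ := ∏ᶠ w : FinitePlace N, max (w x) 1 with hA
  have hsplit : mulHeight₁ x = (∏ σ : N →+* ℂ, max 1 ‖σ x‖) * A := by
    have h1 := height_split (J := Unit) fun _ => x
    simpa using h1
  have hfs : Function.HasFiniteMulSupport fun w : FinitePlace N => max (w x) 1 :=
    (FinitePlace.hasFiniteMulSupport hx).max Function.hasFiniteMulSupport_one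
  have hA1 : 1 ≤ A := by
    calc (1 : ℝ) = ∏ᶠ _w : FinitePlace N, (1 : ℝ) := finprod_one.symm
      _ ≤ _ := finprod_le_finprod Function.hasFiniteMulSupport_one (fun _ => zero_le_one)
        hfs fun w => le_max_right _ _
  have hfin : ∏ᶠ w : FinitePlace N, w x ≤ A :=
    finprod_le_finprod (FinitePlace.hasFiniteMulSupport hx) (fun w => apply_nonneg w x) hfs
      fun w => le_max_left _ _
  have hσ : ∀ σ : N →+* ℂ, 0 < ‖σ x‖ := fun σ =>
    norm_pos_iff.2 ((map_ne_zero_iff σ σ.injective).2 hx)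
  have hPpos : 0 < ∏ σ : N →+* ℂ, ‖σ x‖ := Finset.prod_pos fun σ _ => hσ σ
  have hE1 : 1 ≤ (∏ σ : N →+* ℂ, ‖σ x‖) * A := by
    rw [← product_formula hx]
    exact mul_le_mul_of_nonneg_left hfin hPpos.le
  have hE2 : 0 ≤ ∑ σ : N →+* ℂ, Real.log ‖σ x‖ + Real.log A := by
    have h1 := Real.log_nonneg hE1
    rw [Real.log_mul hPpos.ne' (by positivity), Real.log_prod (fun σ _ => (hσ σ).ne')] at h1
    exact h1
  have hmax : ∀ σ : N →+* ℂ, (0 : ℝ) < max 1 ‖σ x‖ := fun σ =>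
    lt_of_lt_of_le one_pos (le_max_left _ _)
  have hH : Real.log (mulHeight₁ x) = ∑ σ : N →+* ℂ, Real.log (max 1 ‖σ x‖) + Real.log A := by
    rw [hsplit, Real.log_mul (Finset.prod_pos fun σ _ => hmax σ).ne' (by positivity),
      Real.log_prod fun σ _ => (hmax σ).ne']
  have habs : ∀ σ : N →+* ℂ, |Real.log ‖σ x‖| =
      2 * Real.log (max 1 ‖σ x‖) - Real.log ‖σ x‖ := by
    intro σ
    rcases le_total 1 ‖σ x‖ with h | h
    · rw [max_eq_right h, abs_of_nonneg (Real.log_nonneg h)]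
      ring
    · rw [max_eq_left h, abs_of_nonpos (Real.log_nonpos (hσ σ).le h), Real.log_one]
      ring
  rw [Finset.sum_congr rfl fun σ _ => habs σ, Finset.sum_sub_distrib, ← Finset.mul_sum, hH]
  have := Real.log_nonneg hA1
  linarith

section Main

variable (y : J → N) (hy : ∀ j, y j ≠ 0) (hinj : Function.Injective y) {h : ℝ}
  (hh : ∀ j, Real.log (mulHeight₁ (y j)) ≤ finrank ℚ N * h) (hD : 2 ≤ Fintype.card J)

include hy hinj hh hD

/-- the sum of the energies -/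
theorem sum_energy {K : ℕ} (hK : K ≤ Fintype.card J) :
    ∑ σ : N →+* ℂ, ∑ k ∈ Icc 1 K, ‖ps (fun j => σ (y j)) k‖ ^ 2 / k ≤
      finrank ℚ N * (4 * (Fintype.card J : ℝ) ^ 2 *
        (2 * h + (Real.log (Fintype.card J) + 1 / 2) / Fintype.card J)) := by
  have hc : (Fintype.card (N →+* ℂ) : ℝ) = finrank ℚ N := by
    rw [← NumberField.Embeddings.card N ℂ]
  have h1 : ∀ σ : N →+* ℂ, ∑ k ∈ Icc 1 K, ‖ps (fun j => σ (y j)) k‖ ^ 2 / k ≤
      4 * (-(∑ i, ∑ j ∈ univ.erase i, Real.log (nd (σ (y i)) (σ (y j)))) +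
      (Fintype.card J * Real.log (Fintype.card J) + Fintype.card J / 2)) := by
    intro σ
    have h2 := energy_card (fun j => σ (y j)) (σ.injective.comp hinj) hD hK
    linarith
  have h2 := Finset.sum_le_sum fun σ (_ : σ ∈ (univ : Finset (N →+* ℂ))) => h1 σ
  rw [← Finset.mul_sum, Finset.sum_add_distrib, Finset.sum_neg_distrib, Finset.sum_const,
    Finset.card_univ, nsmul_eq_mul, hc] at h2
  have h3 := nf_energy y hy hinj
  have h4 : ∑ j, Real.log (mulHeight₁ (y j)) ≤ Fintype.card J * (finrank ℚ N * h) := by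
    refine (Finset.sum_le_sum fun j _ => hh j).trans (le_of_eq ?_)
    rw [Finset.sum_const, Finset.card_univ, nsmul_eq_mul]
  have hH0 : 0 ≤ ∑ j, Real.log (mulHeight₁ (y j)) :=
    Finset.sum_nonneg fun j _ => Real.log_nonneg (one_le_mulHeight₁ _)
  set D : ℝ := (Fintype.card J : ℝ) with hDdef
  have hD' : (2 : ℝ) ≤ D := by rw [hDdef]; exact_mod_cast hD
  have h5 : ((Fintype.card J - 1 : ℕ) : ℝ) ≤ D := by
    rw [hDdef]
    exact_mod_cast Nat.sub_le _ _
  have h6 : 2 * ((Fintype.card J - 1 : ℕ) : ℝ) * ∑ j, Real.log (mulHeight₁ (y j)) ≤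
      2 * D * (D * (finrank ℚ N * h)) := by
    calc 2 * ((Fintype.card J - 1 : ℕ) : ℝ) * ∑ j, Real.log (mulHeight₁ (y j)) ≤
        2 * D * ∑ j, Real.log (mulHeight₁ (y j)) := by gcongr
      _ ≤ _ := by gcongr
  have h7 : (finrank ℚ N : ℝ) * (4 * D ^ 2 * (2 * h + (Real.log D + 1 / 2) / D)) =
      4 * (2 * D * (D * (finrank ℚ N * h)) + finrank ℚ N * (D * Real.log D + D / 2)) := by
    field_simp
  rw [h7]
  linarith

/-- the sum of the logarithmic distances from the unit circle -/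
theorem sum_ll : ∑ σ : N →+* ℂ, ll (fun j => σ (y j)) ≤
    finrank ℚ N * (2 * Fintype.card J * h) := by
  unfold ll
  rw [Finset.sum_comm]
  have h1 : ∀ j ∈ (univ : Finset J), ∑ σ : N →+* ℂ, |Real.log ‖σ (y j)‖| ≤
      2 * (finrank ℚ N * h) := fun j _ => (nf_ll (y j) (hy j)).trans (by linarith [hh j])
  refine (Finset.sum_le_sum h1).trans (le_of_eq ?_)
  rw [Finset.sum_const, Finset.card_univ, nsmul_eq_mul]
  ring

theorem h_nonneg : 0 ≤ h := by
  obtain ⟨j⟩ : Nonempty J := Fintype.card_pos_iff.1 (by omega)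
  have h1 := (Real.log_nonneg (one_le_mulHeight₁ (y j))).trans (hh j)
  have h2 : (0 : ℝ) < finrank ℚ N := by
    exact_mod_cast Module.finrank_pos (R := ℚ) (M := N)
  exact nonneg_of_mul_nonneg_right h1 h2

/-- the quadratic mean of the power sums of the directions -/
theorem sum_us {k : ℕ} (hk1 : 1 ≤ k) (hk : k ≤ Fintype.card J) :
    ∑ σ : N →+* ℂ, ‖us (fun j => σ (y j)) k‖ ^ 2 ≤
      finrank ℚ N * (4 * k * (Fintype.card J : ℝ) ^ 2 *
        (3 * h + (Real.log (Fintype.card J) + 1 / 2) / Fintype.card J)) := by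
  have h1 := sum_energy y hy hinj hh hD hk
  have h2 := sum_ll y hy hinj hh hD
  have hk0 : (0 : ℝ) < k := by exact_mod_cast hk1
  have h3 : ∑ σ : N →+* ℂ, ‖ps (fun j => σ (y j)) k‖ ^ 2 / k ≤
      ∑ σ : N →+* ℂ, ∑ k ∈ Icc 1 k, ‖ps (fun j => σ (y j)) k‖ ^ 2 / k := by
    refine Finset.sum_le_sum fun σ _ => ?_
    exact Finset.single_le_sum (f := fun k : ℕ => ‖ps (fun j => σ (y j)) k‖ ^ 2 / (k : ℝ))
      (fun i _ => by positivity) (mem_Icc.2 ⟨hk1, le_rfl⟩)
  rw [← Finset.sum_div] at h3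
  have h4 := (div_le_iff₀ hk0).1 (h3.trans h1)
  have h5 : ∑ σ : N →+* ℂ, ‖us (fun j => σ (y j)) k‖ ^ 2 ≤
      ∑ σ : N →+* ℂ, (‖ps (fun j => σ (y j)) k‖ ^ 2 +
        2 * Fintype.card J * (k * ll (fun j => σ (y j)))) :=
    Finset.sum_le_sum fun σ _ => us_sq _ (fun j => (map_ne_zero_iff σ σ.injective).2 (hy j)) k
  rw [Finset.sum_add_distrib, ← Finset.mul_sum, ← Finset.mul_sum] at h5
  have h6 : 2 * (Fintype.card J : ℝ) * (k * ∑ σ : N →+* ℂ, ll (fun j => σ (y j))) ≤
      2 * (Fintype.card J : ℝ) * (k * (finrank ℚ N * (2 * Fintype.card J * h))) := by gcongr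
  have h7 : (finrank ℚ N : ℝ) * (4 * k * (Fintype.card J : ℝ) ^ 2 *
        (3 * h + (Real.log (Fintype.card J) + 1 / 2) / Fintype.card J)) =
      finrank ℚ N * (4 * (Fintype.card J : ℝ) ^ 2 *
        (2 * h + (Real.log (Fintype.card J) + 1 / 2) / Fintype.card J)) * k +
      2 * (Fintype.card J : ℝ) * (k * (finrank ℚ N * (2 * Fintype.card J * h))) := by ring
  rw [h7]
  linarith

/-- few points in a sector for a positive proportion of the embeddings -/
theorem sector {η δ : ℝ} (hη : 0 < η) (hη2 : η ≤ 2) (hδ1 : δ ≤ 1)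
    (G : Finset (N →+* ℂ)) (hG : δ * finrank ℚ N ≤ G.card)
    (hsec : ∀ σ ∈ G, ∃ v : ℂ, ‖v‖ = 1 ∧ ∃ B : Finset J, (B.card : ℝ) ≤ η / 24 * Fintype.card J ∧
      ∀ j, j ∉ B → (σ (y j) * (starRingEnd ℂ) v).re ≤ (1 - η) * ‖σ (y j)‖) :
    δ * η ^ 2 / 1728 - 4 / 9 * ((Real.log (Fintype.card J) + 1 / 2) / Fintype.card J) ≤ h := by
  have hh0 := h_nonneg y hy hinj hh hD
  set D : ℝ := (Fintype.card J : ℝ) with hDdef
  have hD' : (2 : ℝ) ≤ D := by rw [hDdef]; exact_mod_cast hD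
  have hn : (0 : ℝ) < finrank ℚ N := by
    exact_mod_cast Module.finrank_pos (R := ℚ) (M := N)
  have hlogD : 0 ≤ Real.log D := Real.log_nonneg (by linarith)
  set ε : ℝ := (Real.log D + 1 / 2) / D with hε
  have hε0 : 0 ≤ ε := by positivity
  set K : ℕ := ⌈4 / η⌉₊ with hKdef
  have hK : 4 / η ≤ K := Nat.le_ceil _
  have hK2 : (K : ℝ) ≤ 6 / η := by
    have h1 := Nat.ceil_lt_add_one (a := 4 / η) (by positivity)
    have h2 : (1 : ℝ) ≤ 2 / η := by
      rw [le_div_iff₀ hη]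
      linarith
    have h3 : 6 / η = 4 / η + 2 / η := by ring
    rw [h3]
    linarith
  have hK0 : 0 < (K : ℝ) := lt_of_lt_of_le (by positivity) hK
  have hK2' : (K : ℝ) * η ≤ 6 := by rwa [le_div_iff₀ hη] at hK2
  rcases Nat.lt_or_ge (Fintype.card J + 1) K with hc | hc
  · -- trivial case
    have h1 : D ≤ K := by
      rw [hDdef]
      exact_mod_cast (by omega : Fintype.card J ≤ K)
    have h2 : D * η ≤ 6 := le_trans (by gcongr) hK2'
    have h3 : δ * η ^ 2 / 1728 ≤ 4 / 9 * ε := by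
      have h4 : η ^ 2 * D ^ 2 ≤ 36 := by
        have : (D * η) ^ 2 ≤ 6 ^ 2 := pow_le_pow_left₀ (by positivity) h2 2
        nlinarith
      have h5 : δ * η ^ 2 ≤ η ^ 2 := by
        have : 0 ≤ η ^ 2 := by positivity
        nlinarith
      have h6 : 1 / 2 / D ≤ ε := by
        rw [hε]
        gcongr
        linarith
      have h7 : η ^ 2 / 1728 ≤ 4 / 9 * (1 / 2 / D) := by
        rw [div_le_iff₀ (by norm_num)]
        have h8 : η ^ 2 * D ≤ 18 := by nlinarith [sq_nonneg η]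
        have h9 : η ^ 2 ≤ 18 / D := by
          rw [le_div_iff₀ (by linarith)]
          exact h8
        have h10 : 4 / 9 * (1 / 2 / D) * 1728 = 384 / D := by ring
        rw [h10]
        refine h9.trans ?_
        gcongr
        norm_num
      calc δ * η ^ 2 / 1728 ≤ η ^ 2 / 1728 := by gcongr
        _ ≤ 4 / 9 * (1 / 2 / D) := h7
        _ ≤ _ := by gcongr
    linarith
  · have hKD : K - 1 ≤ Fintype.card J := by omega
    have h1 := sum_energy y hy hinj hh hD hKD
    have h2 := sum_ll y hy hinj hh hD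
    have hIcc : Ico 1 K = Icc 1 (K - 1) := by
      ext k
      simp only [mem_Ico, mem_Icc]
      omega
    have h3 : ∀ σ ∈ G, D / 16 ≤ (K : ℝ) ^ 2 / (3 * D) *
        (∑ k ∈ Icc 1 (K - 1), ‖ps (fun j => σ (y j)) k‖ ^ 2 / k) +
          (K : ℝ) ^ 2 / 6 * ll (fun j => σ (y j)) := by
      intro σ hσ
      obtain ⟨v, hv, B, hB, hs⟩ := hsec σ hσ
      have h4 := sector_energy (fun j => σ (y j))
        (fun j => (map_ne_zero_iff σ σ.injective).2 (hy j)) (by omega) hv hη K hK hK2 B hB hs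
      rw [hIcc] at h4
      exact h4
    have h4 : ∑ _σ ∈ G, D / 16 ≤ ∑ σ : N →+* ℂ, ((K : ℝ) ^ 2 / (3 * D) *
        (∑ k ∈ Icc 1 (K - 1), ‖ps (fun j => σ (y j)) k‖ ^ 2 / k) +
          (K : ℝ) ^ 2 / 6 * ll (fun j => σ (y j))) := by
      refine (Finset.sum_le_sum h3).trans ?_
      refine Finset.sum_le_sum_of_subset_of_nonneg (Finset.subset_univ _) fun σ _ _ => ?_
      have := ll_nonneg (fun j => σ (y j))
      have : 0 ≤ ∑ k ∈ Icc 1 (K - 1), ‖ps (fun j => σ (y j)) k‖ ^ 2 / (k : ℝ) :=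
        Finset.sum_nonneg fun k _ => by positivity
      positivity
    rw [Finset.sum_const, nsmul_eq_mul, Finset.sum_add_distrib, ← Finset.mul_sum,
      ← Finset.mul_sum] at h4
    have h5 : δ * finrank ℚ N * (D / 16) ≤ finrank ℚ N *
        ((K : ℝ) ^ 2 * D * (3 * h + 4 / 3 * ε)) := by
      have h6 : δ * finrank ℚ N * (D / 16) ≤ G.card * (D / 16) := by gcongr
      have h7 : (K : ℝ) ^ 2 / (3 * D) * (∑ σ : N →+* ℂ,
          ∑ k ∈ Icc 1 (K - 1), ‖ps (fun j => σ (y j)) k‖ ^ 2 / k) ≤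
          (K : ℝ) ^ 2 / (3 * D) * (finrank ℚ N * (4 * D ^ 2 * (2 * h + ε))) := by gcongr
      have h8 : (K : ℝ) ^ 2 / 6 * (∑ σ : N →+* ℂ, ll (fun j => σ (y j))) ≤
          (K : ℝ) ^ 2 / 6 * (finrank ℚ N * (2 * D * h)) := by gcongr
      have h9 : (K : ℝ) ^ 2 / (3 * D) * (finrank ℚ N * (4 * D ^ 2 * (2 * h + ε))) +
          (K : ℝ) ^ 2 / 6 * (finrank ℚ N * (2 * D * h)) =
          finrank ℚ N * ((K : ℝ) ^ 2 * D * (3 * h + 4 / 3 * ε)) := by
        field_simp
        ring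
      linarith
    have h6 : δ / 16 ≤ (K : ℝ) ^ 2 * (3 * h + 4 / 3 * ε) := by
      have h7 : (finrank ℚ N * D : ℝ) * (δ / 16) ≤
          (finrank ℚ N * D : ℝ) * ((K : ℝ) ^ 2 * (3 * h + 4 / 3 * ε)) := by linarith
      exact le_of_mul_le_mul_left h7 (by positivity)
    have h7 : δ * η ^ 2 / 16 ≤ 36 * (3 * h + 4 / 3 * ε) := by
      have h8 : ((K : ℝ) * η) ^ 2 ≤ 6 ^ 2 := pow_le_pow_left₀ (by positivity) hK2' 2
      calc δ * η ^ 2 / 16 = δ / 16 * η ^ 2 := by ring
        _ ≤ (K : ℝ) ^ 2 * (3 * h + 4 / 3 * ε) * η ^ 2 := by gcongr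
        _ = ((K : ℝ) * η) ^ 2 * (3 * h + 4 / 3 * ε) := by ring
        _ ≤ 6 ^ 2 * (3 * h + 4 / 3 * ε) := by gcongr
        _ = _ := by ring
    linarith

end Main

end Pool.Agent.W5h24.RE
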