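import Pool.Agent.W5h24.RE.C

set_option autoImplicit false

/-!
# Many points on a line
-/

namespace Pool.Agent.W5h24.RE

open NumberField Height Module Finset

lemma fejer_ge {x : ℂ} (hx : ‖x‖ = 1) (K : ℕ) {τ : ℝ} (h : 1 - τ ≤ x.re)
    (hK : 2 * τ * (K : ℝ) ^ 2 ≤ 1) : (K : ℝ) ^ 2 / 4 ≤ ‖∑ m ∈ range K, x ^ m‖ ^ 2 := by
  have h1 : ‖1 - x‖ ^ 2 = 2 - 2 * x.re := by
    have h2 : ‖x‖ ^ 2 = 1 := by rw [hx, one_pow]
    rw [← Complex.normSq_eq_norm_sq, Complex.normSq_apply] at h2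
    rw [← Complex.normSq_eq_norm_sq, Complex.normSq_apply]
    simp
    nlinarith
  have h2 : (K : ℝ) * ‖1 - x‖ ≤ 1 := by
    have h3 : ((K : ℝ) * ‖1 - x‖) ^ 2 ≤ 1 ^ 2 := by
      rw [mul_pow, h1]
      have h4 : (K : ℝ) ^ 2 * (2 - 2 * x.re) ≤ (K : ℝ) ^ 2 * (2 * τ) := by
        gcongr
        linarith
      linarith
    exact le_of_sq_le_sq h3 (by norm_num)
  have h3 : ∀ m : ℕ, ‖1 - x ^ m‖ ≤ m * ‖1 - x‖ := by
    intro m
    rw [← mul_neg_geom_sum, norm_mul, mul_comm]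
    gcongr
    refine (norm_sum_le _ _).trans ?_
    have h4 : ∀ i ∈ range m, ‖x ^ i‖ ≤ 1 := by
      intro i _
      rw [norm_pow, hx, one_pow]
    refine (Finset.sum_le_sum h4).trans ?_
    simp
  have h4 : ‖(K : ℂ) - ∑ m ∈ range K, x ^ m‖ ≤ K / 2 := by
    have h5 : (K : ℂ) - ∑ m ∈ range K, x ^ m = ∑ m ∈ range K, (1 - x ^ m) := by
      rw [Finset.sum_sub_distrib, Finset.sum_const, card_range, nsmul_eq_mul, mul_one]
    rw [h5]
    refine (norm_sum_le _ _).trans ((Finset.sum_le_sum fun m _ => h3 m).trans ?_)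
    rw [← Finset.sum_mul]
    have h6 : (∑ m ∈ range K, (m : ℝ)) ≤ K * K / 2 := by
      have h7 := Finset.sum_range_id_mul_two K
      have h8 : (∑ m ∈ range K, (m : ℝ)) * 2 = ((K * (K - 1) : ℕ) : ℝ) := by
        rw [← h7]
        push_cast
        ring
      have h9 : ((K * (K - 1) : ℕ) : ℝ) ≤ K * K := by
        have : K * (K - 1) ≤ K * K := Nat.mul_le_mul_left _ (Nat.sub_le _ _)
        exact_mod_cast this
      linarith
    calc (∑ m ∈ range K, (m : ℝ)) * ‖1 - x‖ ≤ K * K / 2 * ‖1 - x‖ := by gcongr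
      _ = K / 2 * (K * ‖1 - x‖) := by ring
      _ ≤ K / 2 * 1 := by gcongr
      _ = K / 2 := by ring
  have h5 : (K : ℝ) / 2 ≤ ‖∑ m ∈ range K, x ^ m‖ := by
    have h6 := norm_sub_norm_le (K : ℂ) (∑ m ∈ range K, x ^ m)
    rw [Complex.norm_natCast] at h6
    linarith
  calc (K : ℝ) ^ 2 / 4 = (K / 2) ^ 2 := by ring
    _ ≤ _ := pow_le_pow_left₀ (by positivity) h5 2

section
variable {J : Type} [Fintype J]

/-- many points in a small arc: large power sums -/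
lemma arc_us (z : J → ℂ) (hz : ∀ j, z j ≠ 0) {v : ℂ} (hv : ‖v‖ = 1) {τ : ℝ} (K : ℕ)
    (hK0 : 1 ≤ K) (hK : 2 * τ * (K : ℝ) ^ 2 ≤ 1) (A : Finset J)
    (h : ∀ j ∈ A, 1 - τ ≤ (dir (z j) * (starRingEnd ℂ) v).re) :
    (A.card : ℝ) ≤ 4 / K * (Fintype.card J + 2 * ∑ k ∈ Ico 1 K, ‖us z k‖) := by
  classical
  set x : J → ℂ := fun j => dir (z j) * (starRingEnd ℂ) v with hx
  have hx1 : ∀ j, ‖x j‖ = 1 := by
    intro j
    rw [hx]
    simp only
    rw [norm_mul, norm_dir (hz j), Complex.norm_conj, hv, one_mul]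
  have hlow : (A.card : ℝ) * ((K : ℝ) ^ 2 / 4) ≤ ∑ j, ‖∑ m ∈ range K, x j ^ m‖ ^ 2 := by
    have h1 : ∑ j ∈ A, (K : ℝ) ^ 2 / 4 ≤ ∑ j ∈ A, ‖∑ m ∈ range K, x j ^ m‖ ^ 2 :=
      Finset.sum_le_sum fun j hj => fejer_ge (hx1 j) K (h j hj) hK
    rw [Finset.sum_const, nsmul_eq_mul] at h1
    exact h1.trans (Finset.sum_le_sum_of_subset_of_nonneg (Finset.subset_univ _)
      fun j _ _ => by positivity)
  have hupp : ∑ j, ‖∑ m ∈ range K, x j ^ m‖ ^ 2 ≤
      K * Fintype.card J + 2 * ∑ k ∈ Ico 1 K, (K : ℝ) * ‖us z k‖ := by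
    have h1 : ∑ j, ‖∑ m ∈ range K, x j ^ m‖ ^ 2 =
        2 * ∑ k ∈ range K, ((K : ℝ) - k) * (∑ j, x j ^ k).re - Fintype.card J * K := by
      rw [Finset.sum_congr rfl fun j _ => fejer (hx1 j) K, Finset.sum_sub_distrib,
        ← Finset.mul_sum, Finset.sum_comm, Finset.sum_const, Finset.card_univ, nsmul_eq_mul]
      congr 2
      refine Finset.sum_congr rfl fun k _ => ?_
      rw [← Finset.mul_sum, Complex.re_sum]
    rw [h1]
    have h2 : ∑ k ∈ range K, ((K : ℝ) - k) * (∑ j, x j ^ k).re =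
        K * Fintype.card J + ∑ k ∈ Ico 1 K, ((K : ℝ) - k) * (∑ j, x j ^ k).re := by
      rw [Finset.range_eq_Ico, Finset.sum_eq_sum_Ico_succ_bot (by omega)]
      simp
    have h3 : ∀ k ∈ Ico 1 K, ((K : ℝ) - k) * (∑ j, x j ^ k).re ≤ (K : ℝ) * ‖us z k‖ := by
      intro k hk
      rw [mem_Ico] at hk
      have h4 : (0 : ℝ) ≤ (K : ℝ) - k := by
        rw [sub_nonneg]
        exact_mod_cast hk.2.le
      have h5 : ∑ j, x j ^ k = us z k * (starRingEnd ℂ) v ^ k := by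
        rw [us, Finset.sum_mul]
        refine Finset.sum_congr rfl fun j _ => ?_
        rw [hx]
        simp only
        rw [mul_pow]
      have h6 : ‖∑ j, x j ^ k‖ = ‖us z k‖ := by
        rw [h5, norm_mul, norm_pow, Complex.norm_conj, hv, one_pow, mul_one]
      have h7 := Complex.re_le_norm (∑ j, x j ^ k)
      rw [h6] at h7
      have h8 : (0 : ℝ) ≤ k := Nat.cast_nonneg _
      calc ((K : ℝ) - k) * (∑ j, x j ^ k).re ≤ ((K : ℝ) - k) * ‖us z k‖ := by gcongr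
        _ ≤ (K : ℝ) * ‖us z k‖ := by
          gcongr
          linarith
    have h8 := Finset.sum_le_sum h3
    rw [h2]
    linarith
  have hKp : (0 : ℝ) < K := by exact_mod_cast hK0
  have h1 := hlow.trans hupp
  rw [← Finset.mul_sum] at h1
  have h2 : (A.card : ℝ) * ((K : ℝ) ^ 2 / 4) ≤
      4 / K * (Fintype.card J + 2 * ∑ k ∈ Ico 1 K, ‖us z k‖) * ((K : ℝ) ^ 2 / 4) := by
    refine h1.trans (le_of_eq ?_)
    field_simp
  exact le_of_mul_le_mul_right h2 (by positivity)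

/-- two points of a line near the unit circle, on the same side -/
lemma line_dir {u z w : ℂ} (hu : ‖u‖ = 1) (hz : z ≠ 0) (hw : w ≠ 0) {p s : ℝ}
    (hzp : (z * (starRingEnd ℂ) u).re = p) (hwp : (w * (starRingEnd ℂ) u).re = p)
    (hs : s ≤ 1 / 4) (hzs : |Real.log ‖z‖| ≤ s) (hws : |Real.log ‖w‖| ≤ s)
    (him : 0 ≤ (z * (starRingEnd ℂ) u).im * (w * (starRingEnd ℂ) u).im) :
    1 - 4 * s ≤ (dir z * (starRingEnd ℂ) (dir w)).re := by
  set x : ℂ := dir z * (starRingEnd ℂ) u with hx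
  set y : ℂ := dir w * (starRingEnd ℂ) u with hy
  have hz0 : 0 < ‖z‖ := norm_pos_iff.2 hz
  have hw0 : 0 < ‖w‖ := norm_pos_iff.2 hw
  have hx1 : ‖x‖ = 1 := by rw [hx, norm_mul, norm_dir hz, Complex.norm_conj, hu, one_mul]
  have hy1 : ‖y‖ = 1 := by rw [hy, norm_mul, norm_dir hw, Complex.norm_conj, hu, one_mul]
  have hxe : x = ((‖z‖⁻¹ : ℝ) : ℂ) * (z * (starRingEnd ℂ) u) := by
    rw [hx]
    simp only [dir]
    push_cast
    ring
  have hye : y = ((‖w‖⁻¹ : ℝ) : ℂ) * (w * (starRingEnd ℂ) u) := by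
    rw [hy]
    simp only [dir]
    push_cast
    ring
  have hxr : x.re = ‖z‖⁻¹ * p := by rw [hxe, Complex.re_ofReal_mul, hzp]
  have hyr : y.re = ‖w‖⁻¹ * p := by rw [hye, Complex.re_ofReal_mul, hwp]
  have hxi : x.im = ‖z‖⁻¹ * (z * (starRingEnd ℂ) u).im := by rw [hxe, Complex.im_ofReal_mul]
  have hyi : y.im = ‖w‖⁻¹ * (w * (starRingEnd ℂ) u).im := by rw [hye, Complex.im_ofReal_mul]
  have hxy : 0 ≤ x.im * y.im := by
    rw [hxi, hyi]
    have : ‖z‖⁻¹ * (z * (starRingEnd ℂ) u).im * (‖w‖⁻¹ * (w * (starRingEnd ℂ) u).im) =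
        ‖z‖⁻¹ * ‖w‖⁻¹ * ((z * (starRingEnd ℂ) u).im * (w * (starRingEnd ℂ) u).im) := by ring
    rw [this]
    positivity
  have hdd : dir z * (starRingEnd ℂ) (dir w) = x * (starRingEnd ℂ) y := by
    have h1 : u * (starRingEnd ℂ) u = 1 := by
      rw [Complex.mul_conj, Complex.normSq_eq_norm_sq, hu]
      simp
    rw [hx, hy, map_mul, Complex.conj_conj]
    calc dir z * (starRingEnd ℂ) (dir w) = dir z * (starRingEnd ℂ) (dir w) * 1 := by ring
      _ = _ := by rw [← h1]; ring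
  have hre : (x * (starRingEnd ℂ) y).re = x.re * y.re + x.im * y.im := by
    simp [Complex.mul_re]
  rw [hdd, hre]
  have hx2 : x.re ^ 2 + x.im ^ 2 = 1 := by
    have h2 : ‖x‖ ^ 2 = 1 := by rw [hx1, one_pow]
    rw [← Complex.normSq_eq_norm_sq, Complex.normSq_apply] at h2
    linarith
  have hy2 : y.re ^ 2 + y.im ^ 2 = 1 := by
    have h2 : ‖y‖ ^ 2 = 1 := by rw [hy1, one_pow]
    rw [← Complex.normSq_eq_norm_sq, Complex.normSq_apply] at h2
    linarith
  -- the elementary inequality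
  have key : ∀ a b c d : ℝ, a ^ 2 + c ^ 2 = 1 → b ^ 2 + d ^ 2 = 1 → 0 ≤ c * d → b ≤ a →
      1 - (a - b) ≤ a * b + c * d := by
    intro a b c d hac hbd hcd hab
    have ha1 : a ≤ 1 := by nlinarith [sq_nonneg c, sq_nonneg (a - 1)]
    have hb1 : -1 ≤ b := by nlinarith [sq_nonneg d, sq_nonneg (b + 1)]
    have ha2 : -1 ≤ a := hb1.trans hab
    have hb2 : b ≤ 1 := hab.trans ha1
    have h1 : ((1 - a) * (1 + b)) ^ 2 ≤ (c * d) ^ 2 := by
      have h2 : (c * d) ^ 2 = (1 - a) * (1 + a) * ((1 - b) * (1 + b)) := by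
        have : (c * d) ^ 2 = c ^ 2 * d ^ 2 := by ring
        rw [this, show c ^ 2 = 1 - a ^ 2 by linarith, show d ^ 2 = 1 - b ^ 2 by linarith]
        ring
      rw [h2]
      have h3 : 0 ≤ (1 - a) * (1 + b) * (2 * (a - b)) :=
        mul_nonneg (mul_nonneg (by linarith) (by linarith)) (by linarith)
      nlinarith
    have h2 := abs_le_of_sq_le_sq h1 hcd
    have h3 := (le_abs_self _).trans h2
    nlinarith
  -- the real parts are close
  have hpz : |p| ≤ ‖z‖ := by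
    rw [← hzp]
    refine (Complex.abs_re_le_norm _).trans ?_
    rw [norm_mul, Complex.norm_conj, hu, mul_one]
  have hclose : |x.re - y.re| ≤ 4 * s := by
    have hs0 : 0 ≤ s := (abs_nonneg _).trans hzs
    have h1 : x.re - y.re = ‖z‖⁻¹ * p * (1 - ‖z‖ / ‖w‖) := by
      rw [hxr, hyr]
      field_simp
    have h2 : ‖z‖ / ‖w‖ = Real.exp (Real.log ‖z‖ - Real.log ‖w‖) := by
      rw [Real.exp_sub, Real.exp_log hz0, Real.exp_log hw0]
    have h3 : |Real.log ‖z‖ - Real.log ‖w‖| ≤ 2 * s := by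
      refine (abs_sub _ _).trans ?_
      linarith
    have h4 : |Real.exp (Real.log ‖z‖ - Real.log ‖w‖) - 1| ≤ 2 * (2 * s) :=
      (Real.abs_exp_sub_one_le (by linarith)).trans (by linarith)
    have h5 : |‖z‖⁻¹ * p| ≤ 1 := by
      rw [abs_mul, abs_of_pos (inv_pos.2 hz0), inv_mul_le_iff₀ hz0, mul_one]
      exact hpz
    rw [h1, abs_mul, h2, abs_sub_comm]
    calc |‖z‖⁻¹ * p| * |Real.exp (Real.log ‖z‖ - Real.log ‖w‖) - 1| ≤ 1 * (2 * (2 * s)) := by
          gcongr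
      _ = 4 * s := by ring
  rcases le_total y.re x.re with hxy' | hxy'
  · have h1 := key x.re y.re x.im y.im hx2 hy2 hxy hxy'
    have h2 := (le_abs_self _).trans hclose
    linarith
  · have h1 := key y.re x.re y.im x.im hy2 hx2 (by linarith) hxy'
    have h2 := (neg_le_abs _).trans hclose
    linarith

/-- many points on a line: large power sums, or far from the unit circle -/
lemma line_us (z : J → ℂ) (hz : ∀ j, z j ≠ 0) {u : ℂ} (hu : ‖u‖ = 1) {p : ℝ} (K : ℕ)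
    (hK0 : 1 ≤ K) (A : Finset J) (h : ∀ j ∈ A, (z j * (starRingEnd ℂ) u).re = p) :
    (A.card : ℝ) ≤ 8 / K * (Fintype.card J + 2 * ∑ k ∈ Ico 1 K, ‖us z k‖) +
      8 * (K : ℝ) ^ 2 * ll z := by
  classical
  have hKp : (1 : ℝ) ≤ K := by exact_mod_cast hK0
  have hKp2 : (1 : ℝ) ≤ (K : ℝ) ^ 2 := one_le_pow₀ hKp
  set s : ℝ := 1 / (8 * (K : ℝ) ^ 2) with hs
  have hs0 : 0 < s := by positivity
  have hs4 : s ≤ 1 / 4 := by
    rw [hs]
    apply one_div_le_one_div_of_le (by norm_num)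
    linarith
  have hτ : 2 * (4 * s) * (K : ℝ) ^ 2 ≤ 1 := by
    rw [hs]
    apply le_of_eq
    field_simp
    norm_num
  set B : Finset J := A.filter fun j => s < |Real.log ‖z j‖| with hB
  set P : Finset J := (A.filter fun j => |Real.log ‖z j‖| ≤ s ∧ 0 ≤ (z j * (starRingEnd ℂ) u).im)
    with hP
  set Q : Finset J := (A.filter fun j => |Real.log ‖z j‖| ≤ s ∧ (z j * (starRingEnd ℂ) u).im ≤ 0)
    with hQ
  have hcov : A ⊆ B ∪ (P ∪ Q) := by
    intro j hj
    simp only [hB, hP, hQ, mem_union, mem_filter]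
    rcases lt_or_ge s |Real.log ‖z j‖| with h1 | h1
    · exact Or.inl ⟨hj, h1⟩
    · rcases le_total 0 (z j * (starRingEnd ℂ) u).im with h2 | h2
      · exact Or.inr (Or.inl ⟨hj, h1, h2⟩)
      · exact Or.inr (Or.inr ⟨hj, h1, h2⟩)
  have hcard : (A.card : ℝ) ≤ B.card + (P.card + Q.card) := by
    have h1 := (card_le_card hcov).trans ((card_union_le _ _).trans
      (Nat.add_le_add_left (card_union_le _ _) _))
    exact_mod_cast h1
  have hBc : (B.card : ℝ) ≤ 8 * (K : ℝ) ^ 2 * ll z := by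
    have h1 : (B.card : ℝ) * s ≤ ll z := by
      have h2 : ∑ _j ∈ B, s ≤ ∑ j ∈ B, |Real.log ‖z j‖| :=
        Finset.sum_le_sum fun j hj => (mem_filter.1 hj).2.le
      rw [Finset.sum_const, nsmul_eq_mul] at h2
      exact h2.trans (Finset.sum_le_sum_of_subset_of_nonneg (Finset.subset_univ _)
        fun j _ _ => abs_nonneg _)
    have h3 : (B.card : ℝ) = 8 * (K : ℝ) ^ 2 * (B.card * s) := by
      rw [hs]
      field_simp
    rw [h3]
    gcongr
  have harc : ∀ R : Finset J, (∀ i ∈ R, ∀ j ∈ R, 1 - 4 * s ≤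
      (dir (z i) * (starRingEnd ℂ) (dir (z j))).re) →
      (R.card : ℝ) ≤ 4 / K * (Fintype.card J + 2 * ∑ k ∈ Ico 1 K, ‖us z k‖) := by
    intro R hR
    rcases R.eq_empty_or_nonempty with h1 | ⟨j₀, hj₀⟩
    · rw [h1, card_empty, Nat.cast_zero]
      positivity
    · exact arc_us z hz (norm_dir (hz j₀)) K hK0 hτ R fun i hi => hR i hi j₀ hj₀
  have hPc := harc P (by
    intro i hi j hj
    rw [hP, mem_filter] at hi hj
    exact line_dir hu (hz i) (hz j) (h i hi.1) (h j hj.1) hs4 hi.2.1 hj.2.1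
      (mul_nonneg hi.2.2 hj.2.2))
  have hQc := harc Q (by
    intro i hi j hj
    rw [hQ, mem_filter] at hi hj
    exact line_dir hu (hz i) (hz j) (h i hi.1) (h j hj.1) hs4 hi.2.1 hj.2.1
      (mul_nonneg_of_nonpos_of_nonpos hi.2.2 hj.2.2))
  have h8 : 8 / (K : ℝ) * (Fintype.card J + 2 * ∑ k ∈ Ico 1 K, ‖us z k‖) =
      4 / K * (Fintype.card J + 2 * ∑ k ∈ Ico 1 K, ‖us z k‖) +
      4 / K * (Fintype.card J + 2 * ∑ k ∈ Ico 1 K, ‖us z k‖) := by ring
  rw [h8]
  linarith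

end

section Main
variable {N : Type} [Field N] [NumberField N]
variable {J : Type} [Fintype J] [DecidableEq J]
variable (y : J → N) (hy : ∀ j, y j ≠ 0) (hinj : Function.Injective y) {h : ℝ}
  (hh : ∀ j, Real.log (mulHeight₁ (y j)) ≤ finrank ℚ N * h) (hD : 2 ≤ Fintype.card J)
include hy hinj hh hD

/-- many points on lines -/
theorem lines {ρ : ℝ} (hρ : 0 < ρ) (hρ1 : ρ ≤ 1) (A : (N →+* ℂ) → Finset J)
    (hA : ∀ σ, ∃ u : ℂ, ‖u‖ = 1 ∧ ∃ p : ℝ, ∀ j ∈ A σ, (σ (y j) * (starRingEnd ℂ) u).re = p)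
    (hAρ : ρ * (finrank ℚ N * Fintype.card J) ≤ ∑ σ, ((A σ).card : ℝ)) :
    ρ ^ 3 / 130000 - 1 / 3 * ((Real.log (Fintype.card J) + 1 / 2) / Fintype.card J) ≤ h := by
  have hh0 := h_nonneg y hy hinj hh hD
  have hcardE : (Fintype.card (N →+* ℂ) : ℝ) = finrank ℚ N := by
    rw [← NumberField.Embeddings.card N ℂ]
  set D : ℝ := (Fintype.card J : ℝ) with hDdef
  have hD' : (2 : ℝ) ≤ D := by rw [hDdef]; exact_mod_cast hD
  set n : ℝ := (finrank ℚ N : ℝ) with hndef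
  have hn : (0 : ℝ) < n := by
    rw [hndef]
    exact_mod_cast Module.finrank_pos (R := ℚ) (M := N)
  have hlogD : 0 ≤ Real.log D := Real.log_nonneg (by linarith)
  set ε : ℝ := (Real.log D + 1 / 2) / D with hε
  have hε0 : 0 ≤ ε := by positivity
  set K : ℕ := ⌈16 / ρ⌉₊ with hKdef
  have hK : 16 / ρ ≤ K := Nat.le_ceil _
  have hK2 : (K : ℝ) ≤ 17 / ρ := by
    have h1 := Nat.ceil_lt_add_one (a := 16 / ρ) (by positivity)
    have h2 : (1 : ℝ) ≤ 1 / ρ := by
      rw [le_div_iff₀ hρ]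
      linarith
    have h3 : 17 / ρ = 16 / ρ + 1 / ρ := by ring
    rw [h3]
    linarith
  have hKp : 0 < (K : ℝ) := lt_of_lt_of_le (by positivity) hK
  have hK1 : 1 ≤ K := by exact_mod_cast hKp
  have hK2' : (K : ℝ) * ρ ≤ 17 := by rwa [le_div_iff₀ hρ] at hK2
  have hK' : 16 ≤ (K : ℝ) * ρ := by rwa [div_le_iff₀ hρ] at hK
  rcases Nat.lt_or_ge (Fintype.card J + 1) K with hc | hc
  · -- trivial case
    have h1 : D ≤ K - 1 := by
      have : Fintype.card J + 1 ≤ K := hc.le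
      have : ((Fintype.card J + 1 : ℕ) : ℝ) ≤ K := by exact_mod_cast this
      push_cast at this
      linarith
    have h2 : ρ ≤ 17 / D := by
      rw [le_div_iff₀ (by linarith)]
      have : ρ * D ≤ ρ * K := by gcongr; linarith
      linarith
    have h3 : ρ ^ 3 ≤ ρ := by
      have : ρ ^ 2 ≤ 1 := pow_le_one₀ hρ.le hρ1
      nlinarith
    have h6 : 1 / 2 / D ≤ ε := by
      rw [hε]
      gcongr
      linarith
    have h7 : ρ ^ 3 / 130000 ≤ 1 / 3 * ε := by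
      calc ρ ^ 3 / 130000 ≤ (17 / D) / 130000 := by gcongr; linarith
        _ ≤ 1 / 3 * (1 / 2 / D) := by
          rw [show (17 / D) / 130000 = (17 / 130000) / D by ring,
            show 1 / 3 * (1 / 2 / D) = (1 / 6) / D by ring]
          exact div_le_div_of_nonneg_right (by norm_num) (by linarith)
        _ ≤ _ := by gcongr
    linarith
  · -- the sum over the embeddings
    have h1 : ∀ σ : N →+* ℂ, ((A σ).card : ℝ) ≤ 8 / K * (D +
        2 * ∑ k ∈ Ico 1 K, ‖us (fun j => σ (y j)) k‖) +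
        8 * (K : ℝ) ^ 2 * ll (fun j => σ (y j)) := by
      intro σ
      obtain ⟨u, hu, p, hp⟩ := hA σ
      exact line_us (fun j => σ (y j)) (fun j => (map_ne_zero_iff σ σ.injective).2 (hy j)) hu K
        hK1 (A σ) hp
    set θ : ℝ := ρ / 64 with hθ
    have hθ0 : 0 < θ := by positivity
    have h2 : ∀ σ : N →+* ℂ, ∀ k, ‖us (fun j => σ (y j)) k‖ ≤ θ * D +
        ‖us (fun j => σ (y j)) k‖ ^ 2 / (4 * θ * D) := by
      intro σ k
      set t : ℝ := ‖us (fun j => σ (y j)) k‖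
      have hθD : 0 < θ * D := by positivity
      have h3 : t * (4 * θ * D) ≤ (θ * D) * (4 * θ * D) + t ^ 2 := by
        nlinarith [sq_nonneg (t - 2 * (θ * D))]
      have h4 : θ * D + t ^ 2 / (4 * θ * D) = ((θ * D) * (4 * θ * D) + t ^ 2) / (4 * θ * D) := by
        field_simp
      rw [h4, le_div_iff₀ (by positivity)]
      exact h3
    have h3 : ∀ k ∈ Ico 1 K, ∑ σ : N →+* ℂ, ‖us (fun j => σ (y j)) k‖ ≤
        n * D * (θ + k * (3 * h + ε) / θ) := by
      intro k hk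
      rw [mem_Ico] at hk
      have h4 := sum_us y hy hinj hh hD hk.1 (by omega)
      refine (Finset.sum_le_sum fun σ _ => h2 σ k).trans ?_
      rw [Finset.sum_add_distrib, Finset.sum_const, Finset.card_univ, nsmul_eq_mul, hcardE,
        ← Finset.sum_div]
      have h5 : (∑ σ : N →+* ℂ, ‖us (fun j => σ (y j)) k‖ ^ 2) / (4 * θ * D) ≤
          n * (4 * k * D ^ 2 * (3 * h + ε)) / (4 * θ * D) := by gcongr
      have h6 : n * D * (θ + k * (3 * h + ε) / θ) =
          n * (θ * D) + n * (4 * k * D ^ 2 * (3 * h + ε)) / (4 * θ * D) := by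
        field_simp
      rw [h6]
      linarith
    have h4 : ∑ k ∈ Ico 1 K, ∑ σ : N →+* ℂ, ‖us (fun j => σ (y j)) k‖ ≤
        n * D * (K * θ + K ^ 2 * (3 * h + ε) / (2 * θ)) := by
      refine (Finset.sum_le_sum h3).trans ?_
      rw [← Finset.mul_sum, Finset.sum_add_distrib, Finset.sum_const, Nat.card_Ico, nsmul_eq_mul]
      have h5 : ∑ k ∈ Ico 1 K, (k : ℝ) * (3 * h + ε) / θ ≤ K ^ 2 * (3 * h + ε) / (2 * θ) := by
        have h6 : ∑ k ∈ Ico 1 K, (k : ℝ) ≤ K ^ 2 / 2 := by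
          have h7 := Finset.sum_range_id_mul_two K
          have h8 : (∑ m ∈ range K, (m : ℝ)) * 2 = ((K * (K - 1) : ℕ) : ℝ) := by
            rw [← h7]
            push_cast
            ring
          have h9 : ((K * (K - 1) : ℕ) : ℝ) ≤ K * K := by
            have : K * (K - 1) ≤ K * K := Nat.mul_le_mul_left _ (Nat.sub_le _ _)
            exact_mod_cast this
          have h10 : ∑ m ∈ range K, (m : ℝ) = ∑ k ∈ Ico 1 K, (k : ℝ) := by
            rw [Finset.range_eq_Ico, Finset.sum_eq_sum_Ico_succ_bot (by omega)]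
            simp
          rw [← h10]
          linarith
        rw [← Finset.sum_div, ← Finset.sum_mul]
        calc (∑ k ∈ Ico 1 K, (k : ℝ)) * (3 * h + ε) / θ ≤ (K ^ 2 / 2) * (3 * h + ε) / θ := by
              gcongr
          _ = _ := by
            field_simp
      have h6 : ((K - 1 : ℕ) : ℝ) * θ ≤ K * θ := by
        gcongr
        exact Nat.sub_le _ _
      gcongr
    have h5 := sum_ll y hy hinj hh hD
    have h6 := hAρ.trans (Finset.sum_le_sum fun σ (_ : σ ∈ (univ : Finset (N →+* ℂ))) => h1 σ)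
    rw [Finset.sum_add_distrib, ← Finset.mul_sum, ← Finset.mul_sum, Finset.sum_add_distrib,
      Finset.sum_const, Finset.card_univ, nsmul_eq_mul, hcardE, ← Finset.mul_sum,
      Finset.sum_comm] at h6
    have h7 : ρ * (n * D) ≤ 8 / K * (n * D + 2 * (n * D * (K * θ +
        K ^ 2 * (3 * h + ε) / (2 * θ)))) + 8 * (K : ℝ) ^ 2 * (n * (2 * D * h)) := by
      refine h6.trans ?_
      gcongr
    have h8 : 8 / K * (n * D + 2 * (n * D * (K * θ +
        K ^ 2 * (3 * h + ε) / (2 * θ)))) + 8 * (K : ℝ) ^ 2 * (n * (2 * D * h)) =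
        (n * D) * (8 / K + 16 * θ + 8 * K * (3 * h + ε) / θ + 16 * K ^ 2 * h) := by
      field_simp
      ring
    rw [h8, mul_comm ρ] at h7
    have h9 := le_of_mul_le_mul_left h7 (by positivity)
    have h10 : 8 / (K : ℝ) ≤ ρ / 2 := by
      rw [div_le_iff₀ hKp]
      linarith
    have h11 : 8 * K * (3 * h + ε) / θ ≤ 8704 / ρ ^ 2 * (3 * h + ε) := by
      have e1 : 8 * (K : ℝ) * (3 * h + ε) / θ = (512 * (K * ρ) / ρ ^ 2) * (3 * h + ε) := by
        rw [hθ]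
        field_simp
        ring
      rw [e1]
      gcongr
      linarith
    have h12 : 16 * (K : ℝ) ^ 2 * h ≤ 4624 / ρ ^ 2 * h := by
      have e1 : 16 * (K : ℝ) ^ 2 * h = (16 * (K * ρ) ^ 2 / ρ ^ 2) * h := by
        field_simp
      rw [e1]
      gcongr
      have : ((K : ℝ) * ρ) ^ 2 ≤ 17 ^ 2 := pow_le_pow_left₀ (by positivity) hK2' 2
      linarith
    have h13 : ρ / 4 ≤ 8704 / ρ ^ 2 * (3 * h + ε) + 4624 / ρ ^ 2 * h := by
      rw [hθ] at h9
      rw [← hθ] at h9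
      have : 16 * θ = ρ / 4 := by rw [hθ]; ring
      linarith
    have h14 : ρ ^ 3 / 4 ≤ 30736 * h + 8704 * ε := by
      have e1 : 8704 / ρ ^ 2 * (3 * h + ε) + 4624 / ρ ^ 2 * h = (30736 * h + 8704 * ε) / ρ ^ 2 := by
        field_simp
        ring
      rw [e1, le_div_iff₀ (by positivity)] at h13
      nlinarith
    linarith

end Main

end Pool.Agent.W5h24.RE
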