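import Pool.Agent.W5h24.RE.L

set_option autoImplicit false

/-!
# The minimal energy at a finite place
-/

namespace Pool.Agent.W5h24.RE

open NumberField Height Module Finset IsDedekindDomain WithZero

section Abstract
variable {E : Type} [Field E] [NumberField E]

lemma exists_coord (w : FinitePlace E) (R : Subfield E) {v : E × E} (hv : v.1 ∈ R ∧ v.2 ∈ R) :
    ∃ x ∈ R, w x = nv w v := by
  rcases le_total (w v.1) (w v.2) with h | h
  · exact ⟨v.2, hv.2, (max_eq_right h).symm⟩
  · exact ⟨v.1, hv.1, (max_eq_left h).symm⟩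

lemma small_ratio (w : FinitePlace E) (R : Subfield E) {π : E}
    (hπ : ∀ t ∈ R, w t < 1 → w t ≤ w π) {v : E × E} (hv : v.1 ∈ R ∧ v.2 ∈ R) {ρ : E} (hρ : ρ ∈ R)
    (h : w ρ < nv w v) : w ρ ≤ w π * nv w v := by
  obtain ⟨x, hx, hxv⟩ := exists_coord w R hv
  rw [← hxv] at h ⊢
  have hx0 : 0 < w x := (apply_nonneg w ρ).trans_lt h
  have h1 := hπ (ρ / x) (div_mem hρ hx) (by rwa [map_div₀, div_lt_one hx0])
  rwa [map_div₀, div_le_iff₀ hx0] at h1

omit [NumberField E] in
lemma act_mem (R : Subfield E) {a b c d : E} (ha : a ∈ R) (hb : b ∈ R) (hc : c ∈ R) (hd : d ∈ R)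
    {v : E × E} (hv : v.1 ∈ R ∧ v.2 ∈ R) : (act a b c d v).1 ∈ R ∧ (act a b c d v).2 ∈ R :=
  ⟨add_mem (mul_mem ha hv.1) (mul_mem hb hv.2), add_mem (mul_mem hc hv.1) (mul_mem hd hv.2)⟩

/-- the matrix which moves towards a point -/
lemma descent_matrix (w : FinitePlace E) (R : Subfield E) {π : E} (hπR : π ∈ R) (hπ0 : π ≠ 0)
    (hπ1 : w π < 1) (hπ : ∀ t ∈ R, w t < 1 → w t ≤ w π) {u₀ : E × E} (hu₀ : u₀.1 ∈ R ∧ u₀.2 ∈ R)
    (h0 : u₀ ≠ 0) :
    ∃ a ∈ R, ∃ b ∈ R, ∃ c ∈ R, ∃ d ∈ R, a * d - b * c ≠ 0 ∧ w (a * d - b * c) = (w π)⁻¹ ∧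
      (∀ v : E × E, nv w (act a b c d v) ≤ (w π)⁻¹ * nv w v) ∧
      (∀ v : E × E, v.1 ∈ R ∧ v.2 ∈ R → w (wd v u₀) < nv w v * nv w u₀ →
        nv w (act a b c d v) ≤ nv w v) := by
  have hwπ : 0 < w π := FinitePlace.pos_iff.2 hπ0
  have hinv : 1 ≤ (w π)⁻¹ := (one_le_inv₀ hwπ).2 hπ1.le
  have hn0 : 0 < nv w u₀ := nv_pos w h0
  rcases le_or_gt (w u₀.1) (w u₀.2) with h | h
  · have hnv : nv w u₀ = w u₀.2 := max_eq_right h
    have hs0 : 0 < w u₀.2 := hnv ▸ hn0
    have hs : u₀.2 ≠ 0 := FinitePlace.pos_iff.1 hs0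
    set s : E := u₀.1 / u₀.2 with hsdef
    have hsR : s ∈ R := div_mem hu₀.1 hu₀.2
    have hs1 : w s ≤ 1 := by rwa [hsdef, map_div₀, div_le_one hs0]
    refine ⟨π⁻¹, inv_mem hπR, -(π⁻¹ * s), neg_mem (mul_mem (inv_mem hπR) hsR), 0, zero_mem _, 1,
      one_mem _, ?_, ?_, fun v => ?_, fun v hv hlt => ?_⟩
    · simpa using hπ0
    · rw [mul_one, mul_zero, sub_zero, map_inv₀]
    · refine nv_act_le w _ _ _ _ (by rw [map_inv₀]) ?_ ?_ ?_ v
      · rw [map_neg_eq_map, map_mul, map_inv₀]
        calc (w π)⁻¹ * w s ≤ (w π)⁻¹ * 1 := by gcongr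
          _ = _ := mul_one _
      · rw [map_zero]
        exact inv_nonneg.2 hwπ.le
      · rw [map_one]
        exact hinv
    · have e1 : wd v u₀ = (v.1 - s * v.2) * u₀.2 := by
        unfold wd
        rw [sub_mul, hsdef]
        field_simp
      rw [e1, map_mul, hnv] at hlt
      have h1 : w (v.1 - s * v.2) < nv w v := lt_of_mul_lt_mul_right hlt hs0.le
      have h2 := small_ratio w R hπ hv (sub_mem hv.1 (mul_mem hsR hv.2)) h1
      have e2 : act π⁻¹ (-(π⁻¹ * s)) 0 1 v = (π⁻¹ * (v.1 - s * v.2), v.2) := by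
        simp only [act]
        ext <;> ring
      rw [e2]
      refine max_le ?_ (le_max_right _ _)
      simp only
      rw [map_mul, map_inv₀, inv_mul_le_iff₀ hwπ]
      exact h2
  · have hnv : nv w u₀ = w u₀.1 := max_eq_left h.le
    have hs0 : 0 < w u₀.1 := hnv ▸ hn0
    have hs : u₀.1 ≠ 0 := FinitePlace.pos_iff.1 hs0
    set s : E := u₀.2 / u₀.1 with hsdef
    have hsR : s ∈ R := div_mem hu₀.2 hu₀.1
    have hs1 : w s ≤ 1 := by
      rw [hsdef, map_div₀, div_le_one hs0]
      exact h.le
    refine ⟨-(π⁻¹ * s), neg_mem (mul_mem (inv_mem hπR) hsR), π⁻¹, inv_mem hπR, 1, one_mem _, 0,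
      zero_mem _, ?_, ?_, fun v => ?_, fun v hv hlt => ?_⟩
    · simpa using hπ0
    · rw [mul_one, mul_zero, zero_sub, map_neg_eq_map, map_inv₀]
    · refine nv_act_le w _ _ _ _ ?_ (by rw [map_inv₀]) ?_ ?_ v
      · rw [map_neg_eq_map, map_mul, map_inv₀]
        calc (w π)⁻¹ * w s ≤ (w π)⁻¹ * 1 := by gcongr
          _ = _ := mul_one _
      · rw [map_one]
        exact hinv
      · rw [map_zero]
        exact inv_nonneg.2 hwπ.le
    · have e1 : wd v u₀ = -((v.2 - s * v.1) * u₀.1) := by
        unfold wd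
        rw [sub_mul, hsdef]
        field_simp
        ring
      rw [e1, map_neg_eq_map, map_mul, hnv] at hlt
      have h1 : w (v.2 - s * v.1) < nv w v := lt_of_mul_lt_mul_right hlt hs0.le
      have h2 := small_ratio w R hπ hv (sub_mem hv.2 (mul_mem hsR hv.1)) h1
      have e2 : act (-(π⁻¹ * s)) π⁻¹ 1 0 v = (π⁻¹ * (v.2 - s * v.1), v.1) := by
        simp only [act]
        ext <;> ring
      rw [e2]
      refine max_le ?_ (le_max_left _ _)
      simp only
      rw [map_mul, map_inv₀, inv_mul_le_iff₀ hwπ]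
      exact h2

variable {J : Type} [Fintype J] [DecidableEq J]

/-- a lower bound for the energy at the vertices holds everywhere -/
theorem En_ge (w : FinitePlace E) (R : Subfield E) {π : E} (hπR : π ∈ R) (hπ0 : π ≠ 0)
    (hπ1 : w π < 1) (hπ : ∀ t ∈ R, w t < 1 → w t ≤ w π) (hJ : 2 ≤ Fintype.card J) (B : ℝ)
    (hB : ∀ u : J → E × E, (∀ j, (u j).1 ∈ R ∧ (u j).2 ∈ R) →
      (∀ i j, i ≠ j → wd (u i) (u j) ≠ 0) → B ≤ En w u)
    (u : J → E × E) (hu : ∀ j, (u j).1 ∈ R ∧ (u j).2 ∈ R)
    (hne : ∀ i j, i ≠ j → wd (u i) (u j) ≠ 0) (a b c d : E) (hdet : a * d - b * c ≠ 0) :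
    B ≤ En w (fun j => act a b c d (u j)) := by
  classical
  have hwπ : 0 < w π := FinitePlace.pos_iff.2 hπ0
  have hℓ : 0 < -Real.log (w π) := by
    have := Real.log_neg hwπ hπ1
    linarith
  have key : ∀ n : ℕ, ∀ u : J → E × E, (∀ j, (u j).1 ∈ R ∧ (u j).2 ∈ R) →
      (∀ i j, i ≠ j → wd (u i) (u j) ≠ 0) → En w u ≤ n * (-Real.log (w π)) →
      ∀ a b c d : E, a * d - b * c ≠ 0 → B ≤ En w (fun j => act a b c d (u j)) := by
    intro n
    induction n with
    | zero =>
      intro u hu hne hn a b c d hdet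
      refine (hB u hu hne).trans (En_median w u hne hJ ?_ a b c d hdet)
      intro T hT
      by_contra hcon
      exfalso
      obtain ⟨i, hi, j, hj, hij⟩ := Finset.one_lt_card.1 (show 1 < T.card by omega)
      have h1 := hT i hi j hj hij
      have h2 : 0 < En w u := by
        have h3 : 0 < Real.log (nv w (u i)) + Real.log (nv w (u j)) -
            Real.log (w (wd (u i) (u j))) := by
          have h4 := Real.log_lt_log (FinitePlace.pos_iff.2 (hne i j hij)) h1
          rw [Real.log_mul (nv_pos w (ne_left (hne i j hij))).ne'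
            (nv_pos w (ne_right (hne i j hij))).ne'] at h4
          linarith
        unfold En
        refine lt_of_lt_of_le h3 ?_
        have h5 : ∀ i, 0 ≤ ∑ j ∈ univ.erase i, (Real.log (nv w (u i)) + Real.log (nv w (u j)) -
            Real.log (w (wd (u i) (u j)))) := fun i => Finset.sum_nonneg fun j hj =>
          term_nonneg w (hne _ _ (Finset.ne_of_mem_erase hj).symm)
        refine le_trans ?_ (Finset.single_le_sum (f := fun i => ∑ j ∈ univ.erase i,
          (Real.log (nv w (u i)) + Real.log (nv w (u j)) - Real.log (w (wd (u i) (u j)))))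
          (fun i _ => h5 i) (mem_univ i))
        exact Finset.single_le_sum (f := fun j => Real.log (nv w (u i)) + Real.log (nv w (u j)) -
          Real.log (w (wd (u i) (u j)))) (fun j hj =>
          term_nonneg w (hne _ _ (Finset.ne_of_mem_erase hj).symm))
          (mem_erase.2 ⟨hij.symm, mem_univ j⟩)
      simp only [Nat.cast_zero, zero_mul] at hn
      linarith
    | succ n ih =>
      intro u hu hne hn a b c d hdet
      by_cases hmed : ∀ T : Finset J, (∀ i ∈ T, ∀ j ∈ T, i ≠ j → w (wd (u i) (u j)) <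
        nv w (u i) * nv w (u j)) → 2 * T.card ≤ Fintype.card J
      · exact (hB u hu hne).trans (En_median w u hne hJ hmed a b c d hdet)
      push Not at hmed
      obtain ⟨T, hT, hTc⟩ := hmed
      obtain ⟨j₀, hj₀⟩ := Finset.card_pos.1 (show 0 < T.card by omega)
      have hnz : ∀ j, u j ≠ 0 := by
        intro j
        obtain ⟨i, hi⟩ := Fintype.exists_ne_of_one_lt_card (show 1 < Fintype.card J by omega) j
        exact ne_left (hne j i hi.symm)
      obtain ⟨a', ha', b', hb', c', hc', d', hd', hdet', hw', hall, hcl⟩ :=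
        descent_matrix w R hπR hπ0 hπ1 hπ (hu j₀) (hnz j₀)
      set u' : J → E × E := fun j => act a' b' c' d' (u j) with hu'
      have hne' : ∀ i j, i ≠ j → wd (u' i) (u' j) ≠ 0 := by
        intro i j hij
        rw [hu']
        simp only
        rw [wd_act]
        exact mul_ne_zero hdet' (hne i j hij)
      have hnz' : ∀ j, u' j ≠ 0 := by
        intro j
        obtain ⟨i, hi⟩ := Fintype.exists_ne_of_one_lt_card (show 1 < Fintype.card J by omega) j
        exact ne_left (hne' j i hi.symm)
      have hEn := En_act w u hne a' b' c' d' hdet'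
      rw [hw', Real.log_inv] at hEn
      -- the norms
      have hterm : ∀ j, Real.log (nv w (u' j)) - Real.log (nv w (u j)) ≤
          if j ∈ T then 0 else -Real.log (w π) := by
        intro j
        have hp := nv_pos w (hnz j)
        have hp' := nv_pos w (hnz' j)
        split_ifs with hj
        · have h1 : nv w (u' j) ≤ nv w (u j) := by
            refine hcl (u j) (hu j) ?_
            by_cases hjj : j = j₀
            · rw [hjj]
              have h2 : wd (u j₀) (u j₀) = 0 := by
                unfold wd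
                ring
              rw [h2, map_zero]
              exact mul_pos (nv_pos w (hnz j₀)) (nv_pos w (hnz j₀))
            · exact hT j hj j₀ hj₀ hjj
          have := Real.log_le_log hp' h1
          linarith
        · have h1 := Real.log_le_log hp' (hall (u j))
          rw [Real.log_mul (inv_ne_zero hwπ.ne') hp.ne', Real.log_inv] at h1
          linarith
      have hsum := Finset.sum_le_sum fun j (_ : j ∈ (univ : Finset J)) => hterm j
      have hsum2 : ∑ j : J, (if j ∈ T then 0 else -Real.log (w π)) =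
          (Fintype.card J - T.card) * (-Real.log (w π)) := by
        have h1 : ∀ j : J, (if j ∈ T then 0 else -Real.log (w π)) =
            -Real.log (w π) + if j ∈ T then Real.log (w π) else 0 := by
          intro j
          split_ifs <;> ring
        rw [Finset.sum_congr rfl fun j _ => h1 j, Finset.sum_add_distrib, Finset.sum_const,
          Finset.card_univ, nsmul_eq_mul, Finset.sum_ite_mem, Finset.univ_inter, Finset.sum_const,
          nsmul_eq_mul]
        ring
      rw [hsum2] at hsum
      have hTr : (Fintype.card J : ℝ) + 1 ≤ 2 * T.card := by exact_mod_cast hTc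
      have hD1 : (1 : ℝ) ≤ ((Fintype.card J - 1 : ℕ) : ℝ) := by
        exact_mod_cast (by omega : 1 ≤ Fintype.card J - 1)
      have hdrop : En w u' ≤ En w u - (-Real.log (w π)) := by
        rw [hEn]
        set ℓ := -Real.log (w π) with hℓdef
        have h1 : 2 * ∑ j, (Real.log (nv w (u' j)) - Real.log (nv w (u j))) -
            Fintype.card J * ℓ ≤ -ℓ := by nlinarith
        have h2 : ((Fintype.card J - 1 : ℕ) : ℝ) *
            (2 * ∑ j, (Real.log (nv w (u' j)) - Real.log (nv w (u j))) -
            Fintype.card J * ℓ) ≤ ((Fintype.card J - 1 : ℕ) : ℝ) * (-ℓ) := by gcongr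
        have h3 : ((Fintype.card J - 1 : ℕ) : ℝ) * (-ℓ) ≤ 1 * (-ℓ) := by
          nlinarith
        linarith
      have h5 := ih u' (fun j => act_mem R ha' hb' hc' hd' (hu j)) hne' (by
        push_cast at hn
        linarith)
        ((a * d' - b * c') / (a' * d' - b' * c')) ((b * a' - a * b') / (a' * d' - b' * c'))
        ((c * d' - d * c') / (a' * d' - b' * c')) ((d * a' - c * b') / (a' * d' - b' * c')) (by
          have e1 : (a * d' - b * c') / (a' * d' - b' * c') *
              ((d * a' - c * b') / (a' * d' - b' * c')) -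
              (b * a' - a * b') / (a' * d' - b' * c') * ((c * d' - d * c') /
              (a' * d' - b' * c')) = (a * d - b * c) / (a' * d' - b' * c') := by
            rw [div_mul_div_comm, div_mul_div_comm, ← sub_div,
              div_eq_div_iff (mul_ne_zero hdet' hdet') hdet']
            ring
          rw [e1]
          exact div_ne_zero hdet hdet')
      have h6 : (fun j => act ((a * d' - b * c') / (a' * d' - b' * c'))
          ((b * a' - a * b') / (a' * d' - b' * c'))
          ((c * d' - d * c') / (a' * d' - b' * c'))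
          ((d * a' - c * b') / (a' * d' - b' * c')) (u' j)) = fun j => act a b c d (u j) := by
        funext j
        rw [hu']
        simp only [act]
        ext
        · simp only
          rw [div_mul_eq_mul_div, div_mul_eq_mul_div, ← add_div, div_eq_iff hdet']
          ring
        · simp only
          rw [div_mul_eq_mul_div, div_mul_eq_mul_div, ← add_div, div_eq_iff hdet']
          ring
      rw [h6] at h5
      exact h5
  obtain ⟨n, hn⟩ := exists_nat_ge (En w u / (-Real.log (w π)))
  exact key n u hu hne (by rwa [div_le_iff₀ hℓ] at hn) a b c d hdet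

/-- the energy at a vertex -/
theorem vertex_bound (w : FinitePlace E) (R : Subfield E) {p q e : ℕ} (hp0 : p ≠ 0)
    (H1 : ∀ t ∈ R, w t < 1 → w t ^ e ≤ w (p : E)) (hp : w (p : E) < 1)
    {C : Type} [Fintype C] (hC : Fintype.card C ≤ q) (c : E → C)
    (hc : ∀ s ∈ R, ∀ t ∈ R, w s ≤ 1 → w t ≤ 1 → c s = c t → w (s - t) < 1)
    (u : J → E × E) (hu : ∀ j, (u j).1 ∈ R ∧ (u j).2 ∈ R)
    (hne : ∀ i j, i ≠ j → wd (u i) (u j) ≠ 0) :
    -Real.log (w (p : E)) * ((Fintype.card J : ℝ) ^ 2 / (q + 1) - Fintype.card J) ≤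
      e * En w u := by
  classical
  have hpE : (p : E) ≠ 0 := by exact_mod_cast hp0
  have hwp : 0 < w (p : E) := FinitePlace.pos_iff.2 hpE
  have hℓ : 0 ≤ -Real.log (w (p : E)) := by
    have := Real.log_nonpos hwp.le hp.le
    linarith
  set col : J → Option C := fun j =>
    if w (u j).1 ≤ w (u j).2 then some (c ((u j).1 / (u j).2)) else none with hcol
  have hclose : ∀ i j, i ≠ j → col i = col j →
      w (wd (u i) (u j)) < nv w (u i) * nv w (u j) := by
    intro i j hij h
    have hni := nv_pos w (ne_left (hne i j hij))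
    have hnj := nv_pos w (ne_right (hne i j hij))
    rw [hcol] at h
    simp only at h
    by_cases h1 : w (u i).1 ≤ w (u i).2
    · rw [if_pos h1] at h
      by_cases h2 : w (u j).1 ≤ w (u j).2
      · rw [if_pos h2] at h
        have hi : nv w (u i) = w (u i).2 := max_eq_right h1
        have hj : nv w (u j) = w (u j).2 := max_eq_right h2
        rw [hi] at hni ⊢
        rw [hj] at hnj ⊢
        have hi0 : (u i).2 ≠ 0 := FinitePlace.pos_iff.1 hni
        have hj0 : (u j).2 ≠ 0 := FinitePlace.pos_iff.1 hnj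
        have h3 := hc _ (div_mem (hu i).1 (hu i).2) _ (div_mem (hu j).1 (hu j).2)
          (by rwa [map_div₀, div_le_one hni]) (by rwa [map_div₀, div_le_one hnj])
          (Option.some.inj h)
        have h4 : wd (u i) (u j) = ((u i).1 / (u i).2 - (u j).1 / (u j).2) *
            ((u i).2 * (u j).2) := by
          unfold wd
          field_simp
        rw [h4, map_mul, map_mul]
        calc w ((u i).1 / (u i).2 - (u j).1 / (u j).2) * (w (u i).2 * w (u j).2) <
            1 * (w (u i).2 * w (u j).2) := mul_lt_mul_of_pos_right h3 (mul_pos hni hnj)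
          _ = _ := one_mul _
      · rw [if_neg h2] at h
        exact absurd h (Option.some_ne_none _)
    · rw [if_neg h1] at h
      by_cases h2 : w (u j).1 ≤ w (u j).2
      · rw [if_pos h2] at h
        exact absurd h.symm (Option.some_ne_none _)
      · have h1' := not_le.1 h1
        have h2' := not_le.1 h2
        have hi : nv w (u i) = w (u i).1 := max_eq_left h1'.le
        have hj : nv w (u j) = w (u j).1 := max_eq_left h2'.le
        rw [hi] at hni ⊢
        rw [hj] at hnj ⊢
        unfold wd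
        refine lt_of_le_of_lt (w_sub_le w _ _) (max_lt ?_ ?_)
        · rw [map_mul]
          exact mul_lt_mul_of_pos_left h2' hni
        · rw [map_mul]
          exact mul_lt_mul_of_pos_right h1' hnj
  have hterm : ∀ i, ∀ j ∈ univ.erase i, (if col i = col j then (1 : ℝ) else 0) *
      (-Real.log (w (p : E))) ≤ e * (Real.log (nv w (u i)) + Real.log (nv w (u j)) -
        Real.log (w (wd (u i) (u j)))) := by
    intro i j hj
    have hij : i ≠ j := (Finset.ne_of_mem_erase hj).symm
    have hw0 := hne i j hij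
    split_ifs with h
    · have hlt := hclose i j hij h
      have hni := nv_pos w (ne_left hw0)
      have hnj := nv_pos w (ne_right hw0)
      obtain ⟨x, hx, hxi⟩ := exists_coord w R (hu i)
      obtain ⟨y, hy, hyj⟩ := exists_coord w R (hu j)
      rw [← hxi] at hlt hni ⊢
      rw [← hyj] at hlt hnj ⊢
      have hmem : wd (u i) (u j) / (x * y) ∈ R :=
        div_mem (sub_mem (mul_mem (hu i).1 (hu j).2) (mul_mem (hu i).2 (hu j).1)) (mul_mem hx hy)
      have h1 : w (wd (u i) (u j) / (x * y)) < 1 := by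
        rw [map_div₀, map_mul, div_lt_one (mul_pos hni hnj)]
        exact hlt
      have h2 := H1 _ hmem h1
      rw [map_div₀, map_mul] at h2
      have hwd : 0 < w (wd (u i) (u j)) := FinitePlace.pos_iff.2 hw0
      have h3 := Real.log_le_log (pow_pos (div_pos hwd (mul_pos hni hnj)) e) h2
      rw [Real.log_pow, Real.log_div hwd.ne' (mul_pos hni hnj).ne',
        Real.log_mul hni.ne' hnj.ne'] at h3
      rw [one_mul]
      linarith
    · rw [zero_mul]
      exact mul_nonneg (Nat.cast_nonneg _) (term_nonneg w hw0)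
  have h1 : (∑ i, ∑ j ∈ univ.erase i, (if col i = col j then (1 : ℝ) else 0)) *
      (-Real.log (w (p : E))) ≤ e * En w u := by
    unfold En
    rw [Finset.sum_mul, Finset.mul_sum]
    refine Finset.sum_le_sum fun i _ => ?_
    rw [Finset.sum_mul, Finset.mul_sum]
    exact Finset.sum_le_sum (hterm i)
  have h2 := count_pairs col
  have h3 : (Fintype.card (Option C) : ℝ) ≤ q + 1 := by
    rw [Fintype.card_option]
    push_cast
    have : (Fintype.card C : ℝ) ≤ q := by exact_mod_cast hC
    linarith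
  set S : ℝ := ∑ i, ∑ j ∈ univ.erase i, (if col i = col j then (1 : ℝ) else 0) with hS
  have hS0 : 0 ≤ S := Finset.sum_nonneg fun i _ => Finset.sum_nonneg fun j _ => by
    split_ifs <;> norm_num
  have h4 : (Fintype.card J : ℝ) ^ 2 / (q + 1) - Fintype.card J ≤ S := by
    have h5 : (Fintype.card J : ℝ) ^ 2 ≤ (q + 1) * (S + Fintype.card J) :=
      h2.trans (by gcongr)
    have hq : (0 : ℝ) < q + 1 := by positivity
    have h6 : (Fintype.card J : ℝ) ^ 2 / (q + 1) ≤ S + Fintype.card J := by
      rw [div_le_iff₀ hq]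
      linarith
    linarith
  calc -Real.log (w (p : E)) * ((Fintype.card J : ℝ) ^ 2 / (q + 1) - Fintype.card J) ≤
      -Real.log (w (p : E)) * S := by gcongr
    _ = S * (-Real.log (w (p : E))) := mul_comm _ _
    _ ≤ _ := h1

end Abstract

section
variable {M E : Type} [Field M] [NumberField M] [Field E] [NumberField E] [Algebra M E]
variable {J : Type} [Fintype J] [DecidableEq J]

lemma exists_unif (w : FinitePlace E) : ∃ π ∈ (algebraMap M E).fieldRange, π ≠ 0 ∧ w π < 1 ∧
    ∀ t ∈ (algebraMap M E).fieldRange, w t < 1 → w t ≤ w π := by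
  set v := below M w with hv
  obtain ⟨π₀, hπ₀⟩ := v.valuation_exists_uniformizer M
  have h0 : π₀ ≠ 0 := by
    rintro rfl
    rw [map_zero] at hπ₀
    exact exp_ne_zero hπ₀.symm
  have hlt : v.valuation M π₀ < 1 := by
    rw [hπ₀, ← exp_zero, exp_lt_exp]
    norm_num
  have hπE : algebraMap M E π₀ ≠ 0 := (map_ne_zero _).2 h0
  refine ⟨algebraMap M E π₀, ⟨π₀, rfl⟩, hπE, (below_lt_one w π₀).2 hlt, ?_⟩
  rintro t ⟨m, rfl⟩ ht
  have h1 : v.valuation M m ≤ v.valuation M π₀ := by
    have h2 := (below_lt_one w m).1 ht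
    rcases eq_or_ne m 0 with hm | hm
    · rw [hm, map_zero]
      exact zero_le
    · have hm0 : v.valuation M m ≠ 0 := (map_ne_zero _).2 hm
      obtain ⟨a, ha⟩ : ∃ a : ℤ, v.valuation M m = exp a := ⟨log (v.valuation M m),
        (exp_log hm0).symm⟩
      rw [← hv, ha, ← exp_zero, exp_lt_exp] at h2
      rw [ha, hπ₀, exp_le_exp]
      omega
  have h2 : v.valuation M (m / π₀) ≤ 1 := by
    rw [map_div₀]
    exact div_le_one_of_le₀ h1 zero_le
  have h3 := (below_le_one w (m / π₀)).2 h2
  rw [map_div₀, map_div₀, div_le_one (FinitePlace.pos_iff.2 hπE)] at h3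
  exact h3

lemma exists_colour {p q e : ℕ} (hM : LocType M p q e) (w : FinitePlace E)
    (hp : w (p : E) < 1) :
    ∃ (C : Type) (_ : Fintype C), Fintype.card C ≤ q ∧ ∃ c : E → C,
      ∀ s ∈ (algebraMap M E).fieldRange, ∀ t ∈ (algebraMap M E).fieldRange, w s ≤ 1 → w t ≤ 1 →
        c s = c t → w (s - t) < 1 := by
  classical
  set v := below M w with hv
  have hmem : (p : 𝓞 M) ∈ v.asIdeal := natCast_mem_below w hp
  have hcard := (hM v.asIdeal v.isMaximal hmem).1
  have hfin : Finite (𝓞 M ⧸ v.asIdeal) := Ideal.finiteQuotientOfFreeOfNeBot _ v.ne_bot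
  have : Fintype (𝓞 M ⧸ v.asIdeal) := Fintype.ofFinite _
  have ha : ∀ s : E, ∃ a : 𝓞 M, ∀ m : M, algebraMap M E m = s → w s ≤ 1 →
      v.valuation M (algebraMap (𝓞 M) M a - m) < 1 := by
    intro s
    by_cases h : ∃ m : M, algebraMap M E m = s
    · obtain ⟨m, hm⟩ := h
      by_cases hs : w s ≤ 1
      · obtain ⟨a, ha⟩ := v.exists_valuation_sub_lt_of_integer
          ((below_le_one w m).1 (by rwa [hm])) 1
        refine ⟨a, fun m' hm' _ => ?_⟩
        have h1 : m' = m := (algebraMap M E).injective (hm'.trans hm.symm)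
        rw [h1]
        simpa using ha
      · exact ⟨0, fun m' _ h' => absurd h' hs⟩
    · exact ⟨0, fun m' hm' _ => absurd ⟨m', hm'⟩ h⟩
  choose a ha using ha
  refine ⟨𝓞 M ⧸ v.asIdeal, inferInstance, ?_, fun s => Ideal.Quotient.mk v.asIdeal (a s), ?_⟩
  · rw [← Nat.card_eq_fintype_card]
    exact hcard
  · rintro s ⟨m, hm⟩ t ⟨n, hn⟩ hs ht hst
    have hA := ha s m hm hs
    have hB := ha t n hn ht
    rw [← hm, ← hn, ← map_sub, below_lt_one]
    have h1 : v.valuation M (algebraMap (𝓞 M) M (a s - a t)) < 1 :=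
      (HeightOneSpectrum.valuation_lt_one_iff_mem _ _).2 (Ideal.Quotient.eq.1 hst)
    have h2 : m - n = algebraMap (𝓞 M) M (a s - a t) -
        ((algebraMap (𝓞 M) M (a s) - m) - (algebraMap (𝓞 M) M (a t) - n)) := by
      rw [map_sub]
      ring
    rw [h2]
    refine lt_of_le_of_lt (Valuation.map_sub _ _ _) (max_lt h1 ?_)
    exact lt_of_le_of_lt (Valuation.map_sub _ _ _) (max_lt hA hB)

/-- the energy of a projective image of points of the projective line over `M` -/
theorem local_two {p q e : ℕ} (hM : LocType M p q e) (hp0 : p ≠ 0) (he : 1 ≤ e)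
    (w : FinitePlace E) (hp : w (p : E) < 1) (hJ : 2 ≤ Fintype.card J)
    (x x' : J → M) (hx : ∀ i j, i ≠ j → wd (algebraMap M E (x i), algebraMap M E (x' i))
      (algebraMap M E (x j), algebraMap M E (x' j)) ≠ 0)
    (a b c d : E) (hdet : a * d - b * c ≠ 0) :
    -Real.log (w (p : E)) * ((Fintype.card J : ℝ) ^ 2 / (q + 1) - Fintype.card J) ≤
      e * En w (fun j => act a b c d (algebraMap M E (x j), algebraMap M E (x' j))) := by
  classical
  obtain ⟨π, hπR, hπ0, hπ1, hπ⟩ := exists_unif (M := M) w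
  obtain ⟨C, hCf, hC, col, hcol⟩ := exists_colour hM w hp
  have he' : (0 : ℝ) < e := by exact_mod_cast he
  have H1 : ∀ t ∈ (algebraMap M E).fieldRange, w t < 1 → w t ^ e ≤ w (p : E) := by
    rintro t ⟨m, rfl⟩ ht
    exact small_pow hM hp0 w hp m ht
  have h1 := En_ge w (algebraMap M E).fieldRange hπR hπ0 hπ1 hπ hJ
    (-Real.log (w (p : E)) * ((Fintype.card J : ℝ) ^ 2 / (q + 1) - Fintype.card J) / e)
    (by
      intro u hu hne
      rw [div_le_iff₀ he', mul_comm (En w u)]
      exact vertex_bound w _ hp0 H1 hp hC col hcol u hu hne)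
    (fun j => (algebraMap M E (x j), algebraMap M E (x' j)))
    (fun j => ⟨⟨x j, rfl⟩, ⟨x' j, rfl⟩⟩) hx a b c d hdet
  rw [div_le_iff₀ he', mul_comm (En w _)] at h1
  exact h1

end

end Pool.Agent.W5h24.RE
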