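import Pool.Agent.W5h24.RE.P
import Pool.Agent.W5h24.RE.C

set_option autoImplicit false

/-!
# The energy at a finite place and the tree of a subfield
-/

namespace Pool.Agent.W5h24.RE

open NumberField Height Module Finset IsDedekindDomain

section Sums
variable {J : Type} [Fintype J] [DecidableEq J]

lemma sum_pairs (r : J → ℝ) :
    ∑ i, ∑ j ∈ univ.erase i, (r i + r j) = 2 * ((Fintype.card J - 1 : ℕ) : ℝ) * ∑ j, r j := by
  have h1 : ∑ i, ∑ j ∈ univ.erase i, r i = ((Fintype.card J - 1 : ℕ) : ℝ) * ∑ j, r j := by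
    rw [Finset.mul_sum]
    refine Finset.sum_congr rfl fun i _ => ?_
    rw [Finset.sum_const, Finset.card_erase_of_mem (mem_univ i), Finset.card_univ, nsmul_eq_mul]
  have h2 : ∑ i, ∑ j ∈ univ.erase i, r j = ((Fintype.card J - 1 : ℕ) : ℝ) * ∑ j, r j := by
    rw [← h1]
    have e1 : ∀ f : J → J → ℝ, ∑ i, ∑ j ∈ univ.erase i, f i j =
        ∑ i, ∑ j, if j ≠ i then f i j else 0 := by
      intro f
      refine Finset.sum_congr rfl fun i _ => ?_
      rw [← Finset.sum_filter]
      refine Finset.sum_congr ?_ fun _ _ => rfl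
      ext j
      simp
    rw [e1, e1, Finset.sum_comm]
    refine Finset.sum_congr rfl fun i _ => Finset.sum_congr rfl fun j _ => ?_
    by_cases h : i = j
    · rw [h]
    · rw [if_pos h, if_pos (Ne.symm h)]
  simp only [Finset.sum_add_distrib]
  rw [h1, h2]
  ring

lemma sum_const_pairs (s : ℝ) : ∑ _u : J, ∑ _v ∈ univ.erase _u, s =
    Fintype.card J * ((Fintype.card J - 1 : ℕ) : ℝ) * s := by
  have h1 : ∀ u : J, ∑ _v ∈ univ.erase u, s = ((Fintype.card J - 1 : ℕ) : ℝ) * s := by
    intro u
    rw [Finset.sum_const, Finset.card_erase_of_mem (mem_univ u), Finset.card_univ, nsmul_eq_mul]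
  rw [Finset.sum_congr rfl fun u _ => h1 u, Finset.sum_const, Finset.card_univ, nsmul_eq_mul]
  ring

/-- the number of pairs of the same colour -/
lemma count_pairs {C : Type} [Fintype C] [DecidableEq C] (c : J → C) :
    (Fintype.card J : ℝ) ^ 2 ≤ Fintype.card C *
      (∑ i, ∑ j ∈ univ.erase i, (if c i = c j then (1 : ℝ) else 0) + Fintype.card J) := by
  have h1 : ∑ i, ∑ j ∈ univ.erase i, (if c i = c j then (1 : ℝ) else 0) + Fintype.card J =
      ∑ i, ∑ j, (if c i = c j then (1 : ℝ) else 0) := by
    have h2 : ∀ i, ∑ j, (if c i = c j then (1 : ℝ) else 0) =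
        ∑ j ∈ univ.erase i, (if c i = c j then (1 : ℝ) else 0) + 1 := by
      intro i
      rw [← Finset.sum_erase_add univ (fun j => if c i = c j then (1 : ℝ) else 0) (mem_univ i),
        if_pos rfl]
    rw [Finset.sum_congr rfl fun i _ => h2 i, Finset.sum_add_distrib]
    congr 1
    simp
  have h2 : ∑ i, ∑ j, (if c i = c j then (1 : ℝ) else 0) =
      ∑ t : C, (∑ i, if c i = t then (1 : ℝ) else 0) ^ 2 := by
    have h3 : ∀ t : C, (∑ i, if c i = t then (1 : ℝ) else 0) ^ 2 =
        ∑ i, ∑ j, (if c i = t then (1 : ℝ) else 0) * (if c j = t then (1 : ℝ) else 0) := by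
      intro t
      rw [sq, Finset.sum_mul_sum]
    rw [Finset.sum_congr rfl fun t _ => h3 t]
    symm
    rw [Finset.sum_comm]
    refine Finset.sum_congr rfl fun i _ => ?_
    rw [Finset.sum_comm]
    refine Finset.sum_congr rfl fun j _ => ?_
    rw [Finset.sum_eq_single (c i)]
    · rw [if_pos rfl, one_mul]
      by_cases h : c i = c j
      · rw [if_pos h, if_pos h.symm]
      · rw [if_neg h, if_neg (Ne.symm h)]
    · intro t _ ht
      rw [if_neg (Ne.symm ht), zero_mul]
    · intro h
      exact absurd (mem_univ _) h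
  have h4 : ∑ t : C, (∑ i, if c i = t then (1 : ℝ) else 0) = Fintype.card J := by
    rw [Finset.sum_comm]
    simp
  rw [h1, h2, ← h4]
  have h5 := sq_sum_le_card_mul_sum_sq (s := (univ : Finset C))
    (f := fun t => ∑ i, if c i = t then (1 : ℝ) else 0)
  rw [Finset.card_univ] at h5
  exact h5

end Sums

section
variable {E : Type} [Field E] [NumberField E]

/-- the sup norm of a vector -/
noncomputable def nv (w : FinitePlace E) (u : E × E) : ℝ := max (w u.1) (w u.2)

/-- the determinant of two vectors -/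
def wd (u v : E × E) : E := u.1 * v.2 - u.2 * v.1

/-- the action of a matrix -/
def act (a b c d : E) (u : E × E) : E × E := (a * u.1 + b * u.2, c * u.1 + d * u.2)

omit [NumberField E] in
lemma wd_act (a b c d : E) (u v : E × E) :
    wd (act a b c d u) (act a b c d v) = (a * d - b * c) * wd u v := by
  simp only [wd, act]
  ring

lemma w_sub_le (w : FinitePlace E) (x y : E) : w (x - y) ≤ max (w x) (w y) := by
  rw [sub_eq_add_neg]
  refine (FinitePlace.add_le w _ _).trans ?_
  rw [map_neg_eq_map]

lemma nv_nonneg (w : FinitePlace E) (u : E × E) : 0 ≤ nv w u :=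
  le_max_of_le_left (apply_nonneg w _)

lemma nv_pos (w : FinitePlace E) {u : E × E} (h : u ≠ 0) : 0 < nv w u := by
  by_contra hc
  have h1 := max_le_iff.1 (not_lt.1 hc)
  have h2 : u.1 = 0 := by
    by_contra h3
    exact absurd (FinitePlace.pos_iff.2 h3) (not_lt.2 h1.1)
  have h3 : u.2 = 0 := by
    by_contra h4
    exact absurd (FinitePlace.pos_iff.2 h4) (not_lt.2 h1.2)
  exact h (Prod.ext h2 h3)

omit [NumberField E] in
lemma ne_left {u v : E × E} (h : wd u v ≠ 0) : u ≠ 0 := by
  rintro rfl
  apply h
  simp [wd]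

omit [NumberField E] in
lemma ne_right {u v : E × E} (h : wd u v ≠ 0) : v ≠ 0 := by
  rintro rfl
  apply h
  simp [wd]

lemma wd_le (w : FinitePlace E) (u v : E × E) : w (wd u v) ≤ nv w u * nv w v := by
  unfold wd
  refine (w_sub_le w _ _).trans (max_le ?_ ?_)
  · rw [map_mul]
    exact mul_le_mul (le_max_left _ _) (le_max_right _ _) (apply_nonneg w _) (nv_nonneg w u)
  · rw [map_mul]
    exact mul_le_mul (le_max_right _ _) (le_max_left _ _) (apply_nonneg w _) (nv_nonneg w u)

lemma nv_act_le (w : FinitePlace E) (a b c d : E) {N : ℝ} (ha : w a ≤ N) (hb : w b ≤ N)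
    (hc : w c ≤ N) (hd : w d ≤ N) (u : E × E) : nv w (act a b c d u) ≤ N * nv w u := by
  have hN : 0 ≤ N := (apply_nonneg w a).trans ha
  have key : ∀ s t : E, w s ≤ N → w t ≤ N → w (s * u.1 + t * u.2) ≤ N * nv w u := by
    intro s t hs ht
    refine (FinitePlace.add_le w _ _).trans (max_le ?_ ?_)
    · rw [map_mul]
      exact mul_le_mul hs (le_max_left _ _) (apply_nonneg w _) hN
    · rw [map_mul]
      exact mul_le_mul ht (le_max_right _ _) (apply_nonneg w _) hN
  exact max_le (key a b ha hb) (key c d hc hd)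

variable {J : Type} [Fintype J] [DecidableEq J]

/-- the energy -/
noncomputable def En (w : FinitePlace E) (u : J → E × E) : ℝ :=
  ∑ i, ∑ j ∈ univ.erase i, (Real.log (nv w (u i)) + Real.log (nv w (u j)) -
    Real.log (w (wd (u i) (u j))))

lemma term_nonneg (w : FinitePlace E) {u v : E × E} (h : wd u v ≠ 0) :
    0 ≤ Real.log (nv w u) + Real.log (nv w v) - Real.log (w (wd u v)) := by
  have h1 := Real.log_le_log (FinitePlace.pos_iff.2 h) (wd_le w u v)
  rw [Real.log_mul (nv_pos w (ne_left h)).ne' (nv_pos w (ne_right h)).ne'] at h1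
  linarith

lemma En_nonneg (w : FinitePlace E) (u : J → E × E) (hu : ∀ i j, i ≠ j → wd (u i) (u j) ≠ 0) :
    0 ≤ En w u :=
  Finset.sum_nonneg fun _ _ => Finset.sum_nonneg fun _ hj =>
    term_nonneg w (hu _ _ (Finset.ne_of_mem_erase hj).symm)

lemma En_act (w : FinitePlace E) (u : J → E × E) (hu : ∀ i j, i ≠ j → wd (u i) (u j) ≠ 0)
    (a b c d : E) (hdet : a * d - b * c ≠ 0) :
    En w (fun j => act a b c d (u j)) = En w u + ((Fintype.card J - 1 : ℕ) : ℝ) *
      (2 * ∑ j, (Real.log (nv w (act a b c d (u j))) - Real.log (nv w (u j))) -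
        Fintype.card J * Real.log (w (a * d - b * c))) := by
  set r : J → ℝ := fun j => Real.log (nv w (act a b c d (u j))) - Real.log (nv w (u j)) with hr
  have h1 : ∀ i, ∀ j ∈ univ.erase i, Real.log (nv w (act a b c d (u i))) +
      Real.log (nv w (act a b c d (u j))) -
      Real.log (w (wd (act a b c d (u i)) (act a b c d (u j)))) =
      (Real.log (nv w (u i)) + Real.log (nv w (u j)) - Real.log (w (wd (u i) (u j)))) +
      ((r i + r j) - Real.log (w (a * d - b * c))) := by
    intro i j hj
    rw [wd_act, map_mul, Real.log_mul (FinitePlace.pos_iff.2 hdet).ne'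
      (FinitePlace.pos_iff.2 (hu i j (Finset.ne_of_mem_erase hj).symm)).ne', hr]
    simp only
    ring
  unfold En
  rw [Finset.sum_congr rfl fun i _ => Finset.sum_congr rfl (h1 i)]
  simp only [Finset.sum_add_distrib, Finset.sum_sub_distrib]
  have h2 := sum_pairs r
  simp only [Finset.sum_add_distrib] at h2
  rw [h2, sum_const_pairs]
  ring

/-- a matrix does not decrease the energy if no residue class contains more than half of the
points -/
lemma En_median (w : FinitePlace E) (u : J → E × E) (hu : ∀ i j, i ≠ j → wd (u i) (u j) ≠ 0)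
    (hJ : 2 ≤ Fintype.card J)
    (hmed : ∀ T : Finset J, (∀ i ∈ T, ∀ j ∈ T, i ≠ j → w (wd (u i) (u j)) <
      nv w (u i) * nv w (u j)) → 2 * T.card ≤ Fintype.card J)
    (a b c d : E) (hdet : a * d - b * c ≠ 0) :
    En w u ≤ En w (fun j => act a b c d (u j)) := by
  classical
  rw [En_act w u hu a b c d hdet]
  have hne : ∀ j, u j ≠ 0 := by
    intro j
    obtain ⟨i, hi⟩ := Fintype.exists_ne_of_one_lt_card (show 1 < Fintype.card J by omega) j
    exact ne_left (hu j i hi.symm)
  have hpos : ∀ j, 0 < nv w (u j) := fun j => nv_pos w (hne j)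
  set N : ℝ := max (max (w a) (w b)) (max (w c) (w d)) with hN
  have ha : w a ≤ N := (le_max_left _ _).trans (le_max_left _ _)
  have hb : w b ≤ N := (le_max_right _ _).trans (le_max_left _ _)
  have hc : w c ≤ N := (le_max_left _ _).trans (le_max_right _ _)
  have hd : w d ≤ N := (le_max_right _ _).trans (le_max_right _ _)
  have hΔ : 0 < w (a * d - b * c) := FinitePlace.pos_iff.2 hdet
  have hNN : w (a * d - b * c) ≤ N * N := by
    refine (w_sub_le w _ _).trans (max_le ?_ ?_)
    · rw [map_mul]
      exact mul_le_mul ha hd (apply_nonneg w _) ((apply_nonneg w a).trans ha)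
    · rw [map_mul]
      exact mul_le_mul hb hc (apply_nonneg w _) ((apply_nonneg w a).trans ha)
  have hN0 : 0 < N := by
    have h0 : 0 ≤ N := (apply_nonneg w a).trans ha
    rcases h0.lt_or_eq with h | h
    · exact h
    · exfalso
      rw [← h, mul_zero] at hNN
      linarith
  -- the lower bound for the norm
  have hlow : ∀ v : E × E, w (a * d - b * c) * nv w v ≤ N * nv w (act a b c d v) := by
    intro v
    have h1 : nv w (act d (-b) (-c) a (act a b c d v)) ≤ N * nv w (act a b c d v) :=
      nv_act_le w d (-b) (-c) a hd (by rwa [map_neg_eq_map]) (by rwa [map_neg_eq_map]) ha _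
    have h2 : act d (-b) (-c) a (act a b c d v) = ((a * d - b * c) * v.1, (a * d - b * c) * v.2) := by
      simp only [act]
      ext <;> ring
    rw [h2] at h1
    have h3 : nv w ((a * d - b * c) * v.1, (a * d - b * c) * v.2) = w (a * d - b * c) * nv w v := by
      unfold nv
      simp only [map_mul]
      rw [mul_max_of_nonneg _ _ (apply_nonneg w _)]
    rwa [h3] at h1
  have hactpos : ∀ j, 0 < nv w (act a b c d (u j)) := by
    intro j
    have h1 := hlow (u j)
    have h2 : 0 < w (a * d - b * c) * nv w (u j) := mul_pos hΔ (hpos j)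
    by_contra hcon
    have h3 : N * nv w (act a b c d (u j)) ≤ 0 :=
      mul_nonpos_of_nonneg_of_nonpos hN0.le (not_lt.1 hcon)
    linarith
  -- the contracted points
  set T : Finset J := univ.filter fun j => nv w (act a b c d (u j)) < N * nv w (u j) with hT
  have hTcard : 2 * T.card ≤ Fintype.card J := by
    refine hmed T ?_
    intro i hi j hj hij
    have hi' := (mem_filter.1 hi).2
    have hj' := (mem_filter.1 hj).2
    -- a row of maximal norm
    have hrow : ∀ s t : E, max (w s) (w t) = N → w (s * (u i).1 + t * (u i).2) < N * nv w (u i) →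
        w (s * (u j).1 + t * (u j).2) < N * nv w (u j) →
        w (wd (u i) (u j)) < nv w (u i) * nv w (u j) := by
      intro s t hst h1 h2
      have e1 : s * wd (u i) (u j) = (s * (u i).1 + t * (u i).2) * (u j).2 -
          (s * (u j).1 + t * (u j).2) * (u i).2 := by
        unfold wd
        ring
      have e2 : t * wd (u i) (u j) = (s * (u j).1 + t * (u j).2) * (u i).1 -
          (s * (u i).1 + t * (u i).2) * (u j).1 := by
        unfold wd
        ring
      have f1 : ∀ x : E, w x ≤ nv w (u j) →
          w ((s * (u i).1 + t * (u i).2) * x) < N * (nv w (u i) * nv w (u j)) := by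
        intro x hx
        rw [map_mul]
        calc w (s * (u i).1 + t * (u i).2) * w x ≤ w (s * (u i).1 + t * (u i).2) * nv w (u j) := by
              gcongr
          _ < N * nv w (u i) * nv w (u j) := mul_lt_mul_of_pos_right h1 (hpos j)
          _ = _ := mul_assoc _ _ _
      have f2 : ∀ x : E, w x ≤ nv w (u i) →
          w ((s * (u j).1 + t * (u j).2) * x) < N * (nv w (u i) * nv w (u j)) := by
        intro x hx
        rw [map_mul]
        calc w (s * (u j).1 + t * (u j).2) * w x ≤ w (s * (u j).1 + t * (u j).2) * nv w (u i) := by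
              gcongr
          _ < N * nv w (u j) * nv w (u i) := mul_lt_mul_of_pos_right h2 (hpos i)
          _ = _ := by ring
      have g1 : w s * w (wd (u i) (u j)) < N * (nv w (u i) * nv w (u j)) := by
        rw [← map_mul, e1]
        exact lt_of_le_of_lt (w_sub_le w _ _)
          (max_lt (f1 _ (le_max_right _ _)) (f2 _ (le_max_right _ _)))
      have g2 : w t * w (wd (u i) (u j)) < N * (nv w (u i) * nv w (u j)) := by
        rw [← map_mul, e2]
        exact lt_of_le_of_lt (w_sub_le w _ _)
          (max_lt (f2 _ (le_max_left _ _)) (f1 _ (le_max_left _ _)))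
      have g3 : N * w (wd (u i) (u j)) < N * (nv w (u i) * nv w (u j)) := by
        rw [← hst, max_mul_of_nonneg _ _ (apply_nonneg w _), hst]
        exact max_lt g1 g2
      exact lt_of_mul_lt_mul_left g3 hN0.le
    rcases le_total (max (w c) (w d)) (max (w a) (w b)) with h | h
    · refine hrow a b (max_eq_left h).symm ?_ ?_
      · exact lt_of_le_of_lt (le_max_left _ _) hi'
      · exact lt_of_le_of_lt (le_max_left _ _) hj'
    · refine hrow c d (max_eq_right h).symm ?_ ?_
      · exact lt_of_le_of_lt (le_max_right _ _) hi'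
      · exact lt_of_le_of_lt (le_max_right _ _) hj'
  -- the sum
  set ν : ℝ := Real.log N with hν
  set Δ : ℝ := Real.log (w (a * d - b * c)) with hΔdef
  have hΔν : Δ ≤ 2 * ν := by
    have h1 := Real.log_le_log hΔ hNN
    rw [Real.log_mul hN0.ne' hN0.ne'] at h1
    linarith
  have hterm : ∀ j, (if j ∈ T then Δ - ν else ν) ≤
      Real.log (nv w (act a b c d (u j))) - Real.log (nv w (u j)) := by
    intro j
    split_ifs with hj
    · have h1 := Real.log_le_log (mul_pos hΔ (hpos j)) (hlow (u j))
      rw [Real.log_mul hΔ.ne' (hpos j).ne', Real.log_mul hN0.ne' (hactpos j).ne'] at h1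
      linarith
    · have h1 : N * nv w (u j) ≤ nv w (act a b c d (u j)) := by
        by_contra hcon
        exact hj (mem_filter.2 ⟨mem_univ _, not_le.1 hcon⟩)
      have h2 := Real.log_le_log (mul_pos hN0 (hpos j)) h1
      rw [Real.log_mul hN0.ne' (hpos j).ne'] at h2
      linarith
  have hsum := Finset.sum_le_sum fun j (_ : j ∈ (univ : Finset J)) => hterm j
  have hsum2 : ∑ j : J, (if j ∈ T then Δ - ν else ν) =
      T.card * (Δ - ν) + (Fintype.card J - T.card) * ν := by
    have h1 : ∀ j : J, (if j ∈ T then Δ - ν else ν) = ν + if j ∈ T then Δ - 2 * ν else 0 := by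
      intro j
      split_ifs <;> ring
    rw [Finset.sum_congr rfl fun j _ => h1 j, Finset.sum_add_distrib, Finset.sum_const,
      Finset.card_univ, nsmul_eq_mul, Finset.sum_ite_mem, Finset.univ_inter, Finset.sum_const,
      nsmul_eq_mul]
    ring
  rw [hsum2] at hsum
  have hTr : 2 * (T.card : ℝ) ≤ Fintype.card J := by exact_mod_cast hTcard
  have hfin : 0 ≤ 2 * ∑ j, (Real.log (nv w (act a b c d (u j))) - Real.log (nv w (u j))) -
      Fintype.card J * Δ := by
    nlinarith [mul_nonneg (sub_nonneg.2 hTr) (sub_nonneg.2 hΔν)]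
  have h0 : (0 : ℝ) ≤ ((Fintype.card J - 1 : ℕ) : ℝ) := Nat.cast_nonneg _
  have := mul_nonneg h0 hfin
  linarith

end

end Pool.Agent.W5h24.RE
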