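import Mathlib

set_option autoImplicit false

/-!
# Finite places above a subfield of bounded local degree
-/

namespace Pool.Agent.W5h24.RE

open NumberField IsDedekindDomain WithZero

/-- all residue fields of `M` above `p` have at most `q` elements, and the ramification indices are
at most `e` -/
def LocType (M : Type) [Field M] [NumberField M] (p q e : ℕ) : Prop :=
  ∀ P : Ideal (𝓞 M), P.IsMaximal → (p : 𝓞 M) ∈ P →
    Nat.card (𝓞 M ⧸ P) ≤ q ∧ (p : 𝓞 M) ∉ P ^ (e + 1)

section
variable {E : Type} [Field E] [NumberField E]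

lemma place_eq (w : FinitePlace E) (x : E) : w x =
    WithZeroMulInt.toNNReal (HeightOneSpectrum.absNorm_ne_zero w.maximalIdeal)
      (w.maximalIdeal.valuation E x) := by
  rw [← FinitePlace.norm_embedding_eq w x, FinitePlace.norm_embedding']

lemma place_le_one (w : FinitePlace E) (x : E) :
    w x ≤ 1 ↔ w.maximalIdeal.valuation E x ≤ 1 := by
  rw [place_eq]
  have h := (WithZeroMulInt.toNNReal_strictMono
    (HeightOneSpectrum.one_lt_absNorm_nnreal w.maximalIdeal)).le_iff_le
    (a := w.maximalIdeal.valuation E x) (b := 1)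
  rw [map_one] at h
  rw [← h]
  norm_cast

lemma place_lt_one (w : FinitePlace E) (x : E) :
    w x < 1 ↔ w.maximalIdeal.valuation E x < 1 := by
  rw [place_eq]
  have h := (WithZeroMulInt.toNNReal_strictMono
    (HeightOneSpectrum.one_lt_absNorm_nnreal w.maximalIdeal)).lt_iff_lt
    (a := w.maximalIdeal.valuation E x) (b := 1)
  rw [map_one] at h
  rw [← h]
  norm_cast

end

section
variable {M E : Type} [Field M] [NumberField M] [Field E] [NumberField E] [Algebra M E]

/-- the prime of `M` below a finite place of `E` -/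
noncomputable def below (M : Type) [Field M] [NumberField M] [Algebra M E] (w : FinitePlace E) :
    HeightOneSpectrum (𝓞 M) where
  asIdeal := w.maximalIdeal.asIdeal.under (𝓞 M)
  isPrime := Ideal.IsPrime.under (𝓞 M) w.maximalIdeal.asIdeal
  ne_bot := Ideal.IsIntegral.comap_ne_bot _ w.maximalIdeal.ne_bot

lemma below_pow (w : FinitePlace E) (x : M) : ∃ k : ℕ, k ≠ 0 ∧
    (below M w).valuation M x ^ k = w.maximalIdeal.valuation E (algebraMap M E x) := by
  have : w.maximalIdeal.asIdeal.LiesOver (below M w).asIdeal := ⟨rfl⟩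
  exact ⟨_, Ideal.IsDedekindDomain.ramificationIdx'_ne_zero_of_liesOver w.maximalIdeal.asIdeal
    (below M w).ne_bot, HeightOneSpectrum.valuation_liesOver E (below M w) w.maximalIdeal x⟩

lemma below_le_one (w : FinitePlace E) (x : M) :
    w (algebraMap M E x) ≤ 1 ↔ (below M w).valuation M x ≤ 1 := by
  obtain ⟨k, hk, h⟩ := below_pow (M := M) w x
  rw [place_le_one, ← h, pow_le_one_iff hk]

lemma below_lt_one (w : FinitePlace E) (x : M) :
    w (algebraMap M E x) < 1 ↔ (below M w).valuation M x < 1 := by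
  obtain ⟨k, hk, h⟩ := below_pow (M := M) w x
  rw [place_lt_one, ← h]
  constructor
  · intro h1
    by_contra h2
    exact absurd h1 (not_lt.2 (one_le_pow_of_one_le' (not_lt.1 h2) k))
  · intro h1
    exact pow_lt_one' h1 hk

lemma natCast_mem_below (w : FinitePlace E) {p : ℕ} (hp : w (p : E) < 1) :
    (p : 𝓞 M) ∈ (below M w).asIdeal := by
  have h1 : w (algebraMap M E (p : M)) < 1 := by rwa [map_natCast]
  rw [below_lt_one] at h1
  have h2 : (below M w).valuation M (algebraMap (𝓞 M) M (p : 𝓞 M)) < 1 := by rwa [map_natCast]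
  exact (HeightOneSpectrum.valuation_lt_one_iff_mem _ _).1 h2

/-- the elements of `M` of absolute value less than `1` -/
lemma small_pow {p q e : ℕ} (hM : LocType M p q e) (hp0 : p ≠ 0) (w : FinitePlace E)
    (hp : w (p : E) < 1) (x : M) (hx : w (algebraMap M E x) < 1) :
    w (algebraMap M E x) ^ e ≤ w (p : E) := by
  set v := below M w with hv
  have hmem : (p : 𝓞 M) ∈ v.asIdeal := natCast_mem_below w hp
  have hnot := (hM v.asIdeal v.isMaximal hmem).2
  rw [← HeightOneSpectrum.intValuation_le_pow_iff_mem, not_le] at hnot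
  have hpM : (p : M) ≠ 0 := by exact_mod_cast hp0
  have hpE : (p : E) ≠ 0 := by exact_mod_cast hp0
  have hvp : v.valuation M (p : M) = v.intValuation (p : 𝓞 M) := by
    rw [← HeightOneSpectrum.valuation_of_algebraMap (K := M)]
    congr 1
  rcases eq_or_ne x 0 with h0 | h0
  · subst h0
    rcases Nat.eq_zero_or_pos e with he | he
    · exfalso
      subst he
      apply (hM v.asIdeal v.isMaximal hmem).2
      rwa [zero_add, pow_one]
    · rw [map_zero, map_zero, zero_pow he.ne']
      exact apply_nonneg w _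
  -- the quotient is integral
  have h1 : v.valuation M (x ^ e / p) ≤ 1 := by
    rw [map_div₀, map_pow, hvp]
    have hxv : v.valuation M x < 1 := (below_lt_one w x).1 hx
    have hxv0 : v.valuation M x ≠ 0 := (map_ne_zero _).2 h0
    have hpv0 : v.intValuation (p : 𝓞 M) ≠ 0 := by
      rw [← hvp]
      exact (map_ne_zero _).2 hpM
    obtain ⟨a, ha⟩ : ∃ a : ℤ, v.valuation M x = exp a := ⟨log (v.valuation M x),
      (exp_log hxv0).symm⟩
    obtain ⟨b, hb⟩ : ∃ b : ℤ, v.intValuation (p : 𝓞 M) = exp b :=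
      ⟨log (v.intValuation (p : 𝓞 M)), (exp_log hpv0).symm⟩
    rw [ha] at hxv ⊢
    rw [hb] at hnot ⊢
    rw [← exp_zero, exp_lt_exp] at hxv
    rw [exp_lt_exp] at hnot
    rw [← exp_nsmul, ← exp_sub, ← exp_zero, exp_le_exp]
    have h2 : (e : ℤ) * a ≤ (e : ℤ) * (-1) := mul_le_mul_of_nonneg_left (by omega) (by positivity)
    rw [nsmul_eq_mul]
    push_cast at hnot
    linarith
  rw [← below_le_one, map_div₀, map_div₀, map_natCast, map_pow, map_pow,
    div_le_one (FinitePlace.pos_iff.2 hpE)] at h1
  exact h1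

/-- pigeonhole principle for the residue field -/
lemma pigeon {p q e : ℕ} (hM : LocType M p q e) (w : FinitePlace E)
    (hp : w (p : E) < 1) {ι : Type} [Fintype ι] (hι : q < Fintype.card ι) (t : ι → M)
    (ht : ∀ i, w (algebraMap M E (t i)) ≤ 1) :
    ∃ i j, i ≠ j ∧ w (algebraMap M E (t i - t j)) < 1 := by
  set v := below M w with hv
  have hmem : (p : 𝓞 M) ∈ v.asIdeal := natCast_mem_below w hp
  have hcard := (hM v.asIdeal v.isMaximal hmem).1
  have hfin : Finite (𝓞 M ⧸ v.asIdeal) := Ideal.finiteQuotientOfFreeOfNeBot _ v.ne_bot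
  have ha : ∀ i, ∃ a : 𝓞 M, v.valuation M (algebraMap (𝓞 M) M a - t i) < 1 := by
    intro i
    obtain ⟨a, ha⟩ := v.exists_valuation_sub_lt_of_integer ((below_le_one w (t i)).1 (ht i)) 1
    exact ⟨a, by simpa using ha⟩
  choose a ha using ha
  have hni : ¬ Function.Injective fun i => Ideal.Quotient.mk v.asIdeal (a i) := by
    intro hinj
    have h1 := Nat.card_le_card_of_injective _ hinj
    rw [Nat.card_eq_fintype_card] at h1
    omega
  rw [Function.Injective] at hni
  push Not at hni
  obtain ⟨i, j, hij, hne⟩ := hni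
  refine ⟨i, j, hne, ?_⟩
  rw [below_lt_one]
  have h1 : v.valuation M (algebraMap (𝓞 M) M (a i - a j)) < 1 :=
    (HeightOneSpectrum.valuation_lt_one_iff_mem _ _).2 (Ideal.Quotient.eq.1 hij)
  have h2 : t i - t j = algebraMap (𝓞 M) M (a i - a j) -
      ((algebraMap (𝓞 M) M (a i) - t i) - (algebraMap (𝓞 M) M (a j) - t j)) := by
    rw [map_sub]
    ring
  rw [h2]
  refine lt_of_le_of_lt (Valuation.map_sub _ _ _) (max_lt h1 ?_)
  exact lt_of_le_of_lt (Valuation.map_sub _ _ _) (max_lt (ha i) (ha j))

end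

end Pool.Agent.W5h24.RE
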