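import Pool.Agent.W5h24.RE.D

set_option autoImplicit false

/-!
# Equidistribution with test functions
-/

namespace Pool.Agent.W5h24.RE

open Polynomial IntermediateField Filter Topology

section Mean
variable {ι E : Type} [Finite ι] [AddCommGroup E] [Module ℝ E]

lemma mean_add (f g : ι → E) : mean (fun i => f i + g i) = mean f + mean g := by
  have := Fintype.ofFinite ι
  rw [mean_eq, mean_eq, mean_eq, Finset.sum_add_distrib, smul_add]

lemma mean_sub (f g : ι → E) : mean (fun i => f i - g i) = mean f - mean g := by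
  have := Fintype.ofFinite ι
  rw [mean_eq, mean_eq, mean_eq, Finset.sum_sub_distrib, smul_sub]

lemma mean_const [Nonempty ι] (c : E) : mean (fun _ : ι => c) = c := by
  have := Fintype.ofFinite ι
  have h : (Fintype.card ι : ℝ) ≠ 0 := by exact_mod_cast Fintype.card_ne_zero
  rw [mean_eq, Finset.sum_const, Finset.card_univ, ← Nat.cast_smul_eq_nsmul ℝ, smul_smul,
    inv_mul_cancel₀ h, one_smul]

lemma mean_mono {f g : ι → ℝ} (h : ∀ i, f i ≤ g i) : mean f ≤ mean g := by
  have := Fintype.ofFinite ι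
  rw [mean_eq, mean_eq, smul_eq_mul, smul_eq_mul]
  exact mul_le_mul_of_nonneg_left (Finset.sum_le_sum fun i _ => h i) (by positivity)

lemma mean_nonneg {f : ι → ℝ} (h : ∀ i, 0 ≤ f i) : 0 ≤ mean f := by
  have := Fintype.ofFinite ι
  rw [mean_eq, smul_eq_mul]
  exact mul_nonneg (by positivity) (Finset.sum_nonneg fun i _ => h i)

lemma norm_mean_le (f : ι → ℂ) : ‖mean f‖ ≤ mean fun i => ‖f i‖ := by
  have := Fintype.ofFinite ι
  rw [mean_eq, mean_eq, norm_smul, smul_eq_mul, norm_inv, Real.norm_natCast]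
  exact mul_le_mul_of_nonneg_left (norm_sum_le _ _) (by positivity)

lemma mean_mul (c : ℝ) (f : ι → ℝ) : mean (fun i => c * f i) = c * mean f := by
  have := Fintype.ofFinite ι
  rw [mean_eq, mean_eq, smul_eq_mul, smul_eq_mul, ← Finset.mul_sum]
  ring

lemma mean_cmul (c : ℂ) (f : ι → ℂ) : mean (fun i => c * f i) = c * mean f := by
  have := Fintype.ofFinite ι
  rw [mean_eq, mean_eq, ← Finset.mul_sum, mul_smul_comm]

lemma mean_conj (f : ι → ℂ) : mean (fun i => (starRingEnd ℂ) (f i)) = (starRingEnd ℂ) (mean f) := by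
  have := Fintype.ofFinite ι
  rw [mean_eq, mean_eq, Complex.real_smul, Complex.real_smul, map_mul, Complex.conj_ofReal, map_sum]

lemma mean_sq_le [Nonempty ι] (f : ι → ℝ) : mean f ^ 2 ≤ mean fun i => f i ^ 2 := by
  have := Fintype.ofFinite ι
  have h : (0 : ℝ) < Fintype.card ι := by exact_mod_cast Fintype.card_pos
  rw [mean_eq, mean_eq, smul_eq_mul, smul_eq_mul, mul_pow, inv_pow]
  have h1 := sq_sum_le_card_mul_sum_sq (s := (Finset.univ : Finset ι)) (f := f)
  rw [Finset.card_univ] at h1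
  rw [inv_mul_le_iff₀ (by positivity)]
  calc (∑ i, f i) ^ 2 ≤ Fintype.card ι * ∑ i, f i ^ 2 := h1
    _ = (Fintype.card ι : ℝ) ^ 2 * ((Fintype.card ι : ℝ)⁻¹ * ∑ i, f i ^ 2) := by
      field_simp

end Mean

/-- a field, a nonzero algebraic number and its height -/
structure Dat where
  /-- the field -/
  F : IntermediateField ℚ ℂ
  /-- the number -/
  α : ℂ
  /-- the height -/
  h : ℝ
  h0 : α ≠ 0
  alg : IsAlgebraic ℚ α
  hh : IsHeight α h

noncomputable instance (d : Dat) : NumberField (NC d.α) := nf d.alg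

instance (d : Dat) : Finite (Conj d.F d.α) := finite_conj d.alg

instance (d : Dat) : Nonempty (Conj d.F d.α) :=
  ⟨⟨⟨d.α, mem_NC (F := d.F) d.alg (minpoly.aeval _ _)⟩, minpoly.aeval _ _⟩⟩

/-- small height and large degree -/
noncomputable def LF : Filter Dat :=
  comap (fun d => d.h) (𝓝 0) ⊓ comap (fun d => (minpoly d.F d.α).natDegree) atTop

/-- the mean discrepancy of a test function -/
noncomputable def Phi (g : ℂ → ℂ) (I : ℂ) (d : Dat) : ℝ :=
  mean (fun σ : NC d.α →+* ℂ => ‖mean (fun z : Conj d.F d.α => g (σ z.1)) - I‖)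

lemma Phi_nonneg (g : ℂ → ℂ) (I : ℂ) (d : Dat) : 0 ≤ Phi g I d := mean_nonneg fun _ => norm_nonneg _

lemma Phi_add (g g' : ℂ → ℂ) (I I' : ℂ) (d : Dat) :
    Phi (fun z => g z + g' z) (I + I') d ≤ Phi g I d + Phi g' I' d := by
  unfold Phi
  rw [← mean_add]
  refine mean_mono fun σ => ?_
  rw [mean_add, add_sub_add_comm]
  exact norm_add_le _ _

lemma Phi_mul (c : ℂ) (g : ℂ → ℂ) (I : ℂ) (d : Dat) :
    Phi (fun z => c * g z) (c * I) d = ‖c‖ * Phi g I d := by
  unfold Phi
  rw [← mean_mul]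
  congr 1
  funext σ
  rw [mean_cmul, ← mul_sub, norm_mul]

lemma Phi_conj (g : ℂ → ℂ) (I : ℂ) (d : Dat) :
    Phi (fun z => (starRingEnd ℂ) (g z)) ((starRingEnd ℂ) I) d = Phi g I d := by
  unfold Phi
  congr 1
  funext σ
  rw [mean_conj, ← map_sub, Complex.norm_conj]

lemma Phi_congr {g g' : ℂ → ℂ} (h : ∀ z, z ≠ 0 → g z = g' z) (I : ℂ) (d : Dat) :
    Phi g I d = Phi g' I d := by
  unfold Phi
  have h1 : ∀ σ : NC d.α →+* ℂ, (fun z : Conj d.F d.α => g (σ z.1)) =
      fun z : Conj d.F d.α => g' (σ z.1) := fun σ => funext fun z =>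
    h _ ((map_ne_zero_iff σ σ.injective).2 (conj_ne_zero d.alg d.h0 z))
  simp only [h1]

lemma Phi_close {g g' : ℂ → ℂ} {w : ℂ → ℝ} (h : ∀ z, z ≠ 0 → ‖g z - g' z‖ ≤ w z) (I I' : ℂ)
    (d : Dat) : Phi g I d ≤ Phi g' I' d + (mean (fun σ : NC d.α →+* ℂ =>
      mean (fun z : Conj d.F d.α => w (σ z.1))) + ‖I - I'‖) := by
  unfold Phi
  have h1 : ‖I - I'‖ = mean (fun _ : NC d.α →+* ℂ => ‖I - I'‖) := (mean_const _).symm
  rw [h1, ← mean_add, ← mean_add]
  refine mean_mono fun σ => ?_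
  have h2 : ‖mean (fun z : Conj d.F d.α => g (σ z.1)) - mean (fun z : Conj d.F d.α => g' (σ z.1))‖ ≤
      mean (fun z : Conj d.F d.α => w (σ z.1)) := by
    rw [← mean_sub]
    refine (norm_mean_le _).trans (mean_mono fun z => ?_)
    exact h _ ((map_ne_zero_iff σ σ.injective).2 (conj_ne_zero d.alg d.h0 z))
  have h3 : mean (fun z : Conj d.F d.α => g (σ z.1)) - I =
      (mean (fun z : Conj d.F d.α => g' (σ z.1)) - I') +
      ((mean (fun z : Conj d.F d.α => g (σ z.1)) - mean (fun z : Conj d.F d.α => g' (σ z.1))) -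
        (I - I')) := by ring
  rw [h3]
  refine (norm_add_le _ _).trans (add_le_add le_rfl ((norm_sub_le _ _).trans ?_))
  exact add_le_add h2 le_rfl

lemma Phi_zero_one (d : Dat) : Phi (fun _ => 1) 1 d = 0 := by
  unfold Phi
  simp only [mean_const, sub_self, norm_zero]

lemma tendsto_err : Tendsto err atTop (𝓝 0) := by
  have h1 : Tendsto (fun x : ℝ => (Real.log x + 1 / 2) / x) atTop (𝓝 0) := by
    have h2 : Tendsto (fun x : ℝ => Real.log x / x) atTop (𝓝 0) :=
      Real.isLittleO_log_id_atTop.tendsto_div_nhds_zero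
    have h3 : Tendsto (fun x : ℝ => (1 / 2 : ℝ) / x) atTop (𝓝 0) :=
      tendsto_const_nhds.div_atTop tendsto_id
    have h4 := h2.add h3
    rw [add_zero] at h4
    refine h4.congr fun x => ?_
    rw [add_div]
  exact h1.comp tendsto_natCast_atTop_atTop

lemma tendsto_h : Tendsto (fun d : Dat => d.h) LF (𝓝 0) := tendsto_comap.mono_left inf_le_left

lemma tendsto_deg : Tendsto (fun d : Dat => (minpoly d.F d.α).natDegree) LF atTop :=
  tendsto_comap.mono_left inf_le_right

lemma tendsto_pow (k : ℕ) (hk : 1 ≤ k) :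
    Tendsto (Phi (fun z => (z / ‖z‖) ^ k) 0) LF (𝓝 0) := by
  have h1 : Tendsto (fun d : Dat => √(4 * k * (3 * d.h + err (minpoly d.F d.α).natDegree))) LF
      (𝓝 0) := by
    have h2 : Tendsto (fun d : Dat => 4 * k * (3 * d.h + err (minpoly d.F d.α).natDegree)) LF
        (𝓝 (4 * k * (3 * 0 + 0))) :=
      ((tendsto_h.const_mul 3).add (tendsto_err.comp tendsto_deg)).const_mul _
    have h3 := h2.sqrt
    simpa using h3
  refine squeeze_zero' (Eventually.of_forall fun d => Phi_nonneg _ _ _) ?_ h1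
  filter_upwards [tendsto_deg.eventually (eventually_ge_atTop (max 2 k))] with d hd
  apply Real.le_sqrt_of_sq_le
  unfold Phi
  refine (mean_sq_le _).trans ?_
  simp only [sub_zero]
  exact mean_power d.F d.α d.h0 d.alg d.h d.hh ((le_max_left _ _).trans hd) k hk
    ((le_max_right _ _).trans hd)

end Pool.Agent.W5h24.RE
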