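import Pool.Agent.W5h24.RE.W

set_option autoImplicit false

/-!
# From local energies to heights
-/

namespace Pool.Agent.W5h24.RE

open NumberField Height Module Finset IsDedekindDomain
open Pool.Agent.W5h36.RS (product_formula height_split one_le_fin hfs_prod)

section
variable {E : Type} [Field E] [NumberField E]
variable {J : Type} [Fintype J] [DecidableEq J]

lemma place_int_le_one (w : FinitePlace E) (a : ℤ) : w (a : E) ≤ 1 := by
  rw [place_le_one]
  have h : (w.maximalIdeal.valuation E) (algebraMap (𝓞 E) E (a : 𝓞 E)) ≤ 1 :=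
    HeightOneSpectrum.valuation_le_one _ _
  rwa [map_intCast] at h

lemma place_natCast_le_one (w : FinitePlace E) (p : ℕ) : w (p : E) ≤ 1 := by
  have := place_int_le_one w (p : ℤ)
  rwa [Int.cast_natCast] at this

lemma maxw_pos (w : FinitePlace E) (a : E) : 0 < max (w a) 1 :=
  lt_of_lt_of_le one_pos (le_max_right _ _)

/-- distinct primes are not both small -/
lemma prime_unique (w : FinitePlace E) {p p' : ℕ} (hp : p.Prime) (hp' : p'.Prime) (hne : p ≠ p')
    (h : w (p : E) < 1) : w (p' : E) = 1 := by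
  refine le_antisymm (place_natCast_le_one w p') ?_
  by_contra hc
  have hc' := not_le.1 hc
  have hcop : IsCoprime (p : ℤ) (p' : ℤ) :=
    Nat.isCoprime_iff_coprime.2 ((Nat.coprime_primes hp hp').2 hne)
  obtain ⟨a, b, hab⟩ := hcop
  have h1 : (a : E) * (p : E) + (b : E) * (p' : E) = 1 := by exact_mod_cast hab
  have h2 : w ((a : E) * (p : E) + (b : E) * (p' : E)) < 1 := by
    refine lt_of_le_of_lt (FinitePlace.add_le w _ _) (max_lt ?_ ?_)
    · rw [map_mul]
      exact mul_lt_one_of_nonneg_of_lt_one_right (place_int_le_one w a) (apply_nonneg w _) h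
    · rw [map_mul]
      exact mul_lt_one_of_nonneg_of_lt_one_right (place_int_le_one w b) (apply_nonneg w _) hc'
  rw [h1, map_one] at h2
  exact lt_irrefl _ h2

lemma En_eq (w : FinitePlace E) (y : J → E) (hinj : Function.Injective y) (m : J → E)
    (hm : ∀ j, m j ≠ 0) :
    En w (fun j => (y j * m j, m j)) =
      -Real.log (w (∏ i, ∏ j ∈ univ.erase i, (y i - y j))) +
        2 * ((Fintype.card J - 1 : ℕ) : ℝ) * ∑ j, Real.log (max (w (y j)) 1) := by
  have hne : ∀ i, ∀ j ∈ univ.erase i, y i - y j ≠ 0 := fun i j hj =>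
    sub_ne_zero.2 fun h => (Finset.ne_of_mem_erase hj) (hinj h.symm)
  have hs0 : ∀ j, 0 < w (m j) := fun j => FinitePlace.pos_iff.2 (hm j)
  have hnv : ∀ j, nv w (y j * m j, m j) = max (w (y j)) 1 * w (m j) := by
    intro j
    unfold nv
    simp only [map_mul]
    rw [max_mul_of_nonneg _ _ (hs0 j).le, one_mul]
  have hwd : ∀ i j, wd (y i * m i, m i) (y j * m j, m j) = (y i - y j) * (m i * m j) := by
    intro i j
    simp only [wd]
    ring
  have h1 : ∀ i, ∀ j ∈ univ.erase i,
      Real.log (nv w (y i * m i, m i)) + Real.log (nv w (y j * m j, m j)) -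
        Real.log (w (wd (y i * m i, m i) (y j * m j, m j))) =
      (Real.log (max (w (y i)) 1) + Real.log (max (w (y j)) 1)) - Real.log (w (y i - y j)) := by
    intro i j hj
    have h2 : 0 < w (y i - y j) := FinitePlace.pos_iff.2 (hne i j hj)
    rw [hwd, hnv, hnv, map_mul, map_mul, Real.log_mul (maxw_pos w _).ne' (hs0 i).ne',
      Real.log_mul (maxw_pos w _).ne' (hs0 j).ne',
      Real.log_mul h2.ne' (mul_pos (hs0 i) (hs0 j)).ne', Real.log_mul (hs0 i).ne' (hs0 j).ne']
    ring
  have h2 : ∑ i, ∑ j ∈ univ.erase i, Real.log (w (y i - y j)) =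
      Real.log (w (∏ i, ∏ j ∈ univ.erase i, (y i - y j))) := by
    rw [map_prod, Real.log_prod]
    · refine Finset.sum_congr rfl fun i _ => ?_
      rw [map_prod, Real.log_prod]
      intro j hj
      exact (FinitePlace.pos_iff.2 (hne i j hj)).ne'
    · intro i _
      exact (FinitePlace.pos_iff.2 (Finset.prod_ne_zero_iff.2 (hne i))).ne'
  unfold En
  rw [Finset.sum_congr rfl fun i _ => Finset.sum_congr rfl (h1 i)]
  have h3 := sum_pairs fun j => Real.log (max (w (y j)) 1)
  simp only [Finset.sum_sub_distrib]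
  rw [h2, h3]
  ring

omit [NumberField E] [Fintype J] [DecidableEq J] in
lemma wd_ne (y : J → E) (hinj : Function.Injective y) (m : J → E) (hm : ∀ j, m j ≠ 0) (i j : J)
    (hij : i ≠ j) : wd (y i * m i, m i) (y j * m j, m j) ≠ 0 := by
  have hwd : wd (y i * m i, m i) (y j * m j, m j) = (y i - y j) * (m i * m j) := by
    simp only [wd]
    ring
  rw [hwd]
  exact mul_ne_zero (sub_ne_zero.2 fun h => hij (hinj h)) (mul_ne_zero (hm i) (hm j))

/-- the local inequality -/
lemma local_sum (w : FinitePlace E) (y : J → E) (hinj : Function.Injective y) (S : Finset ℕ)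
    (K : ℕ → ℝ) (hS : ∀ p ∈ S, p.Prime)
    (hloc : ∀ p ∈ S, w (p : E) < 1 → -Real.log (w (p : E)) * K p ≤
      -Real.log (w (∏ i, ∏ j ∈ univ.erase i, (y i - y j))) +
        2 * ((Fintype.card J - 1 : ℕ) : ℝ) * ∑ j, Real.log (max (w (y j)) 1)) :
    ∑ p ∈ S, (-Real.log (w (p : E))) * K p ≤
      -Real.log (w (∏ i, ∏ j ∈ univ.erase i, (y i - y j))) +
        2 * ((Fintype.card J - 1 : ℕ) : ℝ) * ∑ j, Real.log (max (w (y j)) 1) := by
  by_cases hex : ∃ p ∈ S, w (p : E) < 1
  · obtain ⟨p, hp, hlt⟩ := hex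
    rw [Finset.sum_eq_single_of_mem p hp]
    · exact hloc p hp hlt
    · intro p' hp' hne'
      rw [prime_unique w (hS p hp) (hS p' hp') hne'.symm hlt, Real.log_one, neg_zero, zero_mul]
  · push Not at hex
    rw [Finset.sum_eq_zero]
    · rw [← En_eq w y hinj (fun _ => 1) fun _ => one_ne_zero]
      exact En_nonneg w _ fun i j hij => wd_ne y hinj _ (fun _ => one_ne_zero) i j hij
    · intro p hp
      rw [le_antisymm (place_natCast_le_one w p) (hex p hp), Real.log_one, neg_zero, zero_mul]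

theorem global_sum (y : J → E) (hy : ∀ j, y j ≠ 0) (hinj : Function.Injective y)
    (hD2 : 2 ≤ Fintype.card J) (S : Finset ℕ) (C : ℕ → ℝ) (hS : ∀ p ∈ S, p.Prime)
    (hlocal : ∀ w : FinitePlace E, ∀ p ∈ S, w (p : E) < 1 → -Real.log (w (p : E)) * C p ≤
      -Real.log (w (∏ i, ∏ j ∈ univ.erase i, (y i - y j))) +
        2 * ((Fintype.card J - 1 : ℕ) : ℝ) * ∑ j, Real.log (max (w (y j)) 1)) {h : ℝ}
    (hh : ∀ j, Real.log (mulHeight₁ (y j)) ≤ finrank ℚ E * h) :
    ∑ p ∈ S, Real.log p * (C p / Fintype.card J) -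
      Real.log (Fintype.card J) - 1 / 2 ≤ 2 * (Fintype.card J - 1) * h := by
  classical
  set D := Fintype.card J with hDdef
  have hDr : (2 : ℝ) ≤ D := by exact_mod_cast hD2
  have hDc : ((D - 1 : ℕ) : ℝ) = (D : ℝ) - 1 := by
    rw [Nat.cast_sub (by omega)]
    norm_num
  set e₀ : E := ∏ i, ∏ j ∈ univ.erase i, (y i - y j) with he₀
  have hne : ∀ i, ∀ j ∈ univ.erase i, y i - y j ≠ 0 := fun i j hj =>
    sub_ne_zero.2 fun h => (Finset.ne_of_mem_erase hj) (hinj h.symm)
  have he0 : e₀ ≠ 0 := Finset.prod_ne_zero_iff.2 fun i _ => Finset.prod_ne_zero_iff.2 (hne i)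
  set A : ℝ := ∏ᶠ w : FinitePlace E, ∏ j, max (w (y j)) 1 with hA
  have hA1 : 1 ≤ A := one_le_fin y hy
  set n : ℝ := (finrank ℚ E : ℝ) with hndef
  have hn : (0 : ℝ) < n := by
    rw [hndef]
    exact_mod_cast Module.finrank_pos (R := ℚ) (M := E)
  have hcard : (Fintype.card (E →+* ℂ) : ℝ) = n := by
    rw [hndef, ← NumberField.Embeddings.card E ℂ]
  -- the places
  set P : E := ∏ p ∈ S, (p : E) with hP
  have hP0 : P ≠ 0 := Finset.prod_ne_zero_iff.2 fun p hp => by
    exact_mod_cast (hS p hp).ne_zero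
  have fe : (Function.mulSupport fun w : FinitePlace E => w e₀).Finite :=
    FinitePlace.hasFiniteMulSupport he0
  have fP : (Function.mulSupport fun w : FinitePlace E => w P).Finite :=
    FinitePlace.hasFiniteMulSupport hP0
  have fA : (Function.mulSupport fun w : FinitePlace E => ∏ j, max (w (y j)) 1).Finite :=
    hfs_prod y hy
  set 𝒮 : Finset (FinitePlace E) := fe.toFinset ∪ fP.toFinset ∪ fA.toFinset with h𝒮
  have p1 : ∏ᶠ w : FinitePlace E, w e₀ = ∏ w ∈ 𝒮, w e₀ := by
    refine finprod_eq_prod_of_mulSupport_subset _ ?_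
    intro w hw
    rw [h𝒮]
    simp only [coe_union, Set.Finite.coe_toFinset, Set.mem_union]
    exact Or.inl (Or.inl hw)
  have p2 : A = ∏ w ∈ 𝒮, ∏ j, max (w (y j)) 1 := by
    refine finprod_eq_prod_of_mulSupport_subset _ ?_
    intro w hw
    rw [h𝒮]
    simp only [coe_union, Set.Finite.coe_toFinset, Set.mem_union]
    exact Or.inr hw
  have p3 : ∀ p ∈ S, ∏ᶠ w : FinitePlace E, w (p : E) = ∏ w ∈ 𝒮, w (p : E) := by
    intro p hp
    refine finprod_eq_prod_of_mulSupport_subset _ ?_
    intro w hw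
    rw [h𝒮]
    simp only [coe_union, Set.Finite.coe_toFinset, Set.mem_union]
    refine Or.inl (Or.inr ?_)
    rw [Function.mem_mulSupport] at hw ⊢
    intro h1
    apply hw
    refine le_antisymm (place_natCast_le_one w p) ?_
    rw [hP, map_prod] at h1
    rw [← h1]
    rw [← Finset.mul_prod_erase S _ hp]
    have h2 : ∏ p ∈ S.erase p, w (p : E) ≤ 1 :=
      Finset.prod_le_one (fun _ _ => apply_nonneg w _) fun p' _ => place_natCast_le_one w p'
    calc w (p : E) * ∏ p ∈ S.erase p, w (p : E) ≤ w (p : E) * 1 := by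
          gcongr
      _ = _ := mul_one _
  -- the product formula
  have hwlog : ∀ p ∈ S, ∑ w ∈ 𝒮, (-Real.log (w (p : E))) = n * Real.log p := by
    intro p hp
    have hpE : (p : E) ≠ 0 := by exact_mod_cast (hS p hp).ne_zero
    have hpr : (0 : ℝ) < p := by exact_mod_cast (hS p hp).pos
    have h1 := product_formula hpE
    have h2 : ∏ σ : E →+* ℂ, ‖σ (p : E)‖ = (p : ℝ) ^ Fintype.card (E →+* ℂ) := by
      rw [Finset.prod_congr rfl (fun σ _ => show ‖σ (p : E)‖ = (p : ℝ) by
        rw [map_natCast, Complex.norm_natCast]), Finset.prod_const, Finset.card_univ]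
    rw [h2, p3 p hp] at h1
    have hpos : ∀ w ∈ 𝒮, w (p : E) ≠ 0 := fun w _ => (FinitePlace.pos_iff.2 hpE).ne'
    have h4 := congrArg Real.log h1
    rw [Real.log_mul (by positivity) (Finset.prod_ne_zero_iff.2 hpos), Real.log_one, Real.log_pow,
      hcard, Real.log_prod hpos] at h4
    rw [Finset.sum_neg_distrib]
    linarith
  have hσe : ∀ σ : E →+* ℂ, 0 < ‖σ e₀‖ := fun σ =>
    norm_pos_iff.2 ((map_ne_zero_iff σ σ.injective).2 he0)
  have hwe : ∑ w ∈ 𝒮, (-Real.log (w e₀)) = ∑ σ : E →+* ℂ, Real.log ‖σ e₀‖ := by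
    have h1 := product_formula he0
    rw [p1] at h1
    have hpos : ∀ w ∈ 𝒮, w e₀ ≠ 0 := fun w _ => (FinitePlace.pos_iff.2 he0).ne'
    have h4 := congrArg Real.log h1
    rw [Real.log_mul (Finset.prod_pos fun σ _ => hσe σ).ne' (Finset.prod_ne_zero_iff.2 hpos),
      Real.log_one, Real.log_prod hpos, Real.log_prod (fun σ _ => (hσe σ).ne')] at h4
    rw [Finset.sum_neg_distrib]
    linarith
  have hwA : ∑ w ∈ 𝒮, ∑ j, Real.log (max (w (y j)) 1) = Real.log A := by
    rw [p2, Real.log_prod (fun w _ => (Finset.prod_pos fun j _ => maxw_pos w _).ne')]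
    refine Finset.sum_congr rfl fun w _ => ?_
    rw [Real.log_prod (fun j _ => (maxw_pos w _).ne')]
  have hsum := Finset.sum_le_sum fun w (_ : w ∈ 𝒮) =>
    local_sum w y hinj S C hS (hlocal w)
  rw [← he₀, ← hDdef, Finset.sum_add_distrib, hwe, ← Finset.mul_sum, hwA, Finset.sum_comm] at hsum
  have hD0 : (D : ℝ) ≠ 0 := by positivity
  have hL : ∑ p ∈ S, ∑ w ∈ 𝒮, (-Real.log (w (p : E))) * C p =
      n * D * ∑ p ∈ S, Real.log p * (C p / D) := by
    rw [Finset.mul_sum]
    refine Finset.sum_congr rfl fun p hp => ?_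
    rw [← Finset.sum_mul, hwlog p hp]
    field_simp
  rw [hL] at hsum
  -- the normalised distances
  set K : ℝ := 2 * ((D - 1 : ℕ) : ℝ) with hK
  have hloc : ∀ σ : E →+* ℂ, Real.log ‖σ e₀‖ ≤ (D * Real.log D + D / 2) +
      K * ∑ j, Real.log (max 1 ‖σ (y j)‖) := by
    intro σ
    have hmax : ∀ j, (0 : ℝ) < max 1 ‖σ (y j)‖ := fun j =>
      lt_of_lt_of_le one_pos (le_max_left _ _)
    have h1 : ∀ i, ∀ j ∈ univ.erase i, Real.log (nd (σ (y i)) (σ (y j))) =
        Real.log ‖σ (y i - y j)‖ -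
          (Real.log (max 1 ‖σ (y i)‖) + Real.log (max 1 ‖σ (y j)‖)) := by
      intro i j hj
      have h2 : ‖σ (y i - y j)‖ ≠ 0 :=
        norm_ne_zero_iff.2 ((map_ne_zero_iff σ σ.injective).2 (hne i j hj))
      rw [nd, ← map_sub, Real.log_div h2 (mul_pos (hmax i) (hmax j)).ne',
        Real.log_mul (hmax i).ne' (hmax j).ne']
    have h5 : ∑ i, ∑ j ∈ univ.erase i, Real.log (nd (σ (y i)) (σ (y j))) =
        Real.log ‖σ e₀‖ - K * ∑ j, Real.log (max 1 ‖σ (y j)‖) := by
      rw [Finset.sum_congr rfl fun i _ => Finset.sum_congr rfl (h1 i)]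
      have h3 := sum_pairs fun j => Real.log (max 1 ‖σ (y j)‖)
      simp only [Finset.sum_sub_distrib]
      rw [h3]
      congr 1
      rw [he₀, map_prod, norm_prod, Real.log_prod]
      · refine Finset.sum_congr rfl fun i _ => ?_
        rw [map_prod, norm_prod, Real.log_prod]
        intro j hj
        exact norm_ne_zero_iff.2 ((map_ne_zero_iff σ σ.injective).2 (hne i j hj))
      · intro i _
        exact norm_ne_zero_iff.2 ((map_ne_zero_iff σ σ.injective).2
          (Finset.prod_ne_zero_iff.2 (hne i)))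
    have h6 := energy_card (fun j => σ (y j)) (σ.injective.comp hinj) hD2 (Nat.zero_le _)
    rw [h5, ← hDdef] at h6
    simp only [show Icc 1 0 = (∅ : Finset ℕ) from rfl, Finset.sum_empty] at h6
    linarith
  have hH : ∑ j, Real.log (mulHeight₁ (y j)) =
      ∑ σ : E →+* ℂ, ∑ j, Real.log (max 1 ‖σ (y j)‖) + Real.log A := by
    have h1 := congrArg Real.log (height_split y)
    rw [Real.log_prod (fun j _ => (mulHeight₁_pos _).ne')] at h1
    rw [h1, Real.log_mul]
    · rw [Real.log_prod]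
      · congr 1
        refine Finset.sum_congr rfl fun σ _ => ?_
        rw [Real.log_prod fun j _ => (lt_of_lt_of_le one_pos (le_max_left _ _)).ne']
      · intro σ _
        exact (Finset.prod_pos fun j _ => lt_of_lt_of_le one_pos (le_max_left _ _)).ne'
    · exact (Finset.prod_pos fun σ _ => Finset.prod_pos fun j _ =>
        lt_of_lt_of_le one_pos (le_max_left _ _)).ne'
    · exact (lt_of_lt_of_le one_pos hA1).ne'
  have hHle : ∑ j, Real.log (mulHeight₁ (y j)) ≤ D * (n * h) := by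
    refine (Finset.sum_le_sum fun j _ => hh j).trans (le_of_eq ?_)
    rw [Finset.sum_const, Finset.card_univ, nsmul_eq_mul]
  have hsumσ : ∑ σ : E →+* ℂ, Real.log ‖σ e₀‖ ≤ n * (D * Real.log D + D / 2) +
      K * ∑ σ : E →+* ℂ, ∑ j, Real.log (max 1 ‖σ (y j)‖) := by
    refine (Finset.sum_le_sum fun σ _ => hloc σ).trans (le_of_eq ?_)
    rw [Finset.sum_add_distrib, Finset.sum_const, Finset.card_univ, nsmul_eq_mul, hcard,
      ← Finset.mul_sum]
  have hK0 : 0 ≤ K := by positivity
  have hfinal : n * D * ∑ p ∈ S, Real.log p * (C p / D) ≤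
      n * (D * Real.log D + D / 2) + K * (D * (n * h)) := by
    have h2 : K * (∑ σ : E →+* ℂ, ∑ j, Real.log (max 1 ‖σ (y j)‖) + Real.log A) ≤
        K * (D * (n * h)) := by
      rw [← hH]
      gcongr
    linarith
  have hKr : K = 2 * (D - 1) := by rw [hK, hDc]
  rw [hKr] at hfinal
  have h9 : (n * D) * (∑ p ∈ S, Real.log p * (C p / D) -
      Real.log D - 1 / 2) ≤ (n * D) * (2 * (D - 1) * h) := by
    linarith
  exact le_of_mul_le_mul_left h9 (by positivity)

end

end Pool.Agent.W5h24.RE
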