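import Pool.Agent.W5h24.RE.G

set_option autoImplicit false

/-!
# The energy of projections of points of a projective space
-/

namespace Pool.Agent.W5h24.RE

open NumberField Height Module Finset IsDedekindDomain

section
variable {M E : Type} [Field M] [NumberField M] [Field E] [NumberField E] [Algebra M E]

omit [NumberField M] in
/-- the colouring of a finite family of vectors -/
lemma colouring (w : FinitePlace E) {ϖ : ℝ} (hϖ0 : 0 ≤ ϖ)
    (hϖ : ∀ t ∈ (algebraMap M E).fieldRange, w t < 1 → w t ≤ ϖ) {C : Type} (c : E → C)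
    (hc : ∀ s ∈ (algebraMap M E).fieldRange, ∀ t ∈ (algebraMap M E).fieldRange, w s ≤ 1 →
      w t ≤ 1 → c s = c t → w (s - t) < 1) {J : Type} [Finite J] (n : ℕ) :
    ∀ (ν : (Fin n → M) → ℝ), (∀ u v, ν (u + v) ≤ max (ν u) (ν v)) →
      (∀ (t : M) u, ν (t • u) ≤ w (algebraMap M E t) * ν u) → ∀ τ : ℝ, 0 ≤ τ →
      ∀ v : J → Fin n → M, (∀ j, ν (v j) ≤ τ) →
      ∃ col : J → Fin n → C, ∀ i j, col i = col j → ν (v i - v j) ≤ ϖ * τ := by
  induction n with
  | zero =>
    intro ν hadd hsmul τ hτ v hv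
    refine ⟨fun _ k => k.elim0, fun i j _ => ?_⟩
    have h1 : v i - v j = (0 : M) • v i := Subsingleton.elim _ _
    rw [h1]
    refine (hsmul 0 (v i)).trans ?_
    rw [map_zero, map_zero, zero_mul]
    positivity
  | succ n ih =>
    intro ν hadd hsmul τ hτ v hv
    rcases isEmpty_or_nonempty J with hJ | hJ
    · exact ⟨fun j => (hJ.false j).elim, fun i => (hJ.false i).elim⟩
    obtain ⟨j₁, hj₁⟩ := Finite.exists_max fun j => w (algebraMap M E (v j 0))
    set r : J → M := fun j => v j 0 / v j₁ 0 with hr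
    have hr1 : ∀ j, w (algebraMap M E (r j)) ≤ 1 := by
      intro j
      rw [hr]
      simp only
      rcases eq_or_ne (v j₁ 0) 0 with h | h
      · rw [h, div_zero, map_zero, map_zero]
        exact zero_le_one
      · rw [map_div₀, map_div₀, div_le_one (FinitePlace.pos_iff.2 ((map_ne_zero _).2 h))]
        exact hj₁ j
    have hr2 : ∀ j, v j 0 - r j * v j₁ 0 = 0 := by
      intro j
      rw [hr]
      simp only
      rcases eq_or_ne (v j₁ 0) 0 with h | h
      · have h1 := hj₁ j
        rw [h, map_zero, map_zero] at h1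
        have h2 : algebraMap M E (v j 0) = 0 := by
          by_contra h3
          exact absurd (FinitePlace.pos_iff.2 h3) (not_lt.2 h1)
        rw [(map_eq_zero _).1 h2, h]
        simp
      · rw [div_mul_cancel₀ _ h, sub_self]
    set v' : J → Fin (n + 1) → M := fun j => v j + (-(r j)) • v j₁ with hv'
    have hv'0 : ∀ j, v' j = Fin.cons 0 (Fin.tail (v' j)) := by
      intro j
      have h1 : v' j 0 = 0 := by
        rw [hv']
        simp only [Pi.add_apply, Pi.smul_apply, smul_eq_mul]
        rw [← hr2 j]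
        ring
      conv_lhs => rw [← Fin.cons_self_tail (v' j), h1]
    have hνsm : ∀ (t : M) (j : J), w (algebraMap M E t) ≤ 1 → ν (t • v j) ≤ τ := by
      intro t j ht
      refine (hsmul t (v j)).trans ?_
      calc w (algebraMap M E t) * ν (v j) ≤ w (algebraMap M E t) * τ := by
            gcongr
            exact hv j
        _ ≤ 1 * τ := by gcongr
        _ = τ := one_mul τ
    obtain ⟨col', hcol'⟩ := ih (fun u => ν (Fin.cons 0 u))
      (by
        intro u u'
        have h1 : (Fin.cons 0 (u + u') : Fin (n + 1) → M) = Fin.cons 0 u + Fin.cons 0 u' := by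
          funext k
          refine Fin.cases ?_ (fun k => ?_) k
          · simp
          · simp
        rw [h1]
        exact hadd _ _)
      (by
        intro t u
        have h1 : (Fin.cons 0 (t • u) : Fin (n + 1) → M) = t • Fin.cons 0 u := by
          funext k
          refine Fin.cases ?_ (fun k => ?_) k
          · simp
          · simp
        rw [h1]
        exact hsmul _ _)
      τ hτ (fun j => Fin.tail (v' j)) (by
        intro j
        rw [← hv'0 j]
        refine (hadd _ _).trans (max_le (hv j) ?_)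
        exact hνsm _ _ (by rw [map_neg, map_neg_eq_map]; exact hr1 j))
    refine ⟨fun j => Fin.cons (c (algebraMap M E (r j))) (col' j), fun i j hij => ?_⟩
    have h1 : c (algebraMap M E (r i)) = c (algebraMap M E (r j)) := by
      have := congrFun hij 0
      simpa using this
    have h2 : col' i = col' j := by
      funext k
      have := congrFun hij k.succ
      simpa using this
    have h3 := hcol' i j h2
    have h4 : (Fin.cons 0 (Fin.tail (v' i) - Fin.tail (v' j)) : Fin (n + 1) → M) =
        v' i - v' j := by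
      conv_rhs => rw [hv'0 i, hv'0 j]
      funext k
      refine Fin.cases ?_ (fun k => ?_) k
      · simp
      · simp
    rw [h4] at h3
    have h5 : w (algebraMap M E (r i - r j)) ≤ ϖ := by
      apply hϖ _ ⟨_, rfl⟩
      rw [map_sub]
      exact hc _ ⟨_, rfl⟩ _ ⟨_, rfl⟩ (hr1 i) (hr1 j) h1
    have h6 : v i - v j = (v' i - v' j) + (r i - r j) • v j₁ := by
      rw [hv']
      simp only
      module
    rw [h6]
    refine (hadd _ _).trans (max_le h3 ?_)
    refine (hsmul _ _).trans ?_
    calc w (algebraMap M E (r i - r j)) * ν (v j₁) ≤ w (algebraMap M E (r i - r j)) * τ := by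
          gcongr
          exact hv j₁
      _ ≤ ϖ * τ := by gcongr

lemma nv_add (w : FinitePlace E) (a b : E × E) : nv w (a + b) ≤ max (nv w a) (nv w b) := by
  refine max_le ?_ ?_
  · exact (FinitePlace.add_le w _ _).trans (max_le_max (le_max_left _ _) (le_max_left _ _))
  · exact (FinitePlace.add_le w _ _).trans (max_le_max (le_max_right _ _) (le_max_right _ _))

lemma nv_smul (w : FinitePlace E) (t : E) (a : E × E) : nv w (t • a) = w t * nv w a := by
  unfold nv
  rw [mul_max_of_nonneg _ _ (apply_nonneg w _), ← map_mul, ← map_mul]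
  rfl

omit [NumberField E] in
lemma wd_smul (s t : E) (a b : E × E) : wd (s • a) (t • b) = s * t * wd a b := by
  simp only [wd, Prod.smul_fst, Prod.smul_snd, smul_eq_mul]
  ring

omit [NumberField E] in
lemma wd_sub (a b : E × E) : wd a b = wd (a - b) b := by
  simp only [wd, Prod.fst_sub, Prod.snd_sub]
  ring

omit [NumberField M] [NumberField E] in
/-- the linear map attached to two rows -/
lemma rows_add {n : ℕ} (A : Fin n → E) (u v : Fin n → M) :
    ∑ k, A k * algebraMap M E ((u + v) k) =
      ∑ k, A k * algebraMap M E (u k) + ∑ k, A k * algebraMap M E (v k) := by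
  rw [← Finset.sum_add_distrib]
  refine Finset.sum_congr rfl fun k _ => ?_
  rw [Pi.add_apply, map_add]
  ring

omit [NumberField M] [NumberField E] in
lemma rows_smul {n : ℕ} (A : Fin n → E) (t : M) (u : Fin n → M) :
    ∑ k, A k * algebraMap M E ((t • u) k) = algebraMap M E t * ∑ k, A k * algebraMap M E (u k) := by
  rw [Finset.mul_sum]
  refine Finset.sum_congr rfl fun k _ => ?_
  rw [Pi.smul_apply, smul_eq_mul, map_mul]
  ring

variable {J : Type} [Fintype J] [DecidableEq J]

/-- the energy of projections of points of a projective space over `M` -/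
theorem local_gen {p q e : ℕ} (hM : LocType M p q e) (hp0 : p ≠ 0) (w : FinitePlace E)
    (hp : w (p : E) < 1) {n : ℕ} (v : J → Fin n → M) (A B : Fin n → E) (z : J → E × E)
    (hz : ∀ j, z j = (∑ k, A k * algebraMap M E (v j k), ∑ k, B k * algebraMap M E (v j k)))
    (hz0 : ∀ j, z j ≠ 0) (hne : ∀ i j, i ≠ j → wd (z i) (z j) ≠ 0) :
    -Real.log (w (p : E)) * ((Fintype.card J : ℝ) ^ 2 / (2 * q ^ n) - Fintype.card J) ≤
      2 * e * En w z := by
  classical
  obtain ⟨π, ⟨π₀, hπ₀⟩, hπ0, hπ1, hπ⟩ := exists_unif (M := M) w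
  obtain ⟨C, hCf, hC, c, hc⟩ := exists_colour hM w hp
  set ϖ : ℝ := w π with hϖ
  have hϖ0 : 0 < ϖ := FinitePlace.pos_iff.2 hπ0
  have hpE : (p : E) ≠ 0 := by exact_mod_cast hp0
  have hwp : 0 < w (p : E) := FinitePlace.pos_iff.2 hpE
  have hpow : ϖ ^ e ≤ w (p : E) := by
    have h1 := small_pow hM hp0 w hp π₀ (by rw [hπ₀]; exact hπ1)
    rwa [hπ₀] at h1
  have hlogϖ : e * Real.log ϖ ≤ Real.log (w (p : E)) := by
    have h1 := Real.log_le_log (pow_pos hϖ0 e) hpow
    rwa [Real.log_pow] at h1
  have hπ₀0 : π₀ ≠ 0 := by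
    rintro rfl
    rw [map_zero] at hπ₀
    exact hπ0 hπ₀.symm
  -- the scaling
  have hscale : ∀ j, ∃ k : ℤ, ϖ < ϖ ^ k * nv w (z j) ∧ ϖ ^ k * nv w (z j) ≤ 1 := by
    intro j
    obtain ⟨m, hm1, hm2⟩ := exists_mem_Ioc_zpow (nv_pos w (hz0 j)) ((one_lt_inv₀ hϖ0).2 hπ1)
    refine ⟨m + 1, ?_, ?_⟩
    · have h1 : ϖ ^ (m + 1) * (ϖ⁻¹) ^ m = ϖ := by
        rw [inv_zpow, zpow_add₀ hϖ0.ne', zpow_one, mul_right_comm, mul_inv_cancel₀, one_mul]
        exact (zpow_pos hϖ0 m).ne'
      calc ϖ = ϖ ^ (m + 1) * (ϖ⁻¹) ^ m := h1.symm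
        _ < _ := mul_lt_mul_of_pos_left hm1 (zpow_pos hϖ0 _)
    · have h1 : ϖ ^ (m + 1) * (ϖ⁻¹) ^ (m + 1) = 1 := by
        rw [inv_zpow, mul_inv_cancel₀]
        exact (zpow_pos hϖ0 _).ne'
      calc ϖ ^ (m + 1) * nv w (z j) ≤ ϖ ^ (m + 1) * (ϖ⁻¹) ^ (m + 1) :=
            mul_le_mul_of_nonneg_left hm2 (zpow_pos hϖ0 _).le
        _ = 1 := h1
  choose k hk1 hk2 using hscale
  set ν : (Fin n → M) → ℝ := fun u =>
    nv w (∑ k, A k * algebraMap M E (u k), ∑ k, B k * algebraMap M E (u k)) with hν
  have hadd : ∀ u v, ν (u + v) ≤ max (ν u) (ν v) := by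
    intro u u'
    rw [hν]
    simp only
    rw [rows_add, rows_add, ← Prod.mk_add_mk]
    exact nv_add w _ _
  have hsmul' : ∀ (t : M) u, ν (t • u) = w (algebraMap M E t) * ν u := by
    intro t u
    rw [hν]
    simp only
    rw [rows_smul, rows_smul, ← nv_smul]
    rfl
  set v' : J → Fin n → M := fun j => (π₀ ^ k j) • v j with hv'
  set z' : J → E × E := fun j => (π ^ k j) • z j with hz'
  have hzv : ∀ j, z' j = (∑ l, A l * algebraMap M E (v' j l),
      ∑ l, B l * algebraMap M E (v' j l)) := by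
    intro j
    rw [hv', hz']
    simp only
    rw [rows_smul, rows_smul, hz j, map_zpow₀, hπ₀]
    rfl
  have hnz' : ∀ j, nv w (z' j) = ϖ ^ k j * nv w (z j) := by
    intro j
    rw [hz']
    simp only
    rw [nv_smul, map_zpow₀]
  have hνz : ∀ j, ν (v' j) = nv w (z' j) := by
    intro j
    rw [hzv j]
  have hνsub : ∀ i j, ν (v' i - v' j) = nv w (z' i - z' j) := by
    intro i j
    rw [hzv i, hzv j, Prod.mk_sub_mk]
    have h1 : ∀ A : Fin n → E, ∑ l, A l * algebraMap M E ((v' i - v' j) l) =
        ∑ l, A l * algebraMap M E (v' i l) - ∑ l, A l * algebraMap M E (v' j l) := by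
      intro A
      rw [← Finset.sum_sub_distrib]
      refine Finset.sum_congr rfl fun l _ => ?_
      rw [Pi.sub_apply, map_sub]
      ring
    rw [hν]
    simp only
    rw [h1, h1]
  -- the two colourings
  set b : J → Bool := fun j => decide (ϖ < nv w (z' j) ^ 2) with hb
  have hν0 : ν 0 ≤ 0 := by
    have h1 := hsmul' 0 0
    rw [map_zero, map_zero, zero_mul, zero_smul] at h1
    exact h1.le
  have hcolb : ∀ (β : Bool) (τ : ℝ), 0 ≤ τ → (∀ j, b j = β → nv w (z' j) ≤ τ) →
      ∃ col : J → Fin n → C, ∀ i j, b i = β → b j = β → col i = col j →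
        nv w (z' i - z' j) ≤ ϖ * τ := by
    intro β τ hτ hle
    obtain ⟨col, hcol⟩ := colouring (M := M) w hϖ0.le hπ c hc n ν hadd
      (fun t u => (hsmul' t u).le) τ hτ (fun j => if b j = β then v' j else 0) (by
        intro j
        split_ifs with h
        · rw [hνz]
          exact hle j h
        · exact hν0.trans hτ)
    refine ⟨col, fun i j hi hj hij => ?_⟩
    have h1 := hcol i j hij
    rw [if_pos hi, if_pos hj, hνsub] at h1
    exact h1
  obtain ⟨col1, hcol1⟩ := hcolb true 1 zero_le_one (fun j _ => by rw [hnz']; exact hk2 j)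
  obtain ⟨col2, hcol2⟩ := hcolb false (Real.sqrt ϖ) (Real.sqrt_nonneg _) (fun j hj => by
    have h1 : ¬ ϖ < nv w (z' j) ^ 2 := by
      simpa [hb] using hj
    exact Real.le_sqrt_of_sq_le (not_lt.1 h1))
  set col : J → Bool × (Fin n → C) := fun j => (b j, if b j = true then col1 j else col2 j)
    with hcol
  -- pairs of the same colour
  have hclose : ∀ i j, col i = col j →
      w (wd (z' i) (z' j)) ^ 2 ≤ ϖ * (nv w (z' i) * nv w (z' j)) ^ 2 := by
    intro i j hij
    rw [hcol] at hij
    simp only [Prod.mk.injEq] at hij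
    obtain ⟨hb1, hb2⟩ := hij
    have hle : w (wd (z' i) (z' j)) ≤ nv w (z' i - z' j) * nv w (z' j) := by
      rw [wd_sub]
      exact wd_le w _ _
    have hn := nv_nonneg w (z' j)
    have hlow : ϖ < nv w (z' i) := by
      rw [hnz']
      exact hk1 i
    by_cases hbi : b i = true
    · have hbj : b j = true := hb1 ▸ hbi
      rw [if_pos hbi, if_pos hbj] at hb2
      have h1 := hcol1 i j hbi hbj hb2
      rw [mul_one] at h1
      have h2 : ϖ < nv w (z' i) ^ 2 := by
        simpa [hb] using hbi
      calc w (wd (z' i) (z' j)) ^ 2 ≤ (ϖ * nv w (z' j)) ^ 2 := by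
            refine pow_le_pow_left₀ (apply_nonneg w _) (hle.trans ?_) 2
            gcongr
        _ = ϖ * (ϖ * nv w (z' j) ^ 2) := by ring
        _ ≤ ϖ * (nv w (z' i) ^ 2 * nv w (z' j) ^ 2) := by gcongr
        _ = _ := by ring
    · have hbj : ¬ b j = true := hb1 ▸ hbi
      rw [if_neg hbi, if_neg hbj] at hb2
      have h1 := hcol2 i j (by simpa using hbi) (by simpa using hbj) hb2
      have hs : Real.sqrt ϖ ^ 2 = ϖ := Real.sq_sqrt hϖ0.le
      calc w (wd (z' i) (z' j)) ^ 2 ≤ (ϖ * Real.sqrt ϖ * nv w (z' j)) ^ 2 := by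
            refine pow_le_pow_left₀ (apply_nonneg w _) (hle.trans ?_) 2
            gcongr
        _ = ϖ * (ϖ ^ 2 * nv w (z' j) ^ 2) := by
            rw [mul_pow, mul_pow, hs]
            ring
        _ ≤ ϖ * (nv w (z' i) ^ 2 * nv w (z' j) ^ 2) := by gcongr
        _ = _ := by ring
  have hterm : ∀ i, ∀ j ∈ univ.erase i, (if col i = col j then (1 : ℝ) else 0) *
      (-Real.log (w (p : E))) ≤ 2 * e * (Real.log (nv w (z i)) + Real.log (nv w (z j)) -
        Real.log (w (wd (z i) (z j)))) := by
    intro i j hj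
    have hij : i ≠ j := (Finset.ne_of_mem_erase hj).symm
    have hw0 := hne i j hij
    split_ifs with h
    · have h1 := hclose i j h
      have hwd : 0 < w (wd (z i) (z j)) := FinitePlace.pos_iff.2 hw0
      have hi := nv_pos w (hz0 i)
      have hj' := nv_pos w (hz0 j)
      have e1 : w (wd (z' i) (z' j)) = ϖ ^ k i * ϖ ^ k j * w (wd (z i) (z j)) := by
        rw [hz']
        simp only
        rw [wd_smul, map_mul, map_mul, map_zpow₀, map_zpow₀]
      rw [e1, hnz', hnz'] at h1
      have hki : 0 < ϖ ^ k i := zpow_pos hϖ0 _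
      have hkj : 0 < ϖ ^ k j := zpow_pos hϖ0 _
      have h2 := Real.log_le_log (by positivity) h1
      rw [Real.log_pow, Real.log_mul hϖ0.ne' (by positivity), Real.log_pow,
        Real.log_mul (mul_pos hki hkj).ne' hwd.ne', Real.log_mul hki.ne' hkj.ne',
        Real.log_mul (mul_pos hki hi).ne' (mul_pos hkj hj').ne', Real.log_mul hki.ne' hi.ne',
        Real.log_mul hkj.ne' hj'.ne'] at h2
      have h3 : -Real.log ϖ ≤ 2 * (Real.log (nv w (z i)) + Real.log (nv w (z j)) -
          Real.log (w (wd (z i) (z j)))) := by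
        push_cast at h2
        linarith
      rw [one_mul]
      have he0 : (0 : ℝ) ≤ e := Nat.cast_nonneg _
      have h4 := mul_le_mul_of_nonneg_left h3 he0
      linarith
    · rw [zero_mul]
      exact mul_nonneg (by positivity) (term_nonneg w hw0)
  have hℓ : 0 ≤ -Real.log (w (p : E)) := by
    have := Real.log_nonpos hwp.le hp.le
    linarith
  have h1 : (∑ i, ∑ j ∈ univ.erase i, (if col i = col j then (1 : ℝ) else 0)) *
      (-Real.log (w (p : E))) ≤ 2 * e * En w z := by
    unfold En
    rw [Finset.sum_mul, Finset.mul_sum]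
    refine Finset.sum_le_sum fun i _ => ?_
    rw [Finset.sum_mul, Finset.mul_sum]
    exact Finset.sum_le_sum (hterm i)
  have h2 := count_pairs col
  have h3 : (Fintype.card (Bool × (Fin n → C)) : ℝ) ≤ 2 * q ^ n := by
    rw [Fintype.card_prod, Fintype.card_bool, Fintype.card_fun, Fintype.card_fin]
    push_cast
    have : (Fintype.card C : ℝ) ≤ q := by exact_mod_cast hC
    gcongr
  set S : ℝ := ∑ i, ∑ j ∈ univ.erase i, (if col i = col j then (1 : ℝ) else 0) with hS
  have hS0 : 0 ≤ S := Finset.sum_nonneg fun i _ => Finset.sum_nonneg fun j _ => by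
    split_ifs <;> norm_num
  have h4 : (Fintype.card J : ℝ) ^ 2 / (2 * q ^ n) - Fintype.card J ≤ S := by
    have h5 : (Fintype.card J : ℝ) ^ 2 ≤ (2 * q ^ n) * (S + Fintype.card J) :=
      h2.trans (by gcongr)
    have h6 : (Fintype.card J : ℝ) ^ 2 / (2 * q ^ n) ≤ S + Fintype.card J :=
      div_le_of_le_mul₀ (by positivity) (by positivity) (by linarith)
    linarith
  calc -Real.log (w (p : E)) * ((Fintype.card J : ℝ) ^ 2 / (2 * q ^ n) - Fintype.card J) ≤
      -Real.log (w (p : E)) * S := by gcongr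
    _ = S * (-Real.log (w (p : E))) := mul_comm _ _
    _ ≤ _ := h1

end

end Pool.Agent.W5h24.RE
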